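import Mathlib

namespace Pool.Agent.U615.NCCA

open Finset

set_option linter.unusedSectionVars false

variable {G : Type*} [AddCommGroup G] [Fintype G] [DecidableEq G]

/-- configurations: integer functions with values in 0,1,2 -/
def IsCfg (X : G → ℤ) : Prop := ∀ v, 0 ≤ X v ∧ X v ≤ 2

/-- unit mass at `p` -/
def dl (p : G) : G → ℤ := fun v => if v = p then 1 else 0

/-- the abstract setting -/
structure Setup (N : Set G) (F : (G → ℤ) → (G → ℤ)) : Prop where
  zero_mem : (0 : G) ∈ N
  neg_mem : ∀ a ∈ N, -a ∈ N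
  g1 : ∀ a ∈ N, ∀ b ∈ N, ∀ c ∈ N, ∀ d ∈ N, a + b = c + d → a + b ≠ 0 →
    (a = c ∧ b = d) ∨ (a = d ∧ b = c)
  g2 : ∀ a ∈ N, a ≠ 0 → a + a ≠ 0
  g3 : ∀ a ∈ N, a ≠ 0 → ∀ b ∈ N, ∀ c ∈ N, a + a + a ≠ b + c
  val : ∀ X, IsCfg X → IsCfg (F X)
  loc : ∀ X Y v, IsCfg X → IsCfg Y → (∀ u, u - v ∈ N → X u = Y u) → F X v = F Y v
  tr : ∀ X a, IsCfg X → F (fun v => X (v + a)) = fun v => F X (v + a)
  mass : ∀ X, IsCfg X → ∑ v, F X v = ∑ v, X v
  inj : ∀ X Y, IsCfg X → IsCfg Y → F X = F Y → X = Y

@[simp] lemma dl_self (p : G) : dl p p = 1 := by simp [dl]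

lemma dl_ne {p v : G} (h : v ≠ p) : dl p v = 0 := by simp [dl, h]

lemma dl_ne' {p v : G} (h : p ≠ v) : dl p v = 0 := by simp [dl, h.symm]

lemma dl_nonneg (p v : G) : 0 ≤ dl p v := by
  unfold dl; split_ifs <;> simp

lemma dl_le_one (p v : G) : dl p v ≤ 1 := by
  unfold dl; split_ifs <;> simp

lemma dl_zero_or_one (p v : G) : dl p v = 0 ∨ dl p v = 1 := by
  unfold dl; split_ifs <;> simp

lemma sum_dl (p : G) : ∑ v, dl p v = 1 := by simp [dl]

lemma eq_of_dl_ne_zero {p v : G} (h : dl p v ≠ 0) : v = p := by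
  by_contra h'
  exact h (dl_ne h')

lemma dl_inj {p q : G} (h : dl p = dl q) : p = q := by
  have := congrFun h p
  rw [dl_self] at this
  apply eq_of_dl_ne_zero
  rw [← this]; norm_num

/-- a nonnegative integer function with total 1 is a unit mass -/
lemma mass_one (X : G → ℤ) (h0 : ∀ v, 0 ≤ X v) (h : ∑ v, X v = 1) : ∃ w, X = dl w := by
  have : ∃ w, X w ≠ 0 := by
    by_contra hc
    push Not at hc
    simp [hc] at h
  obtain ⟨w, hw⟩ := this
  refine ⟨w, ?_⟩
  have hw1 : 1 ≤ X w := by
    have := h0 w; omega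
  have hz : ∑ v, (X v - dl w v) = 0 := by
    rw [Finset.sum_sub_distrib, h, sum_dl]; norm_num
  have hnn : ∀ v ∈ (Finset.univ : Finset G), 0 ≤ X v - dl w v := by
    intro v _
    by_cases hv : v = w
    · subst hv; rw [dl_self]; linarith
    · rw [dl_ne hv]; have := h0 v; linarith
  have := (Finset.sum_eq_zero_iff_of_nonneg hnn).1 hz
  funext v
  have := this v (Finset.mem_univ v)
  linarith

lemma mass_zero (X : G → ℤ) (h0 : ∀ v, 0 ≤ X v) (h : ∑ v, X v = 0) : X = 0 := by
  have := (Finset.sum_eq_zero_iff_of_nonneg (fun v _ => h0 v)).1 h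
  funext v
  exact this v (Finset.mem_univ v)

lemma mass_two (X : G → ℤ) (h0 : ∀ v, 0 ≤ X v) (h : ∑ v, X v = 2) :
    ∃ w w', X = dl w + dl w' := by
  have : ∃ w, X w ≠ 0 := by
    by_contra hc
    push Not at hc
    simp [hc] at h
  obtain ⟨w, hw⟩ := this
  have hw1 : 1 ≤ X w := by
    have := h0 w; omega
  have hz : ∑ v, (X v - dl w v) = 1 := by
    rw [Finset.sum_sub_distrib, h, sum_dl]; norm_num
  have hnn : ∀ v, 0 ≤ X v - dl w v := by
    intro v
    by_cases hv : v = w
    · subst hv; rw [dl_self]; linarith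
    · rw [dl_ne hv]; have := h0 v; linarith
  obtain ⟨w', hw'⟩ := mass_one (fun v => X v - dl w v) hnn hz
  refine ⟨w, w', ?_⟩
  funext v
  have := congrFun hw' v
  simp only [Pi.add_apply] at this ⊢
  linarith

lemma cfg_zero : IsCfg (0 : G → ℤ) := by intro v; simp

lemma cfg_dl (p : G) : IsCfg (dl p) := by
  intro v
  rcases dl_zero_or_one p v with h | h <;> rw [h] <;> norm_num

lemma cfg_two_dl (p : G) : IsCfg (2 * dl p) := by
  intro v
  simp only [Pi.mul_apply, Pi.ofNat_apply]
  rcases dl_zero_or_one p v with h | h <;> rw [h] <;> norm_num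

/-- nonnegativity of an integer function -/
def NN (X : G → ℤ) : Prop := ∀ v, 0 ≤ X v

lemma IsCfg.nn {X : G → ℤ} (h : IsCfg X) : NN X := fun v => (h v).1

lemma cfg_of_le {X Y : G → ℤ} (hX : NN X) (hY : IsCfg Y) (h : ∀ v, X v ≤ Y v) : IsCfg X :=
  fun v => ⟨hX v, (h v).trans (hY v).2⟩

variable {N : Set G} {F : (G → ℤ) → (G → ℤ)}

lemma Setup.zero (S : Setup N F) : F 0 = 0 := by
  apply mass_zero _ (fun v => (S.val 0 cfg_zero v).1)
  rw [S.mass 0 cfg_zero]; simp

/-- if `v` does not see `p`, changing at `p` only does not matter -/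
lemma Setup.loc1 (S : Setup N F) {X A : G → ℤ} {p v : G} (hA : ∀ u, u ≠ p → A u = 0)
    (hX : IsCfg X) (hXA : IsCfg (X + A)) (h : p - v ∉ N) : F (X + A) v = F X v := by
  apply S.loc _ _ _ hXA hX
  intro u hu
  have : u ≠ p := by rintro rfl; exact h hu
  simp [hA u this]

/-- at most two cells see both of two given cells -/
lemma Setup.see2 (S : Setup N F) {p q v1 v2 w : G} (hpq : p ≠ q) (h12 : v1 ≠ v2)
    (a1 : p - v1 ∈ N) (b1 : q - v1 ∈ N) (a2 : p - v2 ∈ N) (b2 : q - v2 ∈ N)
    (a3 : p - w ∈ N) (b3 : q - w ∈ N) : v1 + v2 = p + q ∧ (w = v1 ∨ w = v2) := by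
  have key : ∀ x y : G, p - x ∈ N → q - x ∈ N → p - y ∈ N → q - y ∈ N → x ≠ y → x + y = p + q := by
    intro x y hx1 hx2 hy1 hy2 hxy
    have hx3 := S.neg_mem _ hx2
    have hy3 := S.neg_mem _ hy2
    have e : (p - x) + (-(q - x)) = (p - y) + (-(q - y)) := by abel
    have ne : (p - x) + (-(q - x)) ≠ 0 := by
      intro h
      apply hpq
      have : p - q = 0 := by rw [← h]; abel
      exact sub_eq_zero.1 this
    rcases S.g1 _ hx1 _ hx3 _ hy1 _ hy3 e ne with h | h
    · exfalso; apply hxy
      have := h.1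
      exact (sub_right_inj.1 this)
    · have := h.1
      have h2 : p - x + x + y = -(q - y) + x + y := by rw [this]
      have h3 : p + y = x + y + y - q := by
        calc p + y = p - x + x + y := by abel
          _ = -(q - y) + x + y := h2
          _ = x + y + y - q := by abel
      have h4 : p + q = x + y := by
        calc p + q = (p + y) - y + q := by abel
          _ = (x + y + y - q) - y + q := by rw [h3]
          _ = x + y := by abel
      exact h4.symm
  refine ⟨key v1 v2 a1 b1 a2 b2 h12, ?_⟩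
  by_contra hc
  push Not at hc
  have e1 := key v1 v2 a1 b1 a2 b2 h12
  have e2 := key v1 w a1 b1 a3 b3 (Ne.symm hc.1)
  apply hc.2
  have : v1 + w = v1 + v2 := by rw [e1, e2]
  exact add_left_cancel this

/-- three distinct cells are seen together by at most one cell -/
lemma Setup.see3 (S : Setup N F) {p q r v w : G} (hpq : p ≠ q) (hqr : q ≠ r) (hpr : p ≠ r)
    (a1 : p - v ∈ N) (b1 : q - v ∈ N) (c1 : r - v ∈ N)
    (a2 : p - w ∈ N) (b2 : q - w ∈ N) (c2 : r - w ∈ N) : v = w := by
  by_contra h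
  have e1 := (S.see2 hpq h a1 b1 a2 b2 a2 b2).1
  have e2 := (S.see2 hqr h b1 c1 b2 c2 b2 c2).1
  apply hpr
  have : q + p = q + r := by rw [← e2, e1, add_comm]
  exact add_left_cancel this

/-- a function of total zero vanishing off one cell is zero -/
lemma eq_zero_of_sum (D : G → ℤ) (hs : ∑ v, D v = 0)
    (h : ∀ v w, D v ≠ 0 → D w ≠ 0 → v = w) : D = 0 := by
  by_contra hD
  have : ∃ w, D w ≠ 0 := by
    by_contra hc
    push Not at hc
    exact hD (funext hc)
  obtain ⟨w, hw⟩ := this
  have : ∑ v, D v = D w := by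
    apply Finset.sum_eq_single w
    · intro b _ hb
      by_contra hb'
      exact hb (h b w hb' hw)
    · simp
  rw [hs] at this
  exact hw this.symm

/-- third differences vanish -/
lemma Setup.triple (S : Setup N F) {Z A B C : G → ℤ} {p q r : G}
    (hpq : p ≠ q) (hqr : q ≠ r) (hpr : p ≠ r)
    (hA : ∀ u, u ≠ p → A u = 0) (hB : ∀ u, u ≠ q → B u = 0) (hC : ∀ u, u ≠ r → C u = 0)
    (nZ : NN Z) (nA : NN A) (nB : NN B) (nC : NN C) (hcfg : IsCfg (Z + A + B + C)) :
    F (Z + A + B + C) = F (Z + A + B) + F (Z + A + C) + F (Z + B + C)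
      - F (Z + A) - F (Z + B) - F (Z + C) + F Z := by
  have cABC := hcfg
  have cAB : IsCfg (Z + A + B) := by
    apply cfg_of_le _ hcfg
    · intro v; have := nC v; simp only [Pi.add_apply]; linarith
    · intro v; have := nZ v; have := nA v; have := nB v; simp only [Pi.add_apply]; linarith
  have cAC : IsCfg (Z + A + C) := by
    apply cfg_of_le _ hcfg
    · intro v; have := nB v; simp only [Pi.add_apply]; linarith
    · intro v; have := nZ v; have := nA v; have := nC v; simp only [Pi.add_apply]; linarith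
  have cBC : IsCfg (Z + B + C) := by
    apply cfg_of_le _ hcfg
    · intro v; have := nA v; simp only [Pi.add_apply]; linarith
    · intro v; have := nZ v; have := nB v; have := nC v; simp only [Pi.add_apply]; linarith
  have cA : IsCfg (Z + A) := by
    apply cfg_of_le _ hcfg
    · intro v; have := nB v; have := nC v; simp only [Pi.add_apply]; linarith
    · intro v; have := nZ v; have := nA v; simp only [Pi.add_apply]; linarith
  have cB : IsCfg (Z + B) := by
    apply cfg_of_le _ hcfg
    · intro v; have := nA v; have := nC v; simp only [Pi.add_apply]; linarith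
    · intro v; have := nZ v; have := nB v; simp only [Pi.add_apply]; linarith
  have cC : IsCfg (Z + C) := by
    apply cfg_of_le _ hcfg
    · intro v; have := nA v; have := nB v; simp only [Pi.add_apply]; linarith
    · intro v; have := nZ v; have := nC v; simp only [Pi.add_apply]; linarith
  have cZ : IsCfg Z := by
    apply cfg_of_le nZ hcfg
    intro v; have := nA v; have := nB v; have := nC v; simp only [Pi.add_apply]; linarith
  have hD : (F (Z + A + B + C) - F (Z + A + B) - F (Z + A + C) - F (Z + B + C)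
      + F (Z + A) + F (Z + B) + F (Z + C) - F Z) = 0 := by
    apply eq_zero_of_sum
    · simp only [Pi.sub_apply, Pi.add_apply, Finset.sum_sub_distrib, Finset.sum_add_distrib]
      rw [S.mass _ cABC, S.mass _ cAB, S.mass _ cAC, S.mass _ cBC, S.mass _ cA, S.mass _ cB,
        S.mass _ cC, S.mass _ cZ]
      simp only [Pi.add_apply, Finset.sum_add_distrib]
      ring
    · have seeC : ∀ v, r - v ∉ N → (F (Z + A + B + C) - F (Z + A + B) - F (Z + A + C) -
          F (Z + B + C) + F (Z + A) + F (Z + B) + F (Z + C) - F Z) v = 0 := by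
        intro v hv
        simp only [Pi.sub_apply, Pi.add_apply]
        rw [S.loc1 hC cAB cABC hv, S.loc1 hC cA cAC hv, S.loc1 hC cB cBC hv, S.loc1 hC cZ cC hv]
        ring
      have seeB : ∀ v, q - v ∉ N → (F (Z + A + B + C) - F (Z + A + B) - F (Z + A + C) -
          F (Z + B + C) + F (Z + A) + F (Z + B) + F (Z + C) - F Z) v = 0 := by
        intro v hv
        simp only [Pi.sub_apply, Pi.add_apply]
        have e1 : Z + A + B + C = Z + A + C + B := by abel
        have e2 : Z + B + C = Z + C + B := by abel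
        have c1 : IsCfg (Z + A + C + B) := by rw [← e1]; exact cABC
        have c2 : IsCfg (Z + C + B) := by rw [← e2]; exact cBC
        rw [e1, e2, S.loc1 hB cAC c1 hv, S.loc1 hB cA cAB hv, S.loc1 hB cC c2 hv,
          S.loc1 hB cZ cB hv]
        ring
      have seeA : ∀ v, p - v ∉ N → (F (Z + A + B + C) - F (Z + A + B) - F (Z + A + C) -
          F (Z + B + C) + F (Z + A) + F (Z + B) + F (Z + C) - F Z) v = 0 := by
        intro v hv
        simp only [Pi.sub_apply, Pi.add_apply]
        have e1 : Z + A + B + C = Z + B + C + A := by abel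
        have e2 : Z + A + B = Z + B + A := by abel
        have e3 : Z + A + C = Z + C + A := by abel
        have c1 : IsCfg (Z + B + C + A) := by rw [← e1]; exact cABC
        have c2 : IsCfg (Z + B + A) := by rw [← e2]; exact cAB
        have c3 : IsCfg (Z + C + A) := by rw [← e3]; exact cAC
        rw [e1, e2, e3, S.loc1 hA cBC c1 hv, S.loc1 hA cB c2 hv, S.loc1 hA cC c3 hv,
          S.loc1 hA cZ cA hv]
        ring
      intro v w hv hw
      apply S.see3 hpq hqr hpr
      · by_contra h; exact hv (seeA v h)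
      · by_contra h; exact hv (seeB v h)
      · by_contra h; exact hv (seeC v h)
      · by_contra h; exact hw (seeA w h)
      · by_contra h; exact hw (seeB w h)
      · by_contra h; exact hw (seeC w h)
  linear_combination hD

/-- the pair lemma -/
lemma Setup.pair (S : Setup N F) {A B : G → ℤ} {p q : G} (hpq : p ≠ q)
    (hA : ∀ u, u ≠ p → A u = 0) (hB : ∀ u, u ≠ q → B u = 0)
    (nA : NN A) (nB : NN B) (hcfg : IsCfg (A + B)) :
    F (A + B) = F A + F B ∨ ∃ k : ℤ, 1 ≤ k ∧ ∃ v1 v2 : G, v1 ≠ v2 ∧ v1 + v2 = p + q ∧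
      p - v1 ∈ N ∧ q - v1 ∈ N ∧ p - v2 ∈ N ∧ q - v2 ∈ N ∧
      F (A + B) = F A + F B + (k : G → ℤ) * (dl v1 - dl v2) := by
  have cA : IsCfg A := by
    apply cfg_of_le nA hcfg
    intro v; have := nB v; simp only [Pi.add_apply]; linarith
  have cB : IsCfg B := by
    apply cfg_of_le nB hcfg
    intro v; have := nA v; simp only [Pi.add_apply]; linarith
  set D : G → ℤ := F (A + B) - F A - F B with hD
  have hsum : ∑ v, D v = 0 := by
    simp only [hD, Pi.sub_apply, Finset.sum_sub_distrib]
    rw [S.mass _ hcfg, S.mass _ cA, S.mass _ cB]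
    simp only [Pi.add_apply, Finset.sum_add_distrib]
    ring
  have sq : ∀ v, D v ≠ 0 → q - v ∈ N := by
    intro v hv
    by_contra h
    apply hv
    simp only [hD, Pi.sub_apply]
    have c0 : IsCfg (0 + B) := by simpa using cB
    have e1 := S.loc1 hB cA hcfg h
    have e2 := S.loc1 hB cfg_zero c0 h
    rw [zero_add, S.zero] at e2
    rw [e1, e2]; simp
  have sp : ∀ v, D v ≠ 0 → p - v ∈ N := by
    intro v hv
    by_contra h
    apply hv
    simp only [hD, Pi.sub_apply]
    have c0 : IsCfg (0 + A) := by simpa using cA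
    have c1 : IsCfg (B + A) := by rw [add_comm]; exact hcfg
    have e1 := S.loc1 hA cB c1 h
    have e2 := S.loc1 hA cfg_zero c0 h
    rw [zero_add, S.zero] at e2
    rw [add_comm A B, e1, e2]; simp
  by_cases hz : D = 0
  · left
    linear_combination hD.symm.trans hz
  · right
    have hpos : ∃ v1, 0 < D v1 := by
      by_contra hc
      push Not at hc
      apply hz
      have := (Finset.sum_eq_zero_iff_of_nonpos (fun v _ => hc v)).1 hsum
      funext v
      exact this v (Finset.mem_univ v)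
    have hneg : ∃ v2, D v2 < 0 := by
      by_contra hc
      push Not at hc
      apply hz
      have := (Finset.sum_eq_zero_iff_of_nonneg (fun v _ => hc v)).1 hsum
      funext v
      exact this v (Finset.mem_univ v)
    obtain ⟨v1, hv1⟩ := hpos
    obtain ⟨v2, hv2⟩ := hneg
    have h12 : v1 ≠ v2 := by
      rintro rfl
      omega
    have n1 : D v1 ≠ 0 := by omega
    have n2 : D v2 ≠ 0 := by omega
    have see := fun w (hw : D w ≠ 0) => S.see2 hpq h12 (sp _ n1) (sq _ n1) (sp _ n2) (sq _ n2)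
      (sp w hw) (sq w hw)
    have hs2 : ∑ v, D v = D v1 + D v2 := by
      rw [← Finset.sum_pair h12]
      symm
      apply Finset.sum_subset (Finset.subset_univ _)
      intro x _ hx
      by_contra hx'
      have := (see x hx').2
      simp only [Finset.mem_insert, Finset.mem_singleton] at hx
      exact hx this
    refine ⟨D v1, by omega, v1, v2, h12, (see v1 n1).1, sp _ n1, sq _ n1, sp _ n2, sq _ n2, ?_⟩
    have hDf : D = ((D v1 : ℤ) : G → ℤ) * (dl v1 - dl v2) := by
      funext x
      simp only [Pi.mul_apply, Pi.sub_apply, Pi.intCast_apply, Int.cast_id]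
      by_cases hx1 : x = v1
      · subst hx1
        rw [dl_self, dl_ne h12]; ring
      · by_cases hx2 : x = v2
        · subst hx2
          rw [dl_self, dl_ne hx1]
          linarith
        · rw [dl_ne hx1, dl_ne hx2]
          by_contra hx'
          have : D x ≠ 0 := by
            intro h0; apply hx'; rw [h0]; ring
          rcases (see x this).2 with h | h
          · exact hx1 h
          · exact hx2 h
    have := hD.symm.trans hDf
    linear_combination this

/-- no interaction at relative position `2t` -/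
lemma Setup.pair2 (S : Setup N F) {A B : G → ℤ} {p q t : G} (ht : t ∈ N) (ht0 : t ≠ 0)
    (h : p = q + t + t)
    (hA : ∀ u, u ≠ p → A u = 0) (hB : ∀ u, u ≠ q → B u = 0)
    (nA : NN A) (nB : NN B) (hcfg : IsCfg (A + B)) :
    F (A + B) = F A + F B := by
  have hpq : p ≠ q := by
    rintro rfl
    apply S.g2 t ht ht0
    have : p + (t + t) = p + 0 := by rw [add_zero, ← add_assoc]; exact h.symm
    exact add_left_cancel this
  rcases S.pair hpq hA hB nA nB hcfg with h0 | ⟨k, hk, v1, v2, h12, hs, a1, b1, a2, b2, hF⟩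
  · exact h0
  · exfalso
    have key : ∀ v, p - v ∈ N → q - v ∈ N → v = q + t := by
      intro v h1 h2
      have e : (p - v) + (-(q - v)) = t + t := by rw [h]; abel
      have ne : (p - v) + (-(q - v)) ≠ 0 := by rw [e]; exact S.g2 t ht ht0
      rcases S.g1 _ h1 _ (S.neg_mem _ h2) _ ht _ ht e ne with h' | h'
      · have := h'.1
        have h3 : v = p - t := by rw [← this]; abel
        rw [h3, h]; abel
      · have := h'.1
        have h3 : v = p - t := by rw [← this]; abel
        rw [h3, h]; abel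
    exact h12 ((key v1 a1 b1).trans (key v2 a2 b2).symm)

/-- no interaction at relative position `3t` -/
lemma Setup.pair3 (S : Setup N F) {A B : G → ℤ} {p q t : G} (ht : t ∈ N) (ht0 : t ≠ 0)
    (h : p = q + t + t + t)
    (hA : ∀ u, u ≠ p → A u = 0) (hB : ∀ u, u ≠ q → B u = 0)
    (nA : NN A) (nB : NN B) (hcfg : IsCfg (A + B)) :
    F (A + B) = F A + F B := by
  have hpq : p ≠ q := by
    rintro rfl
    apply S.g3 t ht ht0 0 S.zero_mem 0 S.zero_mem
    have : p + (t + t + t) = p + (0 + 0) := by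
      rw [add_zero, add_zero, ← add_assoc, ← add_assoc]; exact h.symm
    exact add_left_cancel this
  rcases S.pair hpq hA hB nA nB hcfg with h0 | ⟨k, hk, v1, v2, h12, hs, a1, b1, a2, b2, hF⟩
  · exact h0
  · exfalso
    apply S.g3 t ht ht0 _ a1 _ (S.neg_mem _ b1)
    rw [h]; abel

lemma dl_supp (p : G) : ∀ u, u ≠ p → dl p u = 0 := fun _ h => dl_ne h

lemma two_supp (p : G) : ∀ u, u ≠ p → (2 * dl p) u = 0 := fun _ h => by
  simp [dl_ne h]

lemma nn_dl (p : G) : NN (dl p) := dl_nonneg p

lemma nn_two (p : G) : NN (2 * dl p) := (cfg_two_dl p).nn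

lemma nn_zero : NN (0 : G → ℤ) := fun v => by simp

/-- sum of configurations with disjoint supports (one is a single cell) -/
lemma cfg_add {A B : G → ℤ} {p : G} (hA : ∀ u, u ≠ p → A u = 0) (cA : IsCfg A) (cB : IsCfg B)
    (h : B p = 0) : IsCfg (B + A) := by
  intro v
  by_cases hv : v = p
  · subst hv
    simp only [Pi.add_apply, h, zero_add]
    exact cA v
  · simp only [Pi.add_apply, hA v hv, add_zero]
    exact cB v

/-- shift operator -/
def sh (c : G) (X : G → ℤ) : G → ℤ := fun v => X (v + -c)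

lemma sh_add (c : G) (X Y : G → ℤ) : sh c (X + Y) = sh c X + sh c Y := rfl
lemma sh_two (c : G) (X : G → ℤ) : sh c (2 * X) = 2 * sh c X := rfl
lemma sh_dl (c p : G) : sh c (dl p) = dl (p + c) := by
  funext v
  simp only [sh, dl]
  congr 1
  apply propext
  constructor
  · intro h; rw [← h]; abel
  · intro h; rw [h]; abel

lemma Setup.sh (S : Setup N F) (c : G) {X Y : G → ℤ} (hX : IsCfg X) (h : F X = Y) :
    F (sh c X) = NCCA.sh c Y := by
  rw [← h]
  exact S.tr X (-c) hX

/-- support of the image of a single-cell configuration -/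
lemma Setup.see_single (S : Setup N F) {A : G → ℤ} {p v : G} (hA : ∀ u, u ≠ p → A u = 0)
    (cA : IsCfg A) (h : F A v ≠ 0) : p - v ∈ N := by
  by_contra hc
  apply h
  have c0 : IsCfg (0 + A) := by simpa using cA
  have := S.loc1 hA cfg_zero c0 hc
  rw [zero_add, S.zero] at this
  rw [this]; rfl

lemma Setup.s1 (S : Setup N F) : ∃ t ∈ N, ∀ p, F (dl p) = dl (p - t) := by
  obtain ⟨w, hw⟩ := mass_one (F (dl 0)) (fun v => (S.val _ (cfg_dl 0) v).1)
    (by rw [S.mass _ (cfg_dl 0), sum_dl])
  have hs : (0 : G) - w ∈ N := by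
    apply S.see_single (dl_supp 0) (cfg_dl 0)
    rw [hw, dl_self]; norm_num
  refine ⟨0 - w, hs, fun p => ?_⟩
  have := S.sh p (cfg_dl 0) hw
  rw [sh_dl, sh_dl, zero_add] at this
  rw [this]
  congr 1; abel

/-- interaction of two adjacent cells -/
lemma Setup.adj (S : Setup N F) {A B : G → ℤ} {p q e : G} (he : e ∈ N) (he0 : e ≠ 0)
    (h : q = p + e)
    (hA : ∀ u, u ≠ p → A u = 0) (hB : ∀ u, u ≠ q → B u = 0)
    (nA : NN A) (nB : NN B) (hcfg : IsCfg (A + B)) :
    ∃ k : ℤ, F (A + B) = F A + F B + (k : G → ℤ) * (dl p - dl q) := by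
  have hpq : p ≠ q := by
    rintro rfl
    apply he0
    have : p + e = p + 0 := by rw [add_zero]; exact h.symm
    exact add_left_cancel this
  rcases S.pair hpq hA hB nA nB hcfg with h0 | ⟨k, hk, v1, v2, h12, hs, a1, b1, a2, b2, hF⟩
  · exact ⟨0, by rw [h0]; simp⟩
  · have e1 : p - p ∈ N := by simpa using S.zero_mem
    have e2 : q - p ∈ N := by rw [h]; simpa using he
    have e3 : p - q ∈ N := by
      have := S.neg_mem _ e2
      simpa using this
    have e4 : q - q ∈ N := by simpa using S.zero_mem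
    have r1 := (S.see2 hpq hpq e1 e2 e3 e4 a1 b1).2
    have r2 := (S.see2 hpq hpq e1 e2 e3 e4 a2 b2).2
    rcases r1 with r1 | r1 <;> rcases r2 with r2 | r2
    · exact absurd (r1.trans r2.symm) h12
    · exact ⟨k, by rw [hF, r1, r2]⟩
    · refine ⟨-k, ?_⟩
      rw [hF, r1, r2]
      push_cast
      ring
    · exact absurd (r1.trans r2.symm) h12

lemma Setup.s2aux (S : Setup N F) {t : G} (ht : t ∈ N) (H1 : ∀ p, F (dl p) = dl (p - t))
    {p q : G} (hpq : p ≠ q) {k : ℤ} (hk : 1 ≤ k) {v1 v2 : G} (h12 : v1 ≠ v2)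
    (hs : v1 + v2 = p + q) (a1 : p - v1 ∈ N)
    (hF : F (dl p + dl q) = F (dl p) + F (dl q) + (k : G → ℤ) * (dl v1 - dl v2))
    (hv2 : v2 = p - t) : t = 0 ∧ F (dl p + dl q) = 2 * dl q ∧ p - q ∈ N := by
  have hcfg : IsCfg (dl p + dl q) := cfg_add (dl_supp q) (cfg_dl q) (cfg_dl p) (dl_ne' hpq)
  have hqt : v2 ≠ q - t := by
    rw [hv2]; intro h; apply hpq
    exact sub_left_inj.1 h
  have hk1 : k = 1 := by
    have h1 := (S.val _ hcfg v2).1
    rw [hF, H1, H1] at h1
    simp only [Pi.add_apply, Pi.mul_apply, Pi.sub_apply, Pi.intCast_apply, Int.cast_id] at h1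
    rw [← hv2, dl_self, dl_ne hqt, dl_ne h12.symm] at h1
    linarith
  have hv1 : v1 = q + t := by
    have : v1 + v2 = (q + t) + v2 := by rw [hs, hv2]; abel
    exact add_right_cancel this
  subst hk1
  have hF' : F (dl p + dl q) = dl (q - t) + dl (q + t) := by
    rw [hF, H1, H1, hv1, hv2]; push_cast; ring
  by_cases h0 : t = 0
  · subst h0
    refine ⟨rfl, ?_, ?_⟩
    · rw [hF', sub_zero, add_zero]; ring
    · rw [hv1, add_zero] at a1; exact a1
  · exfalso
    have hne : q + t + t ≠ q := by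
      intro h
      apply S.g2 t ht h0
      have : q + (t + t) = q + 0 := by rw [add_zero, ← add_assoc]; exact h
      exact add_left_cancel this
    have c2 : IsCfg (dl (q + t + t) + dl q) :=
      cfg_add (dl_supp q) (cfg_dl q) (cfg_dl _) (dl_ne' hne)
    have e := S.pair2 ht h0 rfl (dl_supp _) (dl_supp q) (nn_dl _) (nn_dl _) c2
    have e' : F (dl (q + t + t) + dl q) = F (dl p + dl q) := by
      rw [e, hF', H1, H1, add_sub_cancel_right]; ring
    have := S.inj _ _ c2 hcfg e'
    have := dl_inj (add_right_cancel this)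
    apply h12
    rw [hv1, hv2, ← this, add_sub_cancel_right]

lemma Setup.s2 (S : Setup N F) {t : G} (ht : t ∈ N) (H1 : ∀ p, F (dl p) = dl (p - t))
    {p q : G} (hpq : p ≠ q) :
    F (dl p + dl q) = dl (p - t) + dl (q - t) ∨ (t = 0 ∧ p - q ∈ N ∧
      (F (dl p + dl q) = 2 * dl q ∨ F (dl p + dl q) = 2 * dl p)) := by
  have hcfg : IsCfg (dl p + dl q) := cfg_add (dl_supp q) (cfg_dl q) (cfg_dl p) (dl_ne' hpq)
  rcases S.pair hpq (dl_supp p) (dl_supp q) (nn_dl p) (nn_dl q) hcfg with
    h0 | ⟨k, hk, v1, v2, h12, hs, a1, b1, a2, b2, hF⟩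
  · left; rw [h0, H1, H1]
  · right
    have hv : v2 = p - t ∨ v2 = q - t := by
      by_contra hc
      push Not at hc
      have h1 := (S.val _ hcfg v2).1
      rw [hF, H1, H1] at h1
      simp only [Pi.add_apply, Pi.mul_apply, Pi.sub_apply, Pi.intCast_apply, Int.cast_id] at h1
      rw [dl_ne hc.1, dl_ne hc.2, dl_self, dl_ne h12.symm] at h1
      linarith
    rcases hv with hv | hv
    · obtain ⟨r1, r2, r3⟩ := S.s2aux ht H1 hpq hk h12 hs a1 hF hv
      exact ⟨r1, r3, Or.inl r2⟩
    · have hF' : F (dl q + dl p) = F (dl q) + F (dl p) + (k : G → ℤ) * (dl v1 - dl v2) := by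
        rw [add_comm (dl q), hF]; ring
      obtain ⟨r1, r2, r3⟩ := S.s2aux ht H1 hpq.symm hk h12 (by rw [hs, add_comm]) b1 hF' hv
      refine ⟨r1, ?_, Or.inr ?_⟩
      · have := S.neg_mem _ r3
        simpa using this
      · rw [add_comm, r2]

end Pool.Agent.U615.NCCA
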