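import Pool.Agent.U615.NCCA

namespace Pool.Agent.U615.NCCA

open Finset

set_option linter.unusedSectionVars false

variable {G : Type*} [AddCommGroup G] [Fintype G] [DecidableEq G]
variable {N : Set G} {F : (G → ℤ) → (G → ℤ)}

/-- facts on positions -/
structure Pos (e : G) : Prop where
  h1 : e ≠ 0
  h2 : e + e ≠ 0
  h3 : e + e + e ≠ 0

lemma Setup.pos (S : Setup N F) {e : G} (he : e ∈ N) (he0 : e ≠ 0) : Pos e := by
  refine ⟨he0, S.g2 e he he0, ?_⟩
  have := S.g3 e he he0 0 S.zero_mem 0 S.zero_mem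
  simpa using this

lemma Pos.neg_ne {e : G} (P : Pos e) : -e ≠ e := by
  intro h
  apply P.h2
  nth_rewrite 1 [← h]
  abel

lemma Pos.neg_ne0 {e : G} (P : Pos e) : -e ≠ 0 := neg_ne_zero.2 P.h1

lemma Pos.neg_ne2 {e : G} (P : Pos e) : -e ≠ e + e := by
  intro h
  apply P.h3
  rw [← h]; abel

lemma Pos.e_ne2 {e : G} (P : Pos e) : e ≠ e + e := by
  intro h
  apply P.h1
  have : e + 0 = e + e := by rw [add_zero]; exact h
  exact (add_left_cancel this).symm

lemma Pos.e_ne3 {e : G} (P : Pos e) : e ≠ e + e + e := by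
  intro h
  apply P.h2
  have : e + 0 = e + (e + e) := by rw [add_zero, ← add_assoc]; exact h
  exact (add_left_cancel this).symm

lemma Pos.e2_ne3 {e : G} (P : Pos e) : e + e ≠ e + e + e := by
  intro h
  apply P.h1
  have : (e + e) + 0 = (e + e) + e := by rw [add_zero]; exact h
  exact (add_left_cancel this).symm

/-- mass-two configurations coming from a doubled cell -/
lemma Setup.two_dl (S : Setup N F) (p : G) :
    ∃ w w', F (2 * dl p) = dl w + dl w' ∧ p - w ∈ N ∧ p - w' ∈ N := by
  obtain ⟨w, w', h⟩ := mass_two (F (2 * dl p)) (fun v => (S.val _ (cfg_two_dl p) v).1)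
    (by rw [S.mass _ (cfg_two_dl p)]
        simp only [Pi.mul_apply, Pi.ofNat_apply]
        rw [← Finset.mul_sum, sum_dl]; norm_num)
  refine ⟨w, w', h, ?_, ?_⟩
  · apply S.see_single (two_supp p) (cfg_two_dl p)
    rw [h]
    simp only [Pi.add_apply, dl_self]
    have := dl_nonneg w' w
    omega
  · apply S.see_single (two_supp p) (cfg_two_dl p)
    rw [h]
    simp only [Pi.add_apply, dl_self]
    have := dl_nonneg w w'
    omega

lemma cfg11 {p q : G} (h : p ≠ q) : IsCfg (dl p + dl q) :=
  cfg_add (dl_supp q) (cfg_dl q) (cfg_dl p) (dl_ne' h)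

lemma cfg12 {p q : G} (h : p ≠ q) : IsCfg (dl p + 2 * dl q) :=
  cfg_add (two_supp q) (cfg_two_dl q) (cfg_dl p) (dl_ne' h)

lemma cfg21 {p q : G} (h : p ≠ q) : IsCfg (2 * dl p + dl q) :=
  cfg_add (dl_supp q) (cfg_dl q) (cfg_two_dl p) (by simp [dl_ne' h])

lemma cfg22 {p q : G} (h : p ≠ q) : IsCfg (2 * dl p + 2 * dl q) :=
  cfg_add (two_supp q) (cfg_two_dl q) (cfg_two_dl p) (by simp [dl_ne' h])

/-- third difference with zero background -/
lemma Setup.tri (S : Setup N F) {A B C : G → ℤ} {p q r : G}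
    (hpq : p ≠ q) (hqr : q ≠ r) (hpr : p ≠ r)
    (hA : ∀ u, u ≠ p → A u = 0) (hB : ∀ u, u ≠ q → B u = 0) (hC : ∀ u, u ≠ r → C u = 0)
    (cA : IsCfg A) (cB : IsCfg B) (cC : IsCfg C) :
    IsCfg (A + B + C) ∧ F (A + B + C) = F (A + B) + F (A + C) + F (B + C)
      - F A - F B - F C := by
  have c2 : IsCfg (A + B) := cfg_add hB cB cA (hA q hpq.symm)
  have c3 : IsCfg (A + B + C) := by
    apply cfg_add hC cC c2
    simp [hA r hpr.symm, hB r hqr.symm]
  refine ⟨c3, ?_⟩
  have c3' : IsCfg (0 + A + B + C) := by rw [zero_add]; exact c3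
  have := S.triple hpq hqr hpr hA hB hC nn_zero cA.nn cB.nn cC.nn c3'
  rw [zero_add, zero_add, zero_add, S.zero] at this
  rw [this]; ring

lemma Setup.s3 (S : Setup N F) (H1 : ∀ p, F (dl p) = dl p)
    {e : G} (he : e ∈ N) (he0 : e ≠ 0) (hE : ∀ a, F (dl a + dl (a + e)) = 2 * dl a) : False := by
  have P := S.pos he he0
  have hne : ∀ a : G, a ≠ a + e := by
    intro a h
    apply he0
    have : a + 0 = a + e := by rw [add_zero]; exact h
    exact (add_left_cancel this).symm
  -- image of 2 at 0
  have h2 : F (2 * dl 0) = dl (-e) + dl 0 ∨ F (2 * dl 0) = dl 0 + dl e := by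
    obtain ⟨w, w', h, s1, s2⟩ := S.two_dl (0 : G)
    have hw : w ≠ w' := by
      rintro rfl
      have h' : F (2 * dl 0) = F (dl w + dl (w + e)) := by
        rw [h, hE]; ring
      have := congrFun (S.inj _ _ (cfg_two_dl 0) (cfg11 (hne w)) h') w
      simp only [Pi.add_apply, Pi.mul_apply, Pi.ofNat_apply, dl_self, dl_ne (hne w)] at this
      omega
    have key : ∀ w w' : G, w ≠ w' → F (2 * dl 0) = dl w + dl w' → (0 : G) - w ∈ N →
        (0 : G) - w' ∈ N → F (dl w + dl w') = 2 * dl w →
        F (2 * dl 0) = dl (-e) + dl 0 ∨ F (2 * dl 0) = dl 0 + dl e := by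
      intro w w' hw h s1 s2 h3
      have h4 : F (dl w + dl w') = F (dl w + dl (w + e)) := by rw [h3, hE]
      have h5 := S.inj _ _ (cfg11 hw) (cfg11 (hne w)) h4
      have h6 : w' = w + e := dl_inj (add_left_cancel h5)
      subst h6
      have g := S.g1 _ s1 _ (S.neg_mem _ s2) _ he _ S.zero_mem (by abel) (by
        intro hh; apply he0; rw [← hh]; abel)
      rcases g with g | g
      · left
        have : w = -e := by rw [← g.1]; abel
        rw [h, this]; congr 2; abel
      · right
        have : w = 0 := by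
          have := g.1
          rw [zero_sub, neg_eq_zero] at this
          exact this
        rw [h, this]; congr 2; abel
    rcases S.s2 S.zero_mem (fun p => by rw [H1, sub_zero]) hw with h3 | ⟨-, -, h3 | h3⟩
    · exfalso
      have h' : F (2 * dl 0) = F (dl w + dl w') := by
        rw [h, h3, sub_zero, sub_zero]
      have := congrFun (S.inj _ _ (cfg_two_dl 0) (cfg11 hw) h') w
      simp only [Pi.add_apply, Pi.mul_apply, Pi.ofNat_apply, dl_self, dl_ne hw] at this
      omega
    · apply key w' w hw.symm (by rw [h, add_comm]) s2 s1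
      rw [add_comm, h3]
    · exact key w w' hw h s1 s2 h3
  -- common: (1,1,1) ↦ (2,1,0)
  have t111 : IsCfg (dl 0 + dl e + dl (e + e)) ∧
      F (dl 0 + dl e + dl (e + e)) = 2 * dl 0 + dl e := by
    obtain ⟨c, h⟩ := S.tri P.h1.symm P.e_ne2 P.h2.symm (dl_supp 0) (dl_supp e) (dl_supp (e + e))
      (cfg_dl _) (cfg_dl _) (cfg_dl _)
    refine ⟨c, ?_⟩
    have h02 : F (dl 0 + dl (e + e)) = dl 0 + dl (e + e) := by
      have := S.pair2 he he0 (q := 0) (by rw [zero_add]) (dl_supp (e + e)) (dl_supp 0) (nn_dl _)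
        (nn_dl _) (cfg11 P.h2)
      rw [add_comm, this, H1, H1, add_comm]
    have h01 : F (dl 0 + dl e) = 2 * dl 0 := by
      have := hE 0
      rw [zero_add] at this; exact this
    have h12 : F (dl e + dl (e + e)) = 2 * dl e := hE e
    rw [h, h01, h02, h12, H1, H1, H1]; ring
  rcases h2 with h2 | h2
  · -- case B1
    have hB : ∀ p, F (2 * dl p) = dl (p - e) + dl p := by
      intro p
      have := S.sh p (cfg_two_dl 0) h2
      simp only [sh_add, sh_two, sh_dl, zero_add] at this
      rw [this]; congr 2; abel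
    have h102 : F (dl 0 + 2 * dl (e + e)) = dl 0 + dl e + dl (e + e) := by
      have c := cfg12 P.h2.symm
      have := S.pair2 he he0 (q := 0) (by rw [zero_add]) (two_supp (e + e)) (dl_supp 0) (nn_two _)
        (nn_dl _) (by rw [add_comm]; exact c)
      rw [add_comm, this, H1, hB, add_sub_cancel_right]; ring
    have h12 : F (dl 0 + 2 * dl e) = dl 0 + 2 * dl e := by
      have c := cfg12 P.h1.symm
      obtain ⟨k, hk⟩ := S.adj he he0 (p := 0) (by rw [zero_add]) (dl_supp 0) (two_supp e)
        (nn_dl _) (nn_two _) c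
      rw [H1, hB, sub_self] at hk
      have b0 := (S.val _ c 0).2
      have b1 := (S.val _ c e).2
      rw [hk] at b0 b1
      simp only [Pi.add_apply, Pi.mul_apply, Pi.sub_apply, Pi.intCast_apply, Int.cast_id,
        dl_self, dl_ne P.h1, dl_ne P.h1.symm] at b0 b1
      have : k = 0 ∨ k = -1 := by omega
      rcases this with rfl | rfl
      · exfalso
        have h' : F (dl 0 + 2 * dl e) = F (dl 0 + dl e + dl (e + e)) := by
          rw [hk, t111.2]; push_cast; ring
        have := congrFun (S.inj _ _ c t111.1 h') (e + e)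
        simp only [Pi.add_apply, Pi.mul_apply, Pi.ofNat_apply, dl_self, dl_ne P.h2,
          dl_ne P.e_ne2.symm] at this
        omega
      · rw [hk]; push_cast; ring
    have h021 : F (2 * dl e + dl (e + e)) = dl 0 + 2 * dl (e + e) := by
      have c := cfg21 P.e_ne2
      obtain ⟨k, hk⟩ := S.adj he he0 (p := e) rfl (two_supp e) (dl_supp (e + e))
        (nn_two _) (nn_dl _) c
      rw [H1, hB, sub_self] at hk
      have b0 := (S.val _ c e).2
      have b1 := (S.val _ c (e + e)).2
      rw [hk] at b0 b1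
      simp only [Pi.add_apply, Pi.mul_apply, Pi.sub_apply, Pi.intCast_apply, Int.cast_id,
        dl_self, dl_ne P.h1, dl_ne P.h1.symm, dl_ne P.h2, dl_ne P.h2.symm, dl_ne P.e_ne2,
        dl_ne P.e_ne2.symm] at b0 b1
      have : k = 0 ∨ k = -1 ∨ k = 1 := by omega
      rcases this with rfl | rfl | rfl
      · exfalso
        have h' : F (2 * dl e + dl (e + e)) = F (dl 0 + 2 * dl (e + e)) := by
          rw [hk, h102]; push_cast; ring
        have := congrFun (S.inj _ _ c (cfg12 P.h2.symm) h') 0
        simp only [Pi.add_apply, Pi.mul_apply, Pi.ofNat_apply, dl_self, dl_ne P.h2.symm,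
          dl_ne P.h1.symm] at this
        omega
      · rw [hk]; push_cast; ring
      · exfalso
        have h' : F (2 * dl e + dl (e + e)) = F (dl 0 + 2 * dl e) := by
          rw [hk, h12]; push_cast; ring
        have := congrFun (S.inj _ _ c (cfg12 P.h1.symm) h') 0
        simp only [Pi.add_apply, Pi.mul_apply, Pi.ofNat_apply, dl_self, dl_ne P.h2.symm,
          dl_ne P.h1.symm] at this
        omega
    -- (1,0,1,1) ↦ (1,0,2,0)
    obtain ⟨c, h⟩ := S.tri P.h2.symm P.e2_ne3 P.h3.symm (dl_supp 0) (dl_supp (e + e))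
      (dl_supp (e + e + e)) (cfg_dl _) (cfg_dl _) (cfg_dl _)
    have h02 : F (dl 0 + dl (e + e)) = dl 0 + dl (e + e) := by
      have := S.pair2 he he0 (q := 0) (by rw [zero_add]) (dl_supp (e + e)) (dl_supp 0) (nn_dl _)
        (nn_dl _) (cfg11 P.h2)
      rw [add_comm, this, H1, H1, add_comm]
    have h03 : F (dl 0 + dl (e + e + e)) = dl 0 + dl (e + e + e) := by
      have := S.pair3 he he0 (q := 0) (by rw [zero_add]) (dl_supp (e + e + e)) (dl_supp 0)
        (nn_dl _) (nn_dl _) (cfg11 P.h3)
      rw [add_comm, this, H1, H1, add_comm]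
    have h23 : F (dl (e + e) + dl (e + e + e)) = 2 * dl (e + e) := hE (e + e)
    rw [h02, h03, h23, H1, H1, H1] at h
    have h' : F (dl 0 + dl (e + e) + dl (e + e + e)) = F (2 * dl e + dl (e + e)) := by
      rw [h, h021]; ring
    have := congrFun (S.inj _ _ c (cfg21 P.e_ne2) h') 0
    simp only [Pi.add_apply, Pi.mul_apply, Pi.ofNat_apply, dl_self, dl_ne P.h2.symm,
      dl_ne P.h1.symm, dl_ne P.h3.symm] at this
    omega
  · -- case B2
    have hB : ∀ p, F (2 * dl p) = dl p + dl (p + e) := by
      intro p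
      have := S.sh p (cfg_two_dl 0) h2
      simp only [sh_add, sh_two, sh_dl, zero_add] at this
      rw [this, add_comm e p]
    have h21 : F (2 * dl 0 + dl e) = dl 0 + 2 * dl e := by
      have c := cfg21 P.h1.symm
      obtain ⟨k, hk⟩ := S.adj he he0 (p := 0) (by rw [zero_add]) (two_supp 0) (dl_supp e)
        (nn_two _) (nn_dl _) c
      rw [H1, hB, zero_add] at hk
      have b0 := (S.val _ c 0).2
      have b1 := (S.val _ c e).2
      rw [hk] at b0 b1
      simp only [Pi.add_apply, Pi.mul_apply, Pi.sub_apply, Pi.intCast_apply, Int.cast_id,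
        dl_self, dl_ne P.h1, dl_ne P.h1.symm] at b0 b1
      have : k = 0 ∨ k = 1 := by omega
      rcases this with rfl | rfl
      · rw [hk]; push_cast; ring
      · exfalso
        have h' : F (2 * dl 0 + dl e) = F (dl 0 + dl e + dl (e + e)) := by
          rw [hk, t111.2]; push_cast; ring
        have := congrFun (S.inj _ _ c t111.1 h') (e + e)
        simp only [Pi.add_apply, Pi.mul_apply, Pi.ofNat_apply, dl_self, dl_ne P.h2,
          dl_ne P.e_ne2.symm] at this
        omega
    have h21' : F (2 * dl (-e) + dl 0) = dl (-e) + 2 * dl 0 := by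
      have := S.sh (-e) (cfg21 P.h1.symm) h21
      simp only [sh_add, sh_two, sh_dl, zero_add, add_neg_cancel] at this
      exact this
    have h201 : F (2 * dl (-e) + dl e) = dl (-e) + dl 0 + dl e := by
      have := S.pair2 he he0 (q := -e) (p := e) (by abel) (dl_supp e) (two_supp (-e))
        (nn_dl _) (nn_two _) (by rw [add_comm]; exact cfg21 P.neg_ne)
      rw [add_comm, this, H1, hB, neg_add_cancel]; ring
    have h11 : F (dl 0 + dl e) = 2 * dl 0 := by
      have := hE 0
      rw [zero_add] at this; exact this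
    obtain ⟨c, h⟩ := S.tri P.neg_ne0 P.h1.symm P.neg_ne (two_supp (-e)) (dl_supp 0)
      (dl_supp e) (cfg_two_dl _) (cfg_dl _) (cfg_dl _)
    rw [h21', h201, h11, hB, H1, H1, neg_add_cancel] at h
    have b := (S.val _ c 0).2
    rw [h] at b
    simp only [Pi.add_apply, Pi.sub_apply, Pi.mul_apply, Pi.ofNat_apply, dl_self,
      dl_ne P.neg_ne0.symm, dl_ne P.h1.symm] at b
    omega

/-- all two-cell 0/1 configurations are shifted -/
lemma Setup.s3' (S : Setup N F) {t : G} (ht : t ∈ N) (H1 : ∀ p, F (dl p) = dl (p - t))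
    {p q : G} (hpq : p ≠ q) : F (dl p + dl q) = dl (p - t) + dl (q - t) := by
  rcases S.s2 ht H1 hpq with h | ⟨h0, hN, h⟩
  · exact h
  · exfalso
    subst h0
    have H1' : ∀ p, F (dl p) = dl p := fun p => by rw [H1, sub_zero]
    have aux : ∀ p q : G, p ≠ q → q - p ∈ N → F (dl p + dl q) = 2 * dl p → False := by
      intro p q hpq hN h
      apply S.s3 H1' hN (sub_ne_zero.2 hpq.symm)
      intro a
      have := S.sh (a - p) (cfg11 hpq) h
      simp only [sh_add, sh_two, sh_dl] at this
      have e1 : p + (a - p) = a := by abel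
      have e2 : q + (a - p) = a + (q - p) := by abel
      rw [e1, e2] at this
      exact this
    rcases h with h | h
    · exact aux q p hpq.symm hN (by rw [add_comm, h])
    · have hN' := S.neg_mem _ hN
      rw [neg_sub] at hN'
      exact aux p q hpq hN' h

end Pool.Agent.U615.NCCA
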