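import Pool.Agent.U615.NCCB

namespace Pool.Agent.U615.NCCA

open Finset

set_option linter.unusedSectionVars false
set_option linter.unusedSimpArgs false

variable {G : Type*} [AddCommGroup G] [Fintype G] [DecidableEq G]
variable {N : Set G} {F : (G → ℤ) → (G → ℤ)}

/-- the part of `X` at the cell `p` -/
def at' (X : G → ℤ) (p : G) : G → ℤ := fun v => if v = p then X v else 0

/-- the number of nonzero cells -/
def sz (X : G → ℤ) : ℕ := (univ.filter (fun v => X v ≠ 0)).card

lemma at'_supp (X : G → ℤ) (p : G) : ∀ u, u ≠ p → at' X p u = 0 := fun u h => by simp [at', h]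

lemma at'_nn {X : G → ℤ} (hX : NN X) (p : G) : NN (at' X p) := fun v => by
  unfold at'; split_ifs
  · exact hX v
  · exact le_refl 0

/-- extension from two-cell configurations to all -/
lemma Setup.ext (S : Setup N F) (t : G) (M : ℤ) (hM : M ≤ 2)
    (h2 : ∀ X : G → ℤ, (∀ v, 0 ≤ X v ∧ X v ≤ M) → sz X ≤ 2 → F X = fun v => X (v + t)) :
    ∀ n : ℕ, ∀ X : G → ℤ, (∀ v, 0 ≤ X v ∧ X v ≤ M) → sz X ≤ n → F X = fun v => X (v + t) := by
  intro n
  induction n with
  | zero => intro X hX hs; exact h2 X hX (by omega)
  | succ n ih =>
    intro X hX hs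
    by_cases hn : sz X ≤ 2
    · exact h2 X hX hn
    · push Not at hn
      have hn' : 2 < (univ.filter (fun v => X v ≠ 0)).card := hn
      obtain ⟨p, q, r, hp, hq, hr, hpq, hpr, hqr⟩ := Finset.two_lt_card_iff.1 hn'
      simp only [Finset.mem_filter, Finset.mem_univ, true_and] at hp hq hr
      set A := at' X p with hA
      set B := at' X q with hB
      set C := at' X r with hC
      set Z := X - A - B - C with hZ
      have hXe : X = Z + A + B + C := by rw [hZ]; ring
      have nX : NN X := fun v => (hX v).1
      have vals : ∀ v, (A v = if v = p then X v else 0) ∧ (B v = if v = q then X v else 0) ∧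
        (C v = if v = r then X v else 0) ∧ (Z v = if v = p ∨ v = q ∨ v = r then 0 else X v) := by
        intro v
        refine ⟨rfl, rfl, rfl, ?_⟩
        simp only [hZ, hA, hB, hC, Pi.sub_apply, at']
        by_cases h1 : v = p
        · subst h1; simp [hpq, hpr]
        · by_cases h2 : v = q
          · subst h2; simp [h1, hqr]
          · by_cases h3 : v = r
            · subst h3; simp [h1, h2]
            · simp [h1, h2, h3]
      have nZ : NN Z := by
        intro v
        rw [(vals v).2.2.2]
        split_ifs
        · exact le_refl 0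
        · exact nX v
      have cX : IsCfg (Z + A + B + C) := by
        rw [← hXe]
        intro v
        exact ⟨(hX v).1, (hX v).2.trans hM⟩
      -- good sub-configurations
      have good : ∀ Y : G → ℤ, (∀ v, Y v = 0 ∨ Y v = X v) → (Y p = 0 ∨ Y q = 0 ∨ Y r = 0) →
          F Y = fun v => Y (v + t) := by
        intro Y hY hz
        apply ih Y
        · intro v
          rcases hY v with h | h
          · rw [h]; exact ⟨le_refl 0, (hX v).1.trans (hX v).2⟩
          · rw [h]; exact hX v
        · have : (univ.filter (fun v => Y v ≠ 0)) ⊂ (univ.filter (fun v => X v ≠ 0)) := by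
            rw [Finset.ssubset_iff_of_subset]
            · rcases hz with hz | hz | hz
              · exact ⟨p, by simp [hp], by simp [hz]⟩
              · exact ⟨q, by simp [hq], by simp [hz]⟩
              · exact ⟨r, by simp [hr], by simp [hz]⟩
            · intro v hv
              simp only [Finset.mem_filter, Finset.mem_univ, true_and] at hv ⊢
              rcases hY v with h | h
              · exact absurd h hv
              · rw [← h]; exact hv
          have := Finset.card_lt_card this
          unfold sz at hs ⊢
          omega
      have T := S.triple hpq hqr hpr (at'_supp X p) (at'_supp X q) (at'_supp X r) nZ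
        (at'_nn nX p) (at'_nn nX q) (at'_nn nX r) cX
      have gen : ∀ Y : G → ℤ, (∀ v, Y v = 0 ∨ Y v = X v) ∧ (Y p = 0 ∨ Y q = 0 ∨ Y r = 0) →
          F Y = fun v => Y (v + t) := fun Y h => good Y h.1 h.2
      have e1 : F (Z + A + B) = fun v => (Z + A + B) (v + t) := by
        apply gen
        refine ⟨fun v => ?_, ?_⟩
        · simp only [Pi.add_apply]
          obtain ⟨a1, a2, a3, a4⟩ := vals v
          rw [a1, a2, a4]
          by_cases h1 : v = p
          · subst h1; simp [hpq]
          · by_cases h2 : v = q
            · subst h2; simp [h1]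
            · by_cases h3 : v = r
              · subst h3; simp [h1, h2]
              · simp [h1, h2, h3]
        · right; right
          simp only [Pi.add_apply]
          obtain ⟨a1, a2, a3, a4⟩ := vals r
          rw [a1, a2, a4]
          simp [hpr.symm, hqr.symm]
      have e2 : F (Z + A + C) = fun v => (Z + A + C) (v + t) := by
        apply gen
        refine ⟨fun v => ?_, ?_⟩
        · simp only [Pi.add_apply]
          obtain ⟨a1, a2, a3, a4⟩ := vals v
          rw [a1, a3, a4]
          by_cases h1 : v = p
          · subst h1; simp [hpr]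
          · by_cases h2 : v = q
            · subst h2; simp [h1, hqr]
            · by_cases h3 : v = r
              · subst h3; simp [h1, h2]
              · simp [h1, h2, h3]
        · right; left
          simp only [Pi.add_apply]
          obtain ⟨a1, a2, a3, a4⟩ := vals q
          rw [a1, a3, a4]
          simp [hpq.symm, hqr]
      have e3 : F (Z + B + C) = fun v => (Z + B + C) (v + t) := by
        apply gen
        refine ⟨fun v => ?_, ?_⟩
        · simp only [Pi.add_apply]
          obtain ⟨a1, a2, a3, a4⟩ := vals v
          rw [a2, a3, a4]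
          by_cases h1 : v = p
          · subst h1; simp [hpr, hpq]
          · by_cases h2 : v = q
            · subst h2; simp [h1, hqr]
            · by_cases h3 : v = r
              · subst h3; simp [h1, h2]
              · simp [h1, h2, h3]
        · left
          simp only [Pi.add_apply]
          obtain ⟨a1, a2, a3, a4⟩ := vals p
          rw [a2, a3, a4]
          simp [hpq, hpr]
      have e4 : F (Z + A) = fun v => (Z + A) (v + t) := by
        apply gen
        refine ⟨fun v => ?_, ?_⟩
        · simp only [Pi.add_apply]
          obtain ⟨a1, a2, a3, a4⟩ := vals v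
          rw [a1, a4]
          by_cases h1 : v = p
          · subst h1; simp
          · by_cases h2 : v = q
            · subst h2; simp [h1]
            · by_cases h3 : v = r
              · subst h3; simp [h1]
              · simp [h1, h2, h3]
        · right; left
          simp only [Pi.add_apply]
          obtain ⟨a1, a2, a3, a4⟩ := vals q
          rw [a1, a4]
          simp [hpq.symm]
      have e5 : F (Z + B) = fun v => (Z + B) (v + t) := by
        apply gen
        refine ⟨fun v => ?_, ?_⟩
        · simp only [Pi.add_apply]
          obtain ⟨a1, a2, a3, a4⟩ := vals v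
          rw [a2, a4]
          by_cases h1 : v = p
          · subst h1; simp [hpq]
          · by_cases h2 : v = q
            · subst h2; simp [h1]
            · by_cases h3 : v = r
              · subst h3; simp [h1, h2]
              · simp [h1, h2, h3]
        · left
          simp only [Pi.add_apply]
          obtain ⟨a1, a2, a3, a4⟩ := vals p
          rw [a2, a4]
          simp [hpq]
      have e6 : F (Z + C) = fun v => (Z + C) (v + t) := by
        apply gen
        refine ⟨fun v => ?_, ?_⟩
        · simp only [Pi.add_apply]
          obtain ⟨a1, a2, a3, a4⟩ := vals v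
          rw [a3, a4]
          by_cases h1 : v = p
          · subst h1; simp [hpr]
          · by_cases h2 : v = q
            · subst h2; simp [h1, hqr]
            · by_cases h3 : v = r
              · subst h3; simp [h1, h2]
              · simp [h1, h2, h3]
        · left
          simp only [Pi.add_apply]
          obtain ⟨a1, a2, a3, a4⟩ := vals p
          rw [a3, a4]
          simp [hpr]
      have e7 : F Z = fun v => Z (v + t) := by
        apply gen
        refine ⟨fun v => ?_, ?_⟩
        · obtain ⟨a1, a2, a3, a4⟩ := vals v
          rw [a4]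
          split_ifs <;> simp
        · left
          obtain ⟨a1, a2, a3, a4⟩ := vals p
          rw [a4]
          simp
      rw [hXe, T, e1, e2, e3, e4, e5, e6, e7]
      funext v
      simp only [Pi.add_apply, Pi.sub_apply]
      ring

/-- a configuration with at most two nonzero cells -/
lemma sz_le_two {X : G → ℤ} (h : sz X ≤ 2) : X = 0 ∨ (∃ p, X = at' X p ∧ X p ≠ 0) ∨
    ∃ p q, p ≠ q ∧ X p ≠ 0 ∧ X q ≠ 0 ∧ X = at' X p + at' X q := by
  unfold sz at h
  rcases Nat.lt_or_ge (univ.filter (fun v => X v ≠ 0)).card 1 with h0 | h0
  · left
    have : (univ.filter (fun v => X v ≠ 0)) = ∅ := by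
      rw [← Finset.card_eq_zero]; omega
    funext v
    by_contra hv
    have : v ∈ (univ.filter (fun v => X v ≠ 0)) := by simpa using hv
    simp_all
  · rcases Nat.lt_or_ge (univ.filter (fun v => X v ≠ 0)).card 2 with h1 | h1
    · right; left
      obtain ⟨p, hp⟩ := Finset.card_eq_one.1 (show (univ.filter (fun v => X v ≠ 0)).card = 1 by omega)
      have hmem : ∀ v, X v ≠ 0 ↔ v = p := by
        intro v
        have : v ∈ (univ.filter (fun v => X v ≠ 0)) ↔ v = p := by rw [hp]; simp
        simpa using this
      refine ⟨p, ?_, (hmem p).2 rfl⟩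
      funext v
      unfold at'
      by_cases hv : v = p
      · simp [hv]
      · simp only [hv, if_false]
        by_contra hc
        exact hv ((hmem v).1 hc)
    · right; right
      obtain ⟨p, q, hpq, hp⟩ := Finset.card_eq_two.1
        (show (univ.filter (fun v => X v ≠ 0)).card = 2 by omega)
      have hmem : ∀ v, X v ≠ 0 ↔ v = p ∨ v = q := by
        intro v
        have : v ∈ (univ.filter (fun v => X v ≠ 0)) ↔ v = p ∨ v = q := by rw [hp]; simp
        simpa using this
      refine ⟨p, q, hpq, (hmem p).2 (Or.inl rfl), (hmem q).2 (Or.inr rfl), ?_⟩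
      funext v
      simp only [Pi.add_apply, at']
      by_cases hv : v = p
      · subst hv; simp [hpq]
      · by_cases hv2 : v = q
        · subst hv2; simp [hv]
        · simp only [hv, hv2, if_false, add_zero]
          by_contra hc
          rcases (hmem v).1 hc with h | h
          · exact hv h
          · exact hv2 h

lemma at'_one {X : G → ℤ} {p : G} (h : X p = 1) : at' X p = dl p := by
  funext v
  unfold at' dl
  by_cases hv : v = p
  · simp [hv, h]
  · simp [hv]

lemma at'_two {X : G → ℤ} {p : G} (h : X p = 2) : at' X p = 2 * dl p := by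
  funext v
  simp only [at', dl, Pi.mul_apply, Pi.ofNat_apply]
  by_cases hv : v = p
  · simp [hv, h]
  · simp [hv]

lemma dl_sub (p t : G) : dl (p - t) = fun v => dl p (v + t) := by
  funext v
  unfold dl
  congr 1
  apply propext
  constructor
  · intro h; rw [h]; abel
  · intro h; rw [← h]; abel

/-- all 0/1 configurations are shifted -/
lemma Setup.good1 (S : Setup N F) {t : G} (ht : t ∈ N) (H1 : ∀ p, F (dl p) = dl (p - t)) :
    ∀ X : G → ℤ, (∀ v, 0 ≤ X v ∧ X v ≤ 1) → F X = fun v => X (v + t) := by
  intro X hX
  refine S.ext t 1 (by norm_num) ?_ (sz X) X hX le_rfl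
  intro Y hY hs
  rcases sz_le_two hs with h | ⟨p, h, hp⟩ | ⟨p, q, hpq, hp, hq, h⟩
  · rw [h, S.zero]; rfl
  · have : Y p = 1 := by have := hY p; omega
    rw [at'_one this] at h
    rw [h, H1, dl_sub]
  · have h1 : Y p = 1 := by have := hY p; omega
    have h2 : Y q = 1 := by have := hY q; omega
    rw [at'_one h1, at'_one h2] at h
    rw [h, S.s3' ht H1 hpq, dl_sub, dl_sub]; rfl

/-- a configuration with a 2 has an image with a 2 -/
lemma Setup.p2 (S : Setup N F) {t : G} (ht : t ∈ N) (H1 : ∀ p, F (dl p) = dl (p - t))
    {X : G → ℤ} (hX : IsCfg X) {w : G} (hw : X w = 2) : ∃ v, F X v = 2 := by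
  by_contra hc
  push Not at hc
  have hF : ∀ v, 0 ≤ F X v ∧ F X v ≤ 1 := by
    intro v
    have := S.val X hX v
    have := hc v
    omega
  set Y : G → ℤ := fun v => F X (v + -t) with hY
  have hY1 : ∀ v, 0 ≤ Y v ∧ Y v ≤ 1 := fun v => hF _
  have hYc : IsCfg Y := fun v => ⟨(hY1 v).1, (hY1 v).2.trans (by norm_num)⟩
  have h1 := S.good1 ht H1 Y hY1
  have h2 : F Y = F X := by
    rw [h1]
    funext v
    simp only [hY, add_neg_cancel_right]
  have h3 := S.inj _ _ hYc hX h2
  have h4 := (hY1 w).2
  rw [h3, hw] at h4
  norm_num at h4

/-- images of doubled cells -/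
lemma Setup.s4 (S : Setup N F) {t : G} (ht : t ∈ N) (H1 : ∀ p, F (dl p) = dl (p - t)) :
    ∃ s ∈ N, ∀ p, F (2 * dl p) = 2 * dl (p - s) := by
  obtain ⟨w, w', h, s1, s2⟩ := S.two_dl (0 : G)
  obtain ⟨v, hv⟩ := S.p2 ht H1 (cfg_two_dl 0) (w := 0) (by simp)
  have hww : w = w' := by
    rw [h] at hv
    simp only [Pi.add_apply] at hv
    have a1 := dl_le_one w v
    have a2 := dl_le_one w' v
    have b1 : v = w := eq_of_dl_ne_zero (by omega)
    have b2 : v = w' := eq_of_dl_ne_zero (by omega)
    rw [← b1, ← b2]
  subst hww
  refine ⟨0 - w, s1, fun p => ?_⟩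
  have h' : F (2 * dl 0) = 2 * dl w := by rw [h]; ring
  have := S.sh p (cfg_two_dl 0) h'
  rw [sh_two, sh_two, sh_dl, sh_dl, zero_add] at this
  rw [this]
  congr 2; abel

end Pool.Agent.U615.NCCA
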