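import Pool.Agent.U615.NCCC

namespace Pool.Agent.U615.NCCA

open Finset

set_option linter.unusedSectionVars false
set_option linter.unusedSimpArgs false

variable {G : Type*} [AddCommGroup G] [Fintype G] [DecidableEq G]
variable {N : Set G} {F : (G → ℤ) → (G → ℤ)}

/-- case c=1 of step 5 -/
lemma Setup.s5a (S : Setup N F) {e : G} (he : e ∈ N) (he0 : e ≠ 0) (H1 : ∀ p, F (dl p) = dl p)
    (H2 : ∀ p, F (2 * dl p) = 2 * dl (p - e)) (h12 : F (dl 0 + 2 * dl e) = 2 * dl 0 + dl e) :
    False := by
  have P := S.pos he he0
  have H1' : ∀ p, F (dl p) = dl (p - 0) := fun p => by rw [H1, sub_zero]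
  have h12' : F (dl (-e) + 2 * dl 0) = 2 * dl (-e) + dl 0 := by
    have := S.sh (-e) (cfg12 P.h1.symm) h12
    simp only [sh_add, sh_two, sh_dl, zero_add, add_neg_cancel] at this
    exact this
  have h21 : F (2 * dl 0 + dl e) = 2 * dl (-e) + dl e := by
    have c := cfg21 P.h1.symm
    obtain ⟨k, hk⟩ := S.adj he he0 (p := 0) (by rw [zero_add]) (two_supp 0) (dl_supp e)
      (nn_two _) (nn_dl _) c
    rw [H1, H2, zero_sub] at hk
    have b0 := (S.val _ c 0).1
    have b1 := (S.val _ c e).1
    rw [hk] at b0 b1
    simp only [Pi.add_apply, Pi.mul_apply, Pi.sub_apply, Pi.intCast_apply, Int.cast_id,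
      Pi.ofNat_apply, dl_self, dl_ne P.h1, dl_ne P.h1.symm, dl_ne P.neg_ne0.symm,
      dl_ne P.neg_ne.symm] at b0 b1
    have : k = 0 ∨ k = 1 := by omega
    rcases this with rfl | rfl
    · rw [hk]; push_cast; ring
    · exfalso
      have h' : F (2 * dl 0 + dl e) = F (dl (-e) + 2 * dl 0) := by
        rw [hk, h12']; push_cast; ring
      have := congrFun (S.inj _ _ c (cfg12 P.neg_ne0) h') e
      simp only [Pi.add_apply, Pi.mul_apply, Pi.ofNat_apply, dl_self, dl_ne P.h1,
        dl_ne P.neg_ne.symm] at this
      omega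
  have h11 : F (dl (-e) + dl e) = dl (-e) + dl e := by
    have := S.s3' S.zero_mem H1' P.neg_ne
    rw [sub_zero, sub_zero] at this; exact this
  have h121 : IsCfg (dl (-e) + 2 * dl 0 + dl e) ∧
      F (dl (-e) + 2 * dl 0 + dl e) = 2 * dl (-e) + dl 0 + dl e := by
    obtain ⟨c, h⟩ := S.tri P.neg_ne0 P.h1.symm P.neg_ne (dl_supp (-e)) (two_supp 0)
      (dl_supp e) (cfg_dl _) (cfg_two_dl _) (cfg_dl _)
    refine ⟨c, ?_⟩
    rw [h, h12', h21, h11, H1, H1, H2, zero_sub]
    ring
  have h22 : F (2 * dl 0 + 2 * dl e) = 2 * dl (-e) + 2 * dl 0 := by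
    have c := cfg22 P.h1.symm
    obtain ⟨k, hk⟩ := S.adj he he0 (p := 0) (by rw [zero_add]) (two_supp 0) (two_supp e)
      (nn_two _) (nn_two _) c
    rw [H2, H2, zero_sub, sub_self] at hk
    have b0 := (S.val _ c 0).2
    have b1 := (S.val _ c e).2
    rw [hk] at b0 b1
    simp only [Pi.add_apply, Pi.mul_apply, Pi.sub_apply, Pi.intCast_apply, Int.cast_id,
      Pi.ofNat_apply, dl_self, dl_ne P.h1, dl_ne P.h1.symm, dl_ne P.neg_ne0.symm,
      dl_ne P.neg_ne.symm] at b0 b1
    have : k = 0 ∨ k = -1 ∨ k = -2 := by omega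
    rcases this with rfl | rfl | rfl
    · rw [hk]; push_cast; ring
    · exfalso
      have h' : F (2 * dl 0 + 2 * dl e) = F (dl (-e) + 2 * dl 0 + dl e) := by
        rw [hk, h121.2]; push_cast; ring
      have := congrFun (S.inj _ _ c h121.1 h') e
      simp only [Pi.add_apply, Pi.mul_apply, Pi.ofNat_apply, dl_self, dl_ne P.h1,
        dl_ne P.neg_ne.symm] at this
      omega
    · exfalso
      have e2 := S.pair2 he he0 (q := 0) (by rw [zero_add]) (two_supp (e + e)) (two_supp 0)
        (nn_two _) (nn_two _) (cfg22 P.h2)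
      have h' : F (2 * dl 0 + 2 * dl e) = F (2 * dl (e + e) + 2 * dl 0) := by
        rw [hk, e2, H2, H2, zero_sub, add_sub_cancel_right]; push_cast; ring
      have := congrFun (S.inj _ _ c (cfg22 P.h2) h') e
      simp only [Pi.add_apply, Pi.mul_apply, Pi.ofNat_apply, dl_self, dl_ne P.h1,
        dl_ne P.e_ne2] at this
      omega
  have h22' : F (2 * dl e + 2 * dl (e + e)) = 2 * dl 0 + 2 * dl e := by
    have := S.sh e (cfg22 P.h1.symm) h22
    simp only [sh_add, sh_two, sh_dl, zero_add, neg_add_cancel] at this
    exact this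
  have h102 : F (dl 0 + 2 * dl (e + e)) = dl 0 + 2 * dl e := by
    have := S.pair2 he he0 (q := 0) (by rw [zero_add]) (two_supp (e + e)) (dl_supp 0)
      (nn_two _) (nn_dl _) (by rw [add_comm]; exact cfg12 P.h2.symm)
    rw [add_comm, this, H1, H2, add_sub_cancel_right]; ring
  obtain ⟨c, h⟩ := S.tri P.h1.symm P.e_ne2 P.h2.symm (dl_supp 0) (two_supp e)
    (two_supp (e + e)) (cfg_dl _) (cfg_two_dl _) (cfg_two_dl _)
  rw [h12, h102, h22', H1, H2, H2, sub_self, add_sub_cancel_right] at h
  have b := (S.val _ c e).2
  rw [h] at b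
  simp only [Pi.add_apply, Pi.sub_apply, Pi.mul_apply, Pi.ofNat_apply, dl_self,
    dl_ne P.h1] at b
  omega

/-- case c=2 of step 5 -/
lemma Setup.s5b (S : Setup N F) {e : G} (he : e ∈ N) (he0 : e ≠ 0)
    (H1 : ∀ p, F (dl p) = dl (p - e))
    (H2 : ∀ p, F (2 * dl p) = 2 * dl p) (h21 : F (2 * dl 0 + dl e) = dl 0 + 2 * dl e) :
    False := by
  have P := S.pos he he0
  have h21' : F (2 * dl (-e) + dl 0) = dl (-e) + 2 * dl 0 := by
    have := S.sh (-e) (cfg21 P.h1.symm) h21
    simp only [sh_add, sh_two, sh_dl, zero_add, add_neg_cancel] at this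
    exact this
  have h11 : F (dl 0 + dl e) = dl (-e) + dl 0 := by
    have := S.s3' he H1 P.h1.symm
    rw [zero_sub, sub_self] at this; exact this
  have h201 : F (2 * dl (-e) + dl e) = 2 * dl (-e) + dl 0 := by
    have := S.pair2 he he0 (q := -e) (p := e) (by abel) (dl_supp e) (two_supp (-e))
      (nn_dl _) (nn_two _) (by rw [add_comm]; exact cfg21 P.neg_ne)
    rw [add_comm, this, H1, H2, sub_self]; ring
  obtain ⟨c, h⟩ := S.tri P.neg_ne0 P.h1.symm P.neg_ne (two_supp (-e)) (dl_supp 0)
    (dl_supp e) (cfg_two_dl _) (cfg_dl _) (cfg_dl _)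
  rw [h21', h201, h11, H1, H1, H2, zero_sub, sub_self] at h
  have b := (S.val _ c 0).2
  rw [h] at b
  simp only [Pi.add_apply, Pi.sub_apply, Pi.mul_apply, Pi.ofNat_apply, dl_self,
    dl_ne P.neg_ne0.symm] at b
  omega

/-- doubled cells are shifted like single ones -/
lemma Setup.s5 (S : Setup N F) {t : G} (ht : t ∈ N) (H1 : ∀ p, F (dl p) = dl (p - t)) :
    ∀ p, F (2 * dl p) = 2 * dl (p - t) := by
  obtain ⟨s, hs, H2⟩ := S.s4 ht H1
  by_cases hst : s = t
  · rw [hst] at H2; exact H2
  exfalso
  have hts : t ≠ s := fun h => hst h.symm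
  have c := cfg12 hts
  have base : F (dl t + 2 * dl s) = F (dl t) + F (2 * dl s) → False := by
    intro h
    have b := (S.val _ c 0).2
    rw [h, H1, H2, sub_self, sub_self] at b
    simp only [Pi.add_apply, Pi.mul_apply, Pi.ofNat_apply, dl_self] at b
    omega
  rcases S.pair hts (dl_supp t) (two_supp s) (nn_dl t) (nn_two s) c with
    h0 | ⟨k, hk, v1, v2, h12, hsum, a1, b1, a2, b2, hF⟩
  · exact base h0
  · rw [H1, H2, sub_self, sub_self] at hF
    have hv2 : v2 = 0 := by
      by_contra hc
      have b := (S.val _ c 0).2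
      rw [hF] at b
      simp only [Pi.add_apply, Pi.mul_apply, Pi.sub_apply, Pi.intCast_apply, Int.cast_id,
        Pi.ofNat_apply, dl_self, dl_ne' hc] at b
      have := dl_nonneg v1 0
      nlinarith
    subst hv2
    have hv1 : v1 = t + s := by rw [← hsum, add_zero]
    have hts0 : t + s ≠ 0 := by rw [← hv1]; exact h12
    rw [hv1] at hF
    have hk2 : k ≤ 2 := by
      have b := (S.val _ c (t + s)).2
      rw [hF] at b
      simp only [Pi.add_apply, Pi.mul_apply, Pi.sub_apply, Pi.intCast_apply, Int.cast_id,
        Pi.ofNat_apply, dl_self, dl_ne hts0] at b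
      linarith
    have : k = 1 ∨ k = 2 := by omega
    rcases this with rfl | rfl
    · have hF' : F (dl t + 2 * dl s) = 2 * dl 0 + dl (t + s) := by
        rw [hF]; push_cast; ring
      by_cases h0 : t = 0
      · subst h0
        rw [zero_add] at hF'
        exact S.s5a hs (Ne.symm hts) (fun p => by rw [H1, sub_zero]) H2 hF'
      · have hne : t + s + t ≠ s := by
          intro h
          apply S.g2 t ht h0
          have : (t + t) + s = 0 + s := by
            rw [zero_add]; nth_rewrite 2 [← h]; abel
          exact add_right_cancel this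
        have e := S.pair2 ht h0 (q := s) (p := t + s + t) (by abel) (dl_supp _) (two_supp s)
          (nn_dl _) (nn_two _) (cfg12 hne)
        have h' : F (dl (t + s + t) + 2 * dl s) = F (dl t + 2 * dl s) := by
          rw [e, hF', H1, H2, sub_self, add_sub_cancel_right]; ring
        have h3 := S.inj _ _ (cfg12 hne) c h'
        have h4 := dl_inj (add_right_cancel h3)
        apply hts0
        have : (t + s) + t = 0 + t := by rw [zero_add]; exact h4
        exact add_right_cancel this
    · have hF' : F (dl t + 2 * dl s) = dl 0 + 2 * dl (t + s) := by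
        rw [hF]; push_cast; ring
      by_cases h0 : s = 0
      · subst h0
        rw [add_zero] at hF'
        refine S.s5b ht hts H1 (fun p => by rw [H2, sub_zero]) ?_
        rw [add_comm, hF']
      · have hne : t + s + s ≠ t := by
          intro h
          apply S.g2 s hs h0
          have : t + (s + s) = t + 0 := by
            rw [add_zero, ← add_assoc]; exact h
          exact add_left_cancel this
        have e := S.pair2 hs h0 (q := t) (p := t + s + s) rfl (two_supp _) (dl_supp t)
          (nn_two _) (nn_dl _) (by rw [add_comm]; exact cfg12 hne.symm)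
        have h' : F (2 * dl (t + s + s) + dl t) = F (dl t + 2 * dl s) := by
          rw [e, hF', H1, H2, sub_self, add_sub_cancel_right]; ring
        have h3 := S.inj _ _ (by rw [add_comm]; exact cfg12 hne.symm) c h'
        have h4 := congrFun h3 s
        simp only [Pi.add_apply, Pi.mul_apply, Pi.ofNat_apply, dl_self, dl_ne hst] at h4
        have h5 : dl (t + s + s) s ≠ 0 := by omega
        have h6 := eq_of_dl_ne_zero h5
        apply hts0
        have : (t + s) + s = 0 + s := by rw [zero_add]; exact h6.symm
        exact add_right_cancel this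

/-- pairs (1,2) -/
lemma Setup.s6 (S : Setup N F) {t : G} (ht : t ∈ N) (H1 : ∀ p, F (dl p) = dl (p - t))
    {p q : G} (hpq : p ≠ q) : F (dl p + 2 * dl q) = dl (p - t) + 2 * dl (q - t) := by
  have H2 := S.s5 ht H1
  have c := cfg12 hpq
  rcases S.pair hpq (dl_supp p) (two_supp q) (nn_dl p) (nn_two q) c with
    h0 | ⟨k, hk, v1, v2, h12, hsum, a1, b1, a2, b2, hF⟩
  · rw [h0, H1, H2]
  · exfalso
    rw [H1, H2] at hF
    have hne : p - t ≠ q - t := fun h => hpq (sub_left_inj.1 h)
    have hv : v2 = p - t ∨ v2 = q - t := by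
      by_contra hc
      push Not at hc
      have h1 := (S.val _ c v2).1
      rw [hF] at h1
      simp only [Pi.add_apply, Pi.mul_apply, Pi.sub_apply, Pi.intCast_apply, Int.cast_id,
        Pi.ofNat_apply, dl_ne hc.1, dl_ne hc.2, dl_self, dl_ne h12.symm] at h1
      linarith
    rcases hv with hv | hv
    · have hv1 : v1 = q + t := by
        have : v1 + v2 = (q + t) + v2 := by rw [hsum, hv]; abel
        exact add_right_cancel this
      have hk1 : k = 1 := by
        have h1 := (S.val _ c v2).1
        have hvq : v2 ≠ q - t := by rw [hv]; exact hne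
        rw [hF] at h1
        simp only [Pi.add_apply, Pi.mul_apply, Pi.sub_apply, Pi.intCast_apply, Int.cast_id,
          Pi.ofNat_apply] at h1
        rw [← hv, dl_self, dl_ne hvq, dl_ne h12.symm] at h1
        linarith
      subst hk1
      have hF' : F (dl p + 2 * dl q) = 2 * dl (q - t) + dl (q + t) := by
        rw [hF, hv1, hv]; push_cast; ring
      by_cases h0 : t = 0
      · subst h0
        have b := (S.val _ c q).2
        rw [hF'] at b
        simp only [Pi.add_apply, Pi.mul_apply, Pi.ofNat_apply, sub_zero, add_zero, dl_self] at b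
        omega
      · have hne2 : q + t + t ≠ q := by
          intro h
          apply S.g2 t ht h0
          have : q + (t + t) = q + 0 := by rw [add_zero, ← add_assoc]; exact h
          exact add_left_cancel this
        have e := S.pair2 ht h0 (q := q) (p := q + t + t) rfl (dl_supp _) (two_supp q)
          (nn_dl _) (nn_two _) (cfg12 hne2)
        have h' : F (dl (q + t + t) + 2 * dl q) = F (dl p + 2 * dl q) := by
          rw [e, hF', H1, H2, add_sub_cancel_right]; ring
        have h3 := S.inj _ _ (cfg12 hne2) c h'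
        have h4 := dl_inj (add_right_cancel h3)
        apply h12
        rw [hv1, hv, ← h4, add_sub_cancel_right]
    · have hv1 : v1 = p + t := by
        have : v1 + v2 = (p + t) + v2 := by rw [hsum, hv]; abel
        exact add_right_cancel this
      have hk2 : k ≤ 2 := by
        have h1 := (S.val _ c v2).1
        have hvq : v2 ≠ p - t := by rw [hv]; exact hne.symm
        rw [hF] at h1
        simp only [Pi.add_apply, Pi.mul_apply, Pi.sub_apply, Pi.intCast_apply, Int.cast_id,
          Pi.ofNat_apply] at h1
        rw [← hv, dl_self, dl_ne hvq, dl_ne h12.symm] at h1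
        linarith
      have h2 : k = 1 ∨ k = 2 := by omega
      by_cases h0 : t = 0
      · subst h0
        rw [add_zero] at hv1
        rw [sub_zero] at hv
        subst hv1; subst hv
        rw [sub_zero, sub_zero] at hF
        rcases h2 with rfl | rfl
        · -- swap
          have hN : v2 - v1 ∈ N := b1
          have he0 : v2 - v1 ≠ 0 := sub_ne_zero.2 hpq.symm
          set e := v2 - v1 with he
          have P := S.pos hN he0
          have H1' : ∀ p, F (dl p) = dl p := fun p => by rw [H1, sub_zero]
          have H2' : ∀ p, F (2 * dl p) = 2 * dl p := fun p => by rw [H2, sub_zero]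
          have g12 : F (dl 0 + 2 * dl e) = 2 * dl 0 + dl e := by
            have h' : F (dl v1 + 2 * dl v2) = 2 * dl v1 + dl v2 := by
              rw [hF]; push_cast; ring
            have := S.sh (-v1) c h'
            simp only [sh_add, sh_two, sh_dl, add_neg_cancel] at this
            rw [← sub_eq_add_neg] at this
            exact this
          have g12' : F (dl (-e) + 2 * dl 0) = 2 * dl (-e) + dl 0 := by
            have := S.sh (-e) (cfg12 P.h1.symm) g12
            simp only [sh_add, sh_two, sh_dl, zero_add, add_neg_cancel] at this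
            exact this
          have g21 : F (2 * dl 0 + dl e) = dl 0 + 2 * dl e := by
            have c' := cfg21 P.h1.symm
            obtain ⟨k, hk⟩ := S.adj hN he0 (p := 0) (by rw [zero_add]) (two_supp 0)
              (dl_supp e) (nn_two _) (nn_dl _) c'
            rw [H1', H2'] at hk
            have b0 := (S.val _ c' 0).2
            have b1 := (S.val _ c' e).2
            rw [hk] at b0 b1
            simp only [Pi.add_apply, Pi.mul_apply, Pi.sub_apply, Pi.intCast_apply, Int.cast_id,
              Pi.ofNat_apply, dl_self, dl_ne P.h1, dl_ne P.h1.symm] at b0 b1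
            have : k = 0 ∨ k = -1 := by omega
            rcases this with rfl | rfl
            · exfalso
              have h' : F (2 * dl 0 + dl e) = F (dl 0 + 2 * dl e) := by
                rw [hk, g12]; push_cast; ring
              have := congrFun (S.inj _ _ c' (cfg12 P.h1.symm) h') e
              simp only [Pi.add_apply, Pi.mul_apply, Pi.ofNat_apply, dl_self, dl_ne P.h1] at this
              omega
            · rw [hk]; push_cast; ring
          have h11 : F (dl (-e) + dl e) = dl (-e) + dl e := by
            have := S.s3' S.zero_mem H1 P.neg_ne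
            rw [sub_zero, sub_zero] at this; exact this
          obtain ⟨c3, h⟩ := S.tri P.neg_ne0 P.h1.symm P.neg_ne (dl_supp (-e)) (two_supp 0)
            (dl_supp e) (cfg_dl _) (cfg_two_dl _) (cfg_dl _)
          rw [g12', g21, h11, H1', H1', H2'] at h
          have e2 := S.pair2 hN he0 (q := -e) (p := e) (by abel) (two_supp e) (two_supp (-e))
            (nn_two _) (nn_two _) (cfg22 P.neg_ne.symm)
          have h' : F (dl (-e) + 2 * dl 0 + dl e) = F (2 * dl e + 2 * dl (-e)) := by
            rw [h, e2, H2', H2']; ring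
          have := congrFun (S.inj _ _ c3 (cfg22 P.neg_ne.symm) h') 0
          simp only [Pi.add_apply, Pi.mul_apply, Pi.ofNat_apply, dl_self,
            dl_ne P.neg_ne0.symm, dl_ne P.h1.symm] at this
          omega
        · have b := (S.val _ c v1).2
          rw [hF] at b
          simp only [Pi.add_apply, Pi.mul_apply, Pi.sub_apply, Pi.intCast_apply, Int.cast_id,
            Pi.ofNat_apply, dl_self, dl_ne hpq] at b
          omega
      · have hptne : p + t ≠ p - t := by
          intro h
          apply S.g2 t ht h0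
          have : (t + t) + (p - t) = 0 + (p - t) := by
            rw [zero_add]; nth_rewrite 2 [← h]; abel
          exact add_right_cancel this
        rcases h2 with rfl | rfl
        · obtain ⟨v, hv'⟩ := S.p2 ht H1 c (w := q) (by
            simp [dl_ne' hpq])
          have hF' : F (dl p + 2 * dl q) = dl (p - t) + dl (q - t) + dl (p + t) := by
            rw [hF, hv1, hv]; push_cast; ring
          rw [hF'] at hv'
          simp only [Pi.add_apply] at hv'
          have hqt : p + t ≠ q - t := by rw [← hv1, ← hv]; exact h12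
          by_cases x1 : v = p - t
          · rw [x1, dl_self, dl_ne hne, dl_ne hptne.symm] at hv'
            omega
          · by_cases x2 : v = q - t
            · rw [x2, dl_self, dl_ne hne.symm, dl_ne hqt.symm] at hv'
              omega
            · rw [dl_ne x1, dl_ne x2] at hv'
              have := dl_le_one (p + t) v
              omega
        · have hF' : F (dl p + 2 * dl q) = dl (p - t) + 2 * dl (p + t) := by
            rw [hF, hv1, hv]; push_cast; ring
          have hne2 : p + t + t ≠ p := by
            intro h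
            apply S.g2 t ht h0
            have : p + (t + t) = p + 0 := by rw [add_zero, ← add_assoc]; exact h
            exact add_left_cancel this
          have e := S.pair2 ht h0 (q := p) (p := p + t + t) rfl (two_supp _) (dl_supp p)
            (nn_two _) (nn_dl _) (cfg21 hne2)
          have h' : F (2 * dl (p + t + t) + dl p) = F (dl p + 2 * dl q) := by
            rw [e, hF', H1, H2, add_sub_cancel_right]; ring
          have h3 := S.inj _ _ (cfg21 hne2) c h'
          have h4 := congrFun h3 q
          simp only [Pi.add_apply, Pi.mul_apply, Pi.ofNat_apply, dl_self, dl_ne hpq.symm] at h4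
          have h5 : dl (p + t + t) q ≠ 0 := by omega
          have h6 := eq_of_dl_ne_zero h5
          apply h12
          rw [hv1, hv, h6, add_sub_cancel_right]

/-- pairs (2,2), the ordered part -/
lemma Setup.s7aux (S : Setup N F) {t : G} (ht : t ∈ N) (H1 : ∀ p, F (dl p) = dl (p - t))
    {p q : G} (hpq : p ≠ q) {k : ℤ} (hk : 1 ≤ k) {v1 v2 : G} (h12 : v1 ≠ v2)
    (hsum : v1 + v2 = p + q)
    (hF : F (2 * dl p + 2 * dl q) = F (2 * dl p) + F (2 * dl q) + (k : G → ℤ) * (dl v1 - dl v2))
    (hv : v2 = p - t) : False := by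
  have H2 := S.s5 ht H1
  have c := cfg22 hpq
  rw [H2, H2] at hF
  have hne : p - t ≠ q - t := fun h => hpq (sub_left_inj.1 h)
  have hv1 : v1 = q + t := by
    have : v1 + v2 = (q + t) + v2 := by rw [hsum, hv]; abel
    exact add_right_cancel this
  have hk2 : k ≤ 2 := by
    have h1 := (S.val _ c v2).1
    have hvq : v2 ≠ q - t := by rw [hv]; exact hne
    rw [hF] at h1
    simp only [Pi.add_apply, Pi.mul_apply, Pi.sub_apply, Pi.intCast_apply, Int.cast_id,
      Pi.ofNat_apply] at h1
    rw [← hv, dl_self, dl_ne hvq, dl_ne h12.symm] at h1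
    linarith
  by_cases h0 : t = 0
  · subst h0
    have b := (S.val _ c q).2
    rw [hF, hv1, hv] at b
    simp only [Pi.add_apply, Pi.mul_apply, Pi.sub_apply, Pi.intCast_apply, Int.cast_id,
      Pi.ofNat_apply, sub_zero, add_zero, dl_self, dl_ne hpq.symm] at b
    omega
  · have hne2 : q + t + t ≠ q := by
      intro h
      apply S.g2 t ht h0
      have : q + (t + t) = q + 0 := by rw [add_zero, ← add_assoc]; exact h
      exact add_left_cancel this
    have h2 : k = 1 ∨ k = 2 := by omega
    rcases h2 with rfl | rfl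
    · -- k = 1 : three cells
      have hpq2 : p ≠ q + t + t := by
        intro h
        apply h12
        rw [hv1, hv, h, add_sub_cancel_right]
      obtain ⟨c3, h⟩ := S.tri hpq2 hne2 hpq (dl_supp p) (dl_supp (q + t + t)) (two_supp q)
        (cfg_dl _) (cfg_dl _) (cfg_two_dl _)
      rw [S.s3' ht H1 hpq2, S.s6 ht H1 hpq, S.s6 ht H1 hne2, H1, H1, H2,
        add_sub_cancel_right] at h
      have h' : F (2 * dl p + 2 * dl q) = F (dl p + dl (q + t + t) + 2 * dl q) := by
        rw [hF, h, hv1, hv]; push_cast; ring
      have h3 := congrFun (S.inj _ _ c c3 h') p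
      simp only [Pi.add_apply, Pi.mul_apply, Pi.ofNat_apply, dl_self, dl_ne hpq,
        dl_ne hpq2] at h3
      omega
    · have e := S.pair2 ht h0 (q := q) (p := q + t + t) rfl (two_supp _) (two_supp q)
        (nn_two _) (nn_two _) (cfg22 hne2)
      have h' : F (2 * dl (q + t + t) + 2 * dl q) = F (2 * dl p + 2 * dl q) := by
        rw [e, hF, H2, H2, add_sub_cancel_right, hv1, hv]; push_cast; ring
      have h3 := S.inj _ _ (cfg22 hne2) c h'
      have h4 := congrFun h3 p
      simp only [Pi.add_apply, Pi.mul_apply, Pi.ofNat_apply, dl_self, dl_ne hpq] at h4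
      have h5 : dl (q + t + t) p ≠ 0 := by omega
      have h6 := eq_of_dl_ne_zero h5
      apply h12
      rw [hv1, hv, h6, add_sub_cancel_right]

lemma Setup.s7 (S : Setup N F) {t : G} (ht : t ∈ N) (H1 : ∀ p, F (dl p) = dl (p - t))
    {p q : G} (hpq : p ≠ q) : F (2 * dl p + 2 * dl q) = 2 * dl (p - t) + 2 * dl (q - t) := by
  have H2 := S.s5 ht H1
  have c := cfg22 hpq
  rcases S.pair hpq (two_supp p) (two_supp q) (nn_two p) (nn_two q) c with
    h0 | ⟨k, hk, v1, v2, h12, hsum, a1, b1, a2, b2, hF⟩
  · rw [h0, H2, H2]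
  · exfalso
    have hv : v2 = p - t ∨ v2 = q - t := by
      by_contra hc
      push Not at hc
      have h1 := (S.val _ c v2).1
      rw [hF, H2, H2] at h1
      simp only [Pi.add_apply, Pi.mul_apply, Pi.sub_apply, Pi.intCast_apply, Int.cast_id,
        Pi.ofNat_apply, dl_ne hc.1, dl_ne hc.2, dl_self, dl_ne h12.symm] at h1
      linarith
    rcases hv with hv | hv
    · exact S.s7aux ht H1 hpq hk h12 hsum hF hv
    · have hF' : F (2 * dl q + 2 * dl p) = F (2 * dl q) + F (2 * dl p)
          + (k : G → ℤ) * (dl v1 - dl v2) := by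
        rw [add_comm (2 * dl q), hF]; ring
      exact S.s7aux ht H1 hpq.symm hk h12 (by rw [hsum, add_comm]) hF' hv

/-- the core theorem -/
theorem Setup.main (S : Setup N F) :
    ∃ t ∈ N, ∀ X : G → ℤ, IsCfg X → F X = fun v => X (v + t) := by
  obtain ⟨t, ht, H1⟩ := S.s1
  refine ⟨t, ht, fun X hX => ?_⟩
  have H2 := S.s5 ht H1
  refine S.ext t 2 le_rfl ?_ (sz X) X hX le_rfl
  intro Y hY hs
  have v12 : ∀ p, Y p ≠ 0 → Y p = 1 ∨ Y p = 2 := by
    intro p hp
    have := hY p; omega
  rcases sz_le_two hs with h | ⟨p, h, hp⟩ | ⟨p, q, hpq, hp, hq, h⟩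
  · rw [h, S.zero]; rfl
  · rcases v12 p hp with h1 | h1
    · rw [at'_one h1] at h
      rw [h, H1, dl_sub]
    · rw [at'_two h1] at h
      rw [h, H2, dl_sub]; rfl
  · rcases v12 p hp with h1 | h1 <;> rcases v12 q hq with h2 | h2
    · rw [at'_one h1, at'_one h2] at h
      rw [h, S.s3' ht H1 hpq, dl_sub, dl_sub]; rfl
    · rw [at'_one h1, at'_two h2] at h
      rw [h, S.s6 ht H1 hpq, dl_sub, dl_sub]; rfl
    · rw [at'_two h1, at'_one h2, add_comm] at h
      rw [h, S.s6 ht H1 hpq.symm, dl_sub, dl_sub]; rfl
    · rw [at'_two h1, at'_two h2] at h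
      rw [h, S.s7 ht H1 hpq, dl_sub, dl_sub]; rfl

end Pool.Agent.U615.NCCA
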