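import Mathlib

/-!
# Sampling along almost every arithmetic progression, I: the variance
-/

set_option autoImplicit false

open MeasureTheory Set Filter intervalIntegral

namespace Pool.Agent.U615.Smp

/-- `g` is continuous and vanishes outside of `(0, L)` -/
structure Spt (g : ℝ → ℝ) (L : ℝ) : Prop where
  cont : Continuous g
  left : ∀ t, t ≤ 0 → g t = 0
  right : ∀ t, L ≤ t → g t = 0

/-- the correlation -/
noncomputable def cor (g : ℝ → ℝ) (L u : ℝ) : ℝ := ∫ t in (0:ℝ)..L, g t * g (t + u)

/-- the periodization -/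
noncomputable def per (N : ℕ) (g : ℝ → ℝ) (α γ : ℝ) : ℝ := ∑ n ∈ Finset.range N, g (α * n + γ)

lemma int_eq_of_zero {F : ℝ → ℝ} (hF : Continuous F) {a b : ℝ} (ha : ∀ t, a ≤ t → F t = 0)
    (hb : ∀ t, b ≤ t → F t = 0) : ∫ t in (0:ℝ)..a, F t = ∫ t in (0:ℝ)..b, F t := by
  have h1 : ∫ t in a..b, F t = 0 := by
    apply intervalIntegral.integral_zero_ae
    refine Eventually.of_forall fun t ht => ?_
    rcases le_total a b with h | h
    · rw [uIoc_of_le h] at ht
      exact ha t ht.1.le
    · rw [uIoc_of_ge h] at ht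
      exact hb t ht.1.le
  rw [← integral_add_adjacent_intervals (hF.intervalIntegrable 0 a) (hF.intervalIntegrable a b), h1,
    add_zero]

lemma sum_shift {F : ℝ → ℝ} (hF : Continuous F) (α : ℝ) (K : ℕ) :
    ∑ n ∈ Finset.range K, ∫ γ in (0:ℝ)..α, F (α * n + γ) = ∫ t in (0:ℝ)..(α * K), F t := by
  have h1 : ∀ n ∈ Finset.range K, ∫ γ in (0:ℝ)..α, F (α * n + γ) =
      ∫ t in (α * (n : ℕ) : ℝ)..(α * ((n + 1 : ℕ) : ℝ)), F t := by
    intro n _
    rw [intervalIntegral.integral_comp_add_left (fun t => F t)]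
    congr 1
    · ring
    · push_cast; ring
  rw [Finset.sum_congr rfl h1,
    intervalIntegral.sum_integral_adjacent_intervals (a := fun n : ℕ => (α * n : ℝ))
      (fun k _ => hF.intervalIntegrable _ _)]
  simp

lemma sq_sum (a : ℕ → ℝ) (N : ℕ) : (∑ n ∈ Finset.range N, a n) ^ 2 =
    ∑ n ∈ Finset.range N, a n * a n +
      2 * ∑ j ∈ Finset.range N, ∑ n ∈ Finset.range (N - 1 - j), a n * a (n + (j + 1)) := by
  induction N with
  | zero => simp
  | succ N ih =>
    have h1 : ∑ j ∈ Finset.range (N + 1), ∑ n ∈ Finset.range (N + 1 - 1 - j), a n * a (n + (j + 1)) =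
        ∑ j ∈ Finset.range N, ∑ n ∈ Finset.range (N - 1 - j), a n * a (n + (j + 1)) +
        a N * ∑ n ∈ Finset.range N, a n := by
      rw [Finset.sum_range_succ]
      have h2 : ∑ n ∈ Finset.range (N + 1 - 1 - N), a n * a (n + (N + 1)) = 0 := by simp
      rw [h2, add_zero, ← Finset.sum_range_reflect a N, Finset.mul_sum, ← Finset.sum_add_distrib]
      refine Finset.sum_congr rfl fun j hj => ?_
      rw [Finset.mem_range] at hj
      have e1 : N + 1 - 1 - j = (N - 1 - j) + 1 := by omega
      rw [e1, Finset.sum_range_succ]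
      have e2 : N - 1 - j + (j + 1) = N := by omega
      rw [e2]
      ring
    rw [h1, Finset.sum_range_succ, Finset.sum_range_succ, add_sq, ih]
    ring

section

variable {g : ℝ → ℝ} {L : ℝ}

lemma Spt.corFun_cont (h : Spt g L) (u : ℝ) : Continuous fun t => g t * g (t + u) := by
  have := h.cont
  fun_prop

/-- the mean of the periodization -/
lemma Spt.mean (h : Spt g L) {α : ℝ} {N : ℕ} (hN : L ≤ α * N) :
    ∫ γ in (0:ℝ)..α, per N g α γ = ∫ t in (0:ℝ)..L, g t := by
  have hc := h.cont
  unfold per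
  rw [intervalIntegral.integral_finsetSum fun n _ => (by
    have : Continuous fun γ => g (α * n + γ) := by fun_prop
    exact this.intervalIntegrable _ _), sum_shift hc]
  exact int_eq_of_zero hc (fun t ht => h.right t (hN.trans ht)) h.right

/-- the mean square of the periodization -/
lemma Spt.mean_sq (h : Spt g L) {α : ℝ} {N : ℕ} (hN : L ≤ α * N) :
    ∫ γ in (0:ℝ)..α, per N g α γ ^ 2 =
      cor g L 0 + 2 * ∑ j ∈ Finset.range N, cor g L (α * ((j : ℝ) + 1)) := by
  have hc := h.cont
  have hi : ∀ j n : ℕ, IntervalIntegrable (fun γ : ℝ => g (α * n + γ) * g (α * n + γ + α * ((j : ℝ) + 1)))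
      volume 0 α := fun j n => by
    have : Continuous fun γ : ℝ => g (α * n + γ) * g (α * n + γ + α * ((j : ℝ) + 1)) := by fun_prop
    exact this.intervalIntegrable _ _
  have hi0 : ∀ n : ℕ, IntervalIntegrable (fun γ : ℝ => g (α * n + γ) * g (α * n + γ + 0))
      volume 0 α := fun n => by
    have : Continuous fun γ : ℝ => g (α * n + γ) * g (α * n + γ + 0) := by fun_prop
    exact this.intervalIntegrable _ _
  have e1 : ∀ γ : ℝ, per N g α γ ^ 2 = ∑ n ∈ Finset.range N, g (α * n + γ) * g (α * n + γ + 0) +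
      2 * ∑ j ∈ Finset.range N, ∑ n ∈ Finset.range (N - 1 - j),
        g (α * n + γ) * g (α * n + γ + α * ((j : ℝ) + 1)) := by
    intro γ
    unfold per
    rw [sq_sum]
    congr 1
    · refine Finset.sum_congr rfl fun n _ => ?_
      rw [add_zero]
    · congr 1
      refine Finset.sum_congr rfl fun j _ => Finset.sum_congr rfl fun n _ => ?_
      congr 2
      push_cast; ring
  rw [intervalIntegral.integral_congr (fun γ _ => e1 γ)]
  rw [intervalIntegral.integral_add, intervalIntegral.integral_const_mul,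
    intervalIntegral.integral_finsetSum fun n _ => hi0 n,
    intervalIntegral.integral_finsetSum]
  · congr 1
    · rw [sum_shift (F := fun t => g t * g (t + 0)) (h.corFun_cont 0)]
      unfold cor
      refine int_eq_of_zero (h.corFun_cont 0) (fun t ht => ?_) fun t ht => ?_
      · rw [h.right t (hN.trans ht), zero_mul]
      · rw [h.right t ht, zero_mul]
    · congr 1
      refine Finset.sum_congr rfl fun j hj => ?_
      rw [Finset.mem_range] at hj
      rw [intervalIntegral.integral_finsetSum fun n _ => hi j n,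
        sum_shift (F := fun t => g t * g (t + α * ((j : ℝ) + 1))) (h.corFun_cont _)]
      unfold cor
      refine int_eq_of_zero (h.corFun_cont _) (fun t ht => ?_) fun t ht => ?_
      · rw [h.right (t + α * ((j : ℝ) + 1)), mul_zero]
        refine hN.trans ?_
        have e2 : ((N - 1 - j : ℕ) : ℝ) = (N : ℝ) - 1 - j := by
          rw [Nat.cast_sub (by omega), Nat.cast_sub (by omega)]
          push_cast; ring
        rw [e2] at ht
        nlinarith
      · rw [h.right t ht, zero_mul]
  · intro j _
    have : Continuous fun γ : ℝ => ∑ n ∈ Finset.range (N - 1 - j),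
        g (α * n + γ) * g (α * n + γ + α * ((j : ℝ) + 1)) := by fun_prop
    exact this.intervalIntegrable _ _
  · have : Continuous fun γ : ℝ => ∑ n ∈ Finset.range N, g (α * n + γ) * g (α * n + γ + 0) := by
      fun_prop
    exact this.intervalIntegrable _ _
  · have : Continuous fun γ : ℝ => 2 * ∑ j ∈ Finset.range N, ∑ n ∈ Finset.range (N - 1 - j),
        g (α * n + γ) * g (α * n + γ + α * ((j : ℝ) + 1)) := by fun_prop
    exact this.intervalIntegrable _ _

/-- the variance -/
noncomputable def var (N : ℕ) (g : ℝ → ℝ) (L α : ℝ) : ℝ :=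
  cor g L 0 + 2 * ∑ j ∈ Finset.range N, cor g L (α * ((j : ℝ) + 1)) -
    (∫ t in (0:ℝ)..L, g t) ^ 2 / α

lemma per_cont (hc : Continuous g) (N : ℕ) (α : ℝ) : Continuous fun γ => per N g α γ := by
  unfold per
  fun_prop

lemma Spt.var_eq (h : Spt g L) {α : ℝ} (hα : 0 < α) {N : ℕ} (hN : L ≤ α * N) :
    ∫ γ in (0:ℝ)..α, (per N g α γ - (∫ t in (0:ℝ)..L, g t) / α) ^ 2 = var N g L α := by
  have hp := per_cont h.cont N α
  set m := ∫ t in (0:ℝ)..L, g t with hm
  have e1 : ∀ γ : ℝ, (per N g α γ - m / α) ^ 2 =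
      per N g α γ ^ 2 - 2 * (m / α) * per N g α γ + (m / α) ^ 2 := fun γ => by ring
  rw [intervalIntegral.integral_congr (fun γ _ => e1 γ), intervalIntegral.integral_add,
    intervalIntegral.integral_sub, intervalIntegral.integral_const_mul, h.mean hN, h.mean_sq hN,
    intervalIntegral.integral_const]
  · unfold var
    rw [← hm]
    simp only [sub_zero, smul_eq_mul]
    field_simp
    ring
  · exact (hp.pow 2).intervalIntegrable _ _
  · exact (hp.const_mul _).intervalIntegrable _ _
  · exact ((hp.pow 2).sub (hp.const_mul _)).intervalIntegrable _ _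
  · exact _root_.intervalIntegrable_const

lemma Spt.var_nonneg (h : Spt g L) {α : ℝ} (hα : 0 < α) {N : ℕ} (hN : L ≤ α * N) :
    0 ≤ var N g L α := by
  rw [← h.var_eq hα hN]
  exact intervalIntegral.integral_nonneg hα.le fun γ _ => sq_nonneg _

end

end Pool.Agent.U615.Smp
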