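import Pool.Agent.U615.SA

/-!
# Sampling along almost every arithmetic progression, II: the mean of the variance over the difference
-/

set_option autoImplicit false

open MeasureTheory Set Filter intervalIntegral

namespace Pool.Agent.U615.Smp

section

variable {g : ℝ → ℝ} {L : ℝ}

lemma Spt.cor_cont (h : Spt g L) : Continuous (cor g L) := by
  unfold cor
  have := h.cont
  exact intervalIntegral.continuous_parametric_intervalIntegral_of_continuous'
    (f := fun u t => g t * g (t + u)) (by unfold Function.uncurry; fun_prop) 0 L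

lemma Spt.cor_right (h : Spt g L) (hL : 0 ≤ L) {u : ℝ} (hu : L ≤ u) : cor g L u = 0 := by
  unfold cor
  apply intervalIntegral.integral_zero_ae
  refine Eventually.of_forall fun t ht => ?_
  rw [uIoc_of_le hL] at ht
  rw [h.right (t + u) (by linarith [ht.1]), mul_zero]

lemma Spt.cor_zero_nonneg (_ : Spt g L) (hL : 0 ≤ L) : 0 ≤ cor g L 0 := by
  unfold cor
  refine intervalIntegral.integral_nonneg hL fun t _ => ?_
  rw [add_zero]
  exact mul_self_nonneg _

lemma Spt.cor_abs (h : Spt g L) (hL : 0 ≤ L) {u : ℝ} (hu : 0 ≤ u) : |cor g L u| ≤ cor g L 0 := by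
  have hc := h.cont
  have c1 : Continuous fun t => g t * g t := by fun_prop
  have c2 : Continuous fun t => g (t + u) * g (t + u) := by fun_prop
  have e0 : cor g L 0 = ∫ t in (0:ℝ)..L, g t * g t := by
    unfold cor
    simp only [add_zero]
  have e1 : ∫ t in (0:ℝ)..L, g (t + u) * g (t + u) ≤ ∫ t in (0:ℝ)..L, g t * g t := by
    rw [intervalIntegral.integral_comp_add_right (fun t => g t * g t), zero_add]
    have e2 : ∫ t in (0:ℝ)..L, g t * g t = ∫ t in (0:ℝ)..(L + u), g t * g t := by
      refine int_eq_of_zero c1 (fun t ht => ?_) fun t ht => ?_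
      · rw [h.right t ht, zero_mul]
      · rw [h.right t (by linarith), zero_mul]
    rw [e2]
    refine intervalIntegral.integral_mono_interval hu (by linarith) le_rfl
      (Eventually.of_forall fun t => mul_self_nonneg _) (c1.intervalIntegrable _ _)
  unfold cor at e0 ⊢
  rw [e0]
  calc |∫ t in (0:ℝ)..L, g t * g (t + u)| ≤ ∫ t in (0:ℝ)..L, |g t * g (t + u)| :=
        intervalIntegral.abs_integral_le_integral_abs hL
    _ ≤ ∫ t in (0:ℝ)..L, (1 / 2 * (g t * g t) + 1 / 2 * (g (t + u) * g (t + u))) := by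
        refine intervalIntegral.integral_mono_on hL ?_ ?_ fun t _ => ?_
        · exact (h.corFun_cont u).abs.intervalIntegrable _ _
        · exact ((c1.const_mul _).add (c2.const_mul _)).intervalIntegrable _ _
        · rw [abs_le]
          constructor <;> nlinarith [sq_nonneg (g t + g (t + u)), sq_nonneg (g t - g (t + u))]
    _ = 1 / 2 * (∫ t in (0:ℝ)..L, g t * g t) + 1 / 2 * ∫ t in (0:ℝ)..L, g (t + u) * g (t + u) := by
        rw [intervalIntegral.integral_add, intervalIntegral.integral_const_mul,
          intervalIntegral.integral_const_mul]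
        · exact (c1.const_mul _).intervalIntegrable _ _
        · exact (c2.const_mul _).intervalIntegrable _ _
    _ ≤ ∫ t in (0:ℝ)..L, g t * g t := by linarith

/-- the integral of the correlation -/
lemma Spt.int_cor (h : Spt g L) (hL : 0 ≤ L) :
    2 * ∫ u in (0:ℝ)..L, cor g L u = (∫ t in (0:ℝ)..L, g t) ^ 2 := by
  have hc := h.cont
  set m := ∫ t in (0:ℝ)..L, g t with hm
  have c2 : Continuous (fun p : ℝ × ℝ => g p.2 * g (p.2 + p.1)) := by fun_prop
  have e1 : ∫ u in (0:ℝ)..L, cor g L u = ∫ t in (0:ℝ)..L, g t * (m - ∫ s in (0:ℝ)..t, g s) := by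
    unfold cor
    rw [intervalIntegral_intervalIntegral_swap (F := fun u t => g t * g (t + u))]
    · refine intervalIntegral.integral_congr fun t ht => ?_
      rw [uIcc_of_le hL] at ht
      rw [intervalIntegral.integral_const_mul]
      congr 1
      rw [intervalIntegral.integral_comp_add_left (fun s => g s), add_zero]
      have e2 : m = ∫ s in (0:ℝ)..(t + L), g s :=
        int_eq_of_zero hc h.right fun s hs => h.right s (by linarith [ht.1])
      rw [e2, integral_interval_sub_left (hc.intervalIntegrable _ _) (hc.intervalIntegrable _ _)]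
    · refine IntegrableOn.mono_set (t := Icc 0 L ×ˢ Icc 0 L) ?_ ?_
      · exact (c2.continuousOn).integrableOn_compact (isCompact_Icc.prod isCompact_Icc)
      · rw [uIoc_of_le hL]
        exact prod_mono Ioc_subset_Icc_self Ioc_subset_Icc_self
  have e2 : ∫ t in (0:ℝ)..L, g t * (m - ∫ s in (0:ℝ)..t, g s) = m ^ 2 / 2 := by
    have hd : ∀ t ∈ uIcc (0:ℝ) L, HasDerivAt
        (fun t => m * (∫ s in (0:ℝ)..t, g s) - (∫ s in (0:ℝ)..t, g s) ^ 2 / 2)
        (g t * (m - ∫ s in (0:ℝ)..t, g s)) t := by
      intro t _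
      have h1 : HasDerivAt (fun t => ∫ s in (0:ℝ)..t, g s) (g t) t :=
        hc.integral_hasStrictDerivAt 0 t |>.hasDerivAt
      have h2 := (h1.const_mul m).sub ((h1.pow 2).div_const 2)
      refine h2.congr_deriv ?_
      push_cast
      ring
    rw [intervalIntegral.integral_eq_sub_of_hasDerivAt hd]
    · rw [← hm]
      simp only [intervalIntegral.integral_same]
      ring
    · have c1 : Continuous fun t : ℝ => ∫ s in (0:ℝ)..t, g s :=
        intervalIntegral.continuous_primitive (fun _ _ => hc.intervalIntegrable _ _) 0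
      exact (hc.mul (continuous_const.sub c1)).intervalIntegrable _ _
  rw [e1, e2]
  ring

end

/-- counting multiples -/
lemma count {A B L u : ℝ} (hA : 0 < A) (hAB : A ≤ B) {N : ℕ} (hN : L < A * N) (hu : 0 < u)
    (huL : u ≤ L) :
    |(((Finset.range N).filter (fun j : ℕ => A * ((j : ℝ) + 1) < u ∧ u ≤ B * ((j : ℝ) + 1))).card : ℝ) -
      (1 / A - 1 / B) * u| ≤ 1 := by
  have hB : 0 < B := lt_of_lt_of_le hA hAB
  set a : ℕ := ⌈u / A⌉₊ with ha
  set b : ℕ := ⌈u / B⌉₊ with hb
  have hb1 : 1 ≤ b := Nat.one_le_iff_ne_zero.2 (Nat.ceil_pos.2 (by positivity)).ne'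
  have hab : b ≤ a := Nat.ceil_le_ceil (div_le_div_of_nonneg_left hu.le hA hAB)
  have haN : a ≤ N := by
    rw [ha, Nat.ceil_le, div_le_iff₀ hA]
    linarith
  have e1 : (Finset.range N).filter (fun j : ℕ => A * ((j : ℝ) + 1) < u ∧ u ≤ B * ((j : ℝ) + 1)) =
      Finset.Ico (b - 1) (a - 1) := by
    ext j
    rw [Finset.mem_filter, Finset.mem_range, Finset.mem_Ico]
    have h1 : A * ((j : ℝ) + 1) < u ↔ j + 1 < a := by
      rw [ha, Nat.lt_ceil, lt_div_iff₀ hA]
      push_cast
      rw [mul_comm]
    have h2 : u ≤ B * ((j : ℝ) + 1) ↔ b ≤ j + 1 := by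
      rw [hb, Nat.ceil_le, div_le_iff₀ hB]
      push_cast
      rw [mul_comm]
    rw [h1, h2]
    omega
  rw [e1, Nat.card_Ico]
  have e2 : ((a - 1 - (b - 1) : ℕ) : ℝ) = (a : ℝ) - b := by
    rw [show a - 1 - (b - 1) = a - b by omega, Nat.cast_sub hab]
  rw [e2]
  have h1 : u / A ≤ a := Nat.le_ceil _
  have h2 : (a : ℝ) < u / A + 1 := Nat.ceil_lt_add_one (by positivity)
  have h3 : u / B ≤ b := Nat.le_ceil _
  have h4 : (b : ℝ) < u / B + 1 := Nat.ceil_lt_add_one (by positivity)
  have e3 : (1 / A - 1 / B) * u = u / A - u / B := by ring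
  rw [e3, abs_le]
  constructor <;> linarith

section

variable {g : ℝ → ℝ} {L : ℝ}

/-- the sum over the multiples, averaged -/
lemma Spt.avg_sum (h : Spt g L) {A B : ℝ} (hA : 0 < A) (hAB : A ≤ B) (hAL : A ≤ L) {N : ℕ}
    (hN : L < A * N) :
    ∑ j ∈ Finset.range N, (∫ u in (A * ((j : ℝ) + 1))..(B * ((j : ℝ) + 1)), cor g L u / u) ≤
      (1 / A - 1 / B) * (∫ u in (0:ℝ)..L, cor g L u) + cor g L 0 * (1 + Real.log (L / A)) := by
  have hB : 0 < B := lt_of_lt_of_le hA hAB
  have hL : 0 < L := lt_of_lt_of_le hA hAL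
  set c := 1 / A - 1 / B with hc
  have hc0 : 0 ≤ c := by
    rw [hc, sub_nonneg]
    exact one_div_le_one_div_of_le hA hAB
  have hcA : c * A ≤ 1 := by
    rw [hc, sub_mul, one_div_mul_cancel hA.ne']
    have : 0 ≤ 1 / B * A := by positivity
    linarith
  set R := cor g L with hR
  have hRc : Continuous R := h.cor_cont
  have hR0 : 0 ≤ R 0 := h.cor_zero_nonneg hL.le
  have hRa : ∀ u, 0 ≤ u → |R u| ≤ R 0 := fun u hu => h.cor_abs hL.le hu
  have hRr : ∀ u, L ≤ u → R u = 0 := fun u hu => h.cor_right hL.le hu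
  -- the integrals as integrals over the line
  have hf : ∀ j : ℕ, IntegrableOn (fun u => R u / u) (Ioc (A * ((j : ℝ) + 1)) (B * ((j : ℝ) + 1))) := by
    intro j
    have hj : (0:ℝ) < (j : ℝ) + 1 := by positivity
    refine (ContinuousOn.integrableOn_compact isCompact_Icc ?_).mono_set Ioc_subset_Icc_self
    refine hRc.continuousOn.div continuousOn_id fun u hu => ?_
    have h1 : 0 < A * ((j : ℝ) + 1) := by positivity
    exact (lt_of_lt_of_le h1 hu.1).ne'
  have e1 : ∑ j ∈ Finset.range N, (∫ u in (A * ((j : ℝ) + 1))..(B * ((j : ℝ) + 1)), R u / u) =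
      ∫ u : ℝ, ∑ j ∈ Finset.range N,
        (Ioc (A * ((j : ℝ) + 1)) (B * ((j : ℝ) + 1))).indicator (fun u => R u / u) u := by
    rw [integral_finsetSum _ fun j _ => (hf j).integrable_indicator measurableSet_Ioc]
    refine Finset.sum_congr rfl fun j _ => ?_
    have hj : (0:ℝ) < (j : ℝ) + 1 := by positivity
    rw [intervalIntegral.integral_of_le (by gcongr), MeasureTheory.integral_indicator measurableSet_Ioc]
  have e2 : ∫ u in (0:ℝ)..L, R u = ∫ u : ℝ, (Ioc 0 L).indicator R u := by
    rw [intervalIntegral.integral_of_le hL.le, MeasureTheory.integral_indicator measurableSet_Ioc]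
  have i2 : Integrable ((Ioc 0 L).indicator R) := by
    refine IntegrableOn.integrable_indicator ?_ measurableSet_Ioc
    exact (hRc.integrableOn_Icc).mono_set Ioc_subset_Icc_self
  have i3 : Integrable ((Ioc 0 A).indicator (fun _ : ℝ => c * R 0)) := by
    refine IntegrableOn.integrable_indicator ?_ measurableSet_Ioc
    exact (continuous_const.integrableOn_Icc).mono_set Ioc_subset_Icc_self
  have i4 : Integrable ((Ioc A L).indicator (fun u : ℝ => R 0 * (1 / u))) := by
    refine IntegrableOn.integrable_indicator ?_ measurableSet_Ioc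
    refine (ContinuousOn.integrableOn_compact isCompact_Icc ?_).mono_set Ioc_subset_Icc_self
    refine continuousOn_const.mul (continuousOn_const.div continuousOn_id fun u hu => ?_)
    exact (lt_of_lt_of_le hA hu.1).ne'
  have e3 : ∫ u : ℝ, (Ioc 0 A).indicator (fun _ : ℝ => c * R 0) u = c * A * R 0 := by
    rw [MeasureTheory.integral_indicator measurableSet_Ioc, MeasureTheory.integral_const, Measure.real,
      Measure.restrict_apply_univ, Real.volume_Ioc, sub_zero, ENNReal.toReal_ofReal hA.le, smul_eq_mul]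
    ring
  have e4 : ∫ u : ℝ, (Ioc A L).indicator (fun u : ℝ => R 0 * (1 / u)) u = R 0 * Real.log (L / A) := by
    rw [MeasureTheory.integral_indicator measurableSet_Ioc, ← intervalIntegral.integral_of_le hAL,
      intervalIntegral.integral_const_mul, integral_one_div_of_pos hA hL]
  rw [e1, e2]
  have key : ∫ u : ℝ, ∑ j ∈ Finset.range N,
        (Ioc (A * ((j : ℝ) + 1)) (B * ((j : ℝ) + 1))).indicator (fun u => R u / u) u ≤
      ∫ u : ℝ, (c * (Ioc 0 L).indicator R u + ((Ioc 0 A).indicator (fun _ : ℝ => c * R 0) u +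
        (Ioc A L).indicator (fun u : ℝ => R 0 * (1 / u)) u)) := by
    refine integral_mono (integrable_finsetSum _ fun j _ =>
      (hf j).integrable_indicator measurableSet_Ioc) ((i2.const_mul c).add (i3.add i4)) fun u => ?_
    simp only
    have hsum : ∑ j ∈ Finset.range N,
        (Ioc (A * ((j : ℝ) + 1)) (B * ((j : ℝ) + 1))).indicator (fun u => R u / u) u =
        (((Finset.range N).filter (fun j : ℕ => A * ((j : ℝ) + 1) < u ∧
          u ≤ B * ((j : ℝ) + 1))).card : ℝ) * (R u / u) := by
      rw [← nsmul_eq_mul, ← Finset.sum_const, Finset.sum_filter]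
      refine Finset.sum_congr rfl fun j _ => ?_
      by_cases hj : A * ((j : ℝ) + 1) < u ∧ u ≤ B * ((j : ℝ) + 1)
      · rw [indicator_of_mem (show u ∈ Ioc _ _ from hj), if_pos hj]
      · rw [indicator_of_notMem (show u ∉ Ioc _ _ from hj), if_neg hj]
    rw [hsum]
    rcases le_or_gt u 0 with hu0 | hu0
    · -- `u ≤ 0`
      have h1 : (Finset.range N).filter (fun j : ℕ => A * ((j : ℝ) + 1) < u ∧
          u ≤ B * ((j : ℝ) + 1)) = ∅ := by
        rw [Finset.filter_eq_empty_iff]
        intro j _ hj
        have h2 : 0 < A * ((j : ℝ) + 1) := by positivity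
        linarith [hj.1]
      rw [h1, indicator_of_notMem (fun h : u ∈ Ioc 0 L => absurd h.1 (not_lt.2 hu0)),
        indicator_of_notMem (fun h : u ∈ Ioc 0 A => absurd h.1 (not_lt.2 hu0)),
        indicator_of_notMem (fun h : u ∈ Ioc A L => absurd h.1 (not_lt.2 (hu0.trans hA.le)))]
      simp
    rcases le_or_gt u L with huL | huL
    · have hRu := hRa u hu0.le
      have hRu' := abs_le.1 hRu
      rw [indicator_of_mem (show u ∈ Ioc 0 L from ⟨hu0, huL⟩)]
      rcases le_or_gt u A with huA | huA
      · have h1 : (Finset.range N).filter (fun j : ℕ => A * ((j : ℝ) + 1) < u ∧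
            u ≤ B * ((j : ℝ) + 1)) = ∅ := by
          rw [Finset.filter_eq_empty_iff]
          intro j _ hj
          have h2 : A * 1 ≤ A * ((j : ℝ) + 1) := by
            have : (0:ℝ) ≤ j := Nat.cast_nonneg j
            gcongr
            linarith
          linarith [hj.1]
        rw [h1, indicator_of_mem (show u ∈ Ioc 0 A from ⟨hu0, huA⟩),
          indicator_of_notMem (fun h : u ∈ Ioc A L => absurd h.1 (not_lt.2 huA))]
        simp only [Finset.card_empty, Nat.cast_zero, zero_mul, add_zero]
        have := mul_le_mul_of_nonneg_left hRu'.1 hc0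
        linarith
      · rw [indicator_of_notMem (fun h : u ∈ Ioc 0 A => absurd h.2 (not_le.2 huA)),
          indicator_of_mem (show u ∈ Ioc A L from ⟨huA, huL⟩), zero_add]
        have h1 := count hA hAB hN hu0 huL
        rw [← hc] at h1
        set n := (((Finset.range N).filter (fun j : ℕ => A * ((j : ℝ) + 1) < u ∧
          u ≤ B * ((j : ℝ) + 1))).card : ℝ) with hn
        have h2 : (n - c * u) * R u ≤ 1 * R 0 := by
          calc (n - c * u) * R u ≤ |(n - c * u) * R u| := le_abs_self _
            _ = |n - c * u| * |R u| := abs_mul _ _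
            _ ≤ 1 * R 0 := mul_le_mul h1 hRu (abs_nonneg _) zero_le_one
        have e5 : n * (R u / u) - c * R u = (n - c * u) * R u / u := by
          field_simp
        have h3 : (n - c * u) * R u / u ≤ 1 * R 0 / u := div_le_div_of_nonneg_right h2 hu0.le
        have e6 : 1 * R 0 / u = R 0 * (1 / u) := by ring
        rw [e6] at h3
        linarith
    · rw [hRr u huL.le, indicator_of_notMem (fun h : u ∈ Ioc 0 L => absurd h.2 (not_le.2 huL)),
        indicator_of_notMem (fun h : u ∈ Ioc 0 A => absurd (h.2.trans hAL) (not_le.2 huL)),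
        indicator_of_notMem (fun h : u ∈ Ioc A L => absurd h.2 (not_le.2 huL))]
      simp
  refine key.trans ?_
  have e5 := MeasureTheory.integral_add (f := fun u => c * (Ioc 0 L).indicator R u)
    (g := fun u => (Ioc 0 A).indicator (fun _ : ℝ => c * R 0) u +
        (Ioc A L).indicator (fun u : ℝ => R 0 * (1 / u)) u) (i2.const_mul c) (i3.add i4)
  have e6 := MeasureTheory.integral_add (f := fun u => (Ioc 0 A).indicator (fun _ : ℝ => c * R 0) u)
    (g := fun u => (Ioc A L).indicator (fun u : ℝ => R 0 * (1 / u)) u) i3 i4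
  rw [e5, MeasureTheory.integral_const_mul, e6, e3, e4]
  have h5 : c * A * R 0 ≤ R 0 := by
    have := mul_le_mul_of_nonneg_right hcA hR0
    linarith
  linarith

/-- **the mean of the variance** -/
theorem Spt.avg (h : Spt g L) {A B : ℝ} (hA : 0 < A) (hAB : A ≤ B) (hAL : A ≤ L) {N : ℕ}
    (hN : L < A * N) :
    ∫ α in A..B, var N g L α / α ≤
      cor g L 0 * (Real.log (B / A) + 2 + 2 * Real.log (L / A)) := by
  have hB : 0 < B := lt_of_lt_of_le hA hAB
  have hL : 0 < L := lt_of_lt_of_le hA hAL
  have hRc : Continuous (cor g L) := h.cor_cont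
  have hpos : ∀ α ∈ uIcc A B, α ≠ 0 := by
    intro α hα
    rw [uIcc_of_le hAB] at hα
    exact (lt_of_lt_of_le hA hα.1).ne'
  set m := ∫ t in (0:ℝ)..L, g t with hm
  have e1 : ∀ α ∈ uIcc A B, var N g L α / α = cor g L 0 * (1 / α) +
      2 * (∑ j ∈ Finset.range N, cor g L (α * ((j : ℝ) + 1)) / α) - m ^ 2 * (1 / α ^ 2) := by
    intro α hα
    have := hpos α hα
    unfold var
    rw [← hm, ← Finset.sum_div]
    field_simp
  have i1 : IntervalIntegrable (fun α : ℝ => cor g L 0 * (1 / α)) volume A B := by
    refine ContinuousOn.intervalIntegrable ?_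
    exact continuousOn_const.mul (continuousOn_const.div continuousOn_id hpos)
  have i2 : ∀ j : ℕ, IntervalIntegrable (fun α : ℝ => cor g L (α * ((j : ℝ) + 1)) / α) volume A B := by
    intro j
    refine ContinuousOn.intervalIntegrable ?_
    have : Continuous fun α : ℝ => cor g L (α * ((j : ℝ) + 1)) := by fun_prop
    exact this.continuousOn.div continuousOn_id hpos
  have i2' : IntervalIntegrable (fun α : ℝ => ∑ j ∈ Finset.range N,
      cor g L (α * ((j : ℝ) + 1)) / α) volume A B := by
    refine ContinuousOn.intervalIntegrable ?_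
    refine continuousOn_finsetSum _ fun j _ => ?_
    have : Continuous fun α : ℝ => cor g L (α * ((j : ℝ) + 1)) := by fun_prop
    exact this.continuousOn.div continuousOn_id hpos
  have i3 : IntervalIntegrable (fun α : ℝ => m ^ 2 * (1 / α ^ 2)) volume A B := by
    refine ContinuousOn.intervalIntegrable ?_
    refine continuousOn_const.mul (continuousOn_const.div (continuousOn_pow 2) fun α hα => ?_)
    exact pow_ne_zero 2 (hpos α hα)
  have e2 : ∫ α in A..B, 1 / α ^ 2 = 1 / A - 1 / B := by
    have hd : ∀ t ∈ uIcc A B, HasDerivAt (fun t : ℝ => -(1 / t)) (1 / t ^ 2) t := by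
      intro t ht
      have h1 := (hasDerivAt_inv (hpos t ht)).neg
      have h2 : (fun t : ℝ => -(1 / t)) = -fun t : ℝ => t⁻¹ := by
        funext t; simp
      rw [h2]
      refine h1.congr_deriv ?_
      simp
    rw [intervalIntegral.integral_eq_sub_of_hasDerivAt hd]
    · ring
    · refine ContinuousOn.intervalIntegrable ?_
      exact continuousOn_const.div (continuousOn_pow 2) fun α hα => pow_ne_zero 2 (hpos α hα)
  have e3 : ∀ j : ℕ, ∫ α in A..B, cor g L (α * ((j : ℝ) + 1)) / α =
      ∫ u in (A * ((j : ℝ) + 1))..(B * ((j : ℝ) + 1)), cor g L u / u := by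
    intro j
    have hj : (0:ℝ) < (j : ℝ) + 1 := by positivity
    have h1 := intervalIntegral.integral_comp_mul_right (a := A) (b := B)
      (fun u => cor g L u / u) hj.ne'
    rw [smul_eq_mul] at h1
    have h2 : ∫ α in A..B, cor g L (α * ((j : ℝ) + 1)) / α =
        ((j : ℝ) + 1) * ∫ α in A..B, cor g L (α * ((j : ℝ) + 1)) / (α * ((j : ℝ) + 1)) := by
      rw [← intervalIntegral.integral_const_mul]
      refine intervalIntegral.integral_congr fun α hα => ?_
      have := hpos α hα
      field_simp
    rw [h2, h1, ← mul_assoc, mul_inv_cancel₀ hj.ne', one_mul]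
  rw [intervalIntegral.integral_congr e1, intervalIntegral.integral_sub (i1.add (i2'.const_mul 2)) i3,
    intervalIntegral.integral_add i1 (i2'.const_mul 2), intervalIntegral.integral_const_mul,
    intervalIntegral.integral_const_mul, intervalIntegral.integral_const_mul,
    intervalIntegral.integral_finsetSum fun j _ => i2 j, integral_one_div_of_pos hA hB, e2,
    Finset.sum_congr rfl fun j _ => e3 j]
  have h1 := h.avg_sum hA hAB hAL hN
  have h2 := h.int_cor hL.le
  rw [← hm] at h2
  rw [← h2]
  linarith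

end

end Pool.Agent.U615.Smp
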