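import Pool.Agent.U615.SB

/-!
# Sampling along almost every arithmetic progression, III: all progressions with a given difference
-/

set_option autoImplicit false

open MeasureTheory Set Filter intervalIntegral

namespace Pool.Agent.U615.Smp

section

variable {g g' : ℝ → ℝ} {L : ℝ}

/-- the largest deviation is bounded by the variances of `g` and of its derivative -/
lemma Spt.sup (h : Spt g L) (h' : Spt g' L) (hd : ∀ t, HasDerivAt g (g' t) t) (hL : 0 ≤ L)
    {α : ℝ} (hα : 0 < α) {N : ℕ} (hN : L ≤ α * N) {lam : ℝ} (hlam : 0 < lam) {γ : ℝ}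
    (hγ : γ ∈ Icc 0 α) :
    (per N g α γ - (∫ t in (0:ℝ)..L, g t) / α) ^ 2 ≤
      lam * var N g L α + lam⁻¹ * var N g' L α := by
  set m := ∫ t in (0:ℝ)..L, g t with hm
  have hm' : ∫ t in (0:ℝ)..L, g' t = 0 := by
    rw [intervalIntegral.integral_eq_sub_of_hasDerivAt (fun t _ => hd t)
      (h'.cont.intervalIntegrable _ _), h.right L le_rfl, h.left 0 le_rfl, sub_zero]
  set D : ℝ → ℝ := fun γ => per N g α γ - m / α with hD
  set D' : ℝ → ℝ := fun γ => per N g' α γ with hD'
  have hDc : Continuous D := (per_cont h.cont N α).sub continuous_const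
  have hD'c : Continuous D' := per_cont h'.cont N α
  have hDd : ∀ γ, HasDerivAt D (D' γ) γ := by
    intro γ
    have h1 : HasDerivAt (fun γ => per N g α γ) (per N g' α γ) γ := by
      unfold per
      refine HasDerivAt.fun_sum fun n _ => ?_
      exact (hd (α * n + γ)).comp_const_add (α * n) γ
    exact h1.sub_const _
  have hmean : ∫ γ in (0:ℝ)..α, D γ = 0 := by
    rw [hD, intervalIntegral.integral_sub ((per_cont h.cont N α).intervalIntegrable _ _)
      (_root_.intervalIntegrable_const), h.mean hN, intervalIntegral.integral_const, sub_zero, smul_eq_mul,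
      mul_div_cancel₀ _ hα.ne', sub_self]
  obtain ⟨γ₀, hγ₀, hz⟩ : ∃ γ₀ ∈ Ioo (0:ℝ) α, D γ₀ = 0 := by
    refine exists_hasDerivAt_eq_zero (f := fun x => ∫ γ in (0:ℝ)..x, D γ) hα ?_ ?_ fun x _ =>
      (hDc.integral_hasStrictDerivAt 0 x).hasDerivAt
    · exact (intervalIntegral.continuous_primitive (fun _ _ => hDc.intervalIntegrable _ _) 0).continuousOn
    · rw [hmean, intervalIntegral.integral_same]
  have hint : ∀ a b : ℝ, IntervalIntegrable (fun x => 2 * D x * D' x) volume a b := fun a b =>
    ((continuous_const.mul hDc).mul hD'c).intervalIntegrable _ _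
  have hsq : D γ ^ 2 = ∫ x in γ₀..γ, 2 * D x * D' x := by
    rw [intervalIntegral.integral_eq_sub_of_hasDerivAt (f := fun x => D x ^ 2) (fun x _ => by
      have := (hDd x).pow 2
      refine this.congr_deriv ?_
      push_cast
      ring) (hint _ _), hz]
    ring
  have hW : ∀ a b : ℝ, IntervalIntegrable (fun x => lam * D x ^ 2 + lam⁻¹ * D' x ^ 2) volume a b :=
    fun a b => ((continuous_const.mul (hDc.pow 2)).add
      (continuous_const.mul (hD'c.pow 2))).intervalIntegrable _ _
  have hle : D γ ^ 2 ≤ ∫ x in (0:ℝ)..α, (lam * D x ^ 2 + lam⁻¹ * D' x ^ 2) := by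
    rw [hsq]
    calc ∫ x in γ₀..γ, 2 * D x * D' x ≤ |∫ x in γ₀..γ, 2 * D x * D' x| := le_abs_self _
      _ ≤ |∫ x in γ₀..γ, (lam * D x ^ 2 + lam⁻¹ * D' x ^ 2)| := by
          rw [← Real.norm_eq_abs, ← Real.norm_eq_abs]
          refine intervalIntegral.norm_integral_le_abs_of_norm_le ?_ (hW _ _)
          refine Eventually.of_forall fun x => ?_
          rw [Real.norm_eq_abs, abs_mul, abs_mul, abs_two]
          have h1 : 2 * |D x| * |D' x| ≤ lam * |D x| ^ 2 + lam⁻¹ * |D' x| ^ 2 := by
            have h2 := sq_nonneg (lam * |D x| - |D' x|)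
            have h3 : lam * |D x| ^ 2 + lam⁻¹ * |D' x| ^ 2 - 2 * |D x| * |D' x| =
                lam⁻¹ * (lam * |D x| - |D' x|) ^ 2 := by
              field_simp
              ring
            have h4 : 0 ≤ lam⁻¹ * (lam * |D x| - |D' x|) ^ 2 := by positivity
            linarith
          rwa [sq_abs, sq_abs] at h1
      _ ≤ ∫ x in (0:ℝ)..α, (lam * D x ^ 2 + lam⁻¹ * D' x ^ 2) := by
          have hnn : ∀ x, 0 ≤ lam * D x ^ 2 + lam⁻¹ * D' x ^ 2 := fun x => by positivity
          rcases le_total γ₀ γ with h1 | h1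
          · rw [abs_of_nonneg (intervalIntegral.integral_nonneg h1 fun x _ => hnn x)]
            exact intervalIntegral.integral_mono_interval hγ₀.1.le h1 hγ.2
              (Eventually.of_forall hnn) (hW _ _)
          · rw [intervalIntegral.integral_symm, abs_neg,
              abs_of_nonneg (intervalIntegral.integral_nonneg h1 fun x _ => hnn x)]
            exact intervalIntegral.integral_mono_interval hγ.1 h1 hγ₀.2.le
              (Eventually.of_forall hnn) (hW _ _)
  have e1 := h.var_eq hα hN
  have e2 := h'.var_eq hα hN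
  rw [hm', zero_div] at e2
  simp only [sub_zero] at e2
  rw [← e1, ← e2]
  have c1 : Continuous fun x => lam * D x ^ 2 := continuous_const.mul (hDc.pow 2)
  have c2 : Continuous fun x => lam⁻¹ * D' x ^ 2 := continuous_const.mul (hD'c.pow 2)
  rw [intervalIntegral.integral_add (c1.intervalIntegrable _ _)
    (c2.intervalIntegrable _ _), intervalIntegral.integral_const_mul,
    intervalIntegral.integral_const_mul] at hle
  exact hle

/-- the set of large variance is small -/
lemma Spt.markov (h : Spt g L) {A B : ℝ} (hA : 0 < A) (hAB : A ≤ B) (hAL : A ≤ L) {N : ℕ}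
    (hN : L < A * N) {Q K : ℝ} (hQ : cor g L 0 ≤ Q) (hQ0 : 0 < Q)
    (hK : Real.log (B / A) + 2 + 2 * Real.log (L / A) ≤ K) {r : ℝ} (hr : 0 < r) :
    (volume.restrict (Ioc A B)) {α | r * K * Q ≤ var N g L α} ≤ ENNReal.ofReal (B / r) := by
  have hB : 0 < B := lt_of_lt_of_le hA hAB
  have hL : 0 < L := lt_of_lt_of_le hA hAL
  have hlog1 : 0 ≤ Real.log (B / A) := Real.log_nonneg (by rwa [le_div_iff₀ hA, one_mul])
  have hlog2 : 0 ≤ Real.log (L / A) := Real.log_nonneg (by rwa [le_div_iff₀ hA, one_mul])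
  have hK0 : 0 < K := by linarith
  have hc := h.cor_cont
  have hcv : ContinuousOn (fun α => var N g L α) (Icc A B) := by
    unfold var
    refine ContinuousOn.sub ?_ ?_
    · have : Continuous fun α : ℝ => cor g L 0 + 2 * ∑ j ∈ Finset.range N,
          cor g L (α * ((j : ℝ) + 1)) := by fun_prop
      exact this.continuousOn
    · exact continuousOn_const.div continuousOn_id fun α hα => (lt_of_lt_of_le hA hα.1).ne'
  have hi : IntegrableOn (fun α => var N g L α) (Ioc A B) :=
    (hcv.integrableOn_compact isCompact_Icc).mono_set Ioc_subset_Icc_self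
  have hi' : IntegrableOn (fun α => var N g L α / α) (Ioc A B) :=
    ((hcv.div continuousOn_id fun α hα =>
      (lt_of_lt_of_le hA hα.1).ne').integrableOn_compact isCompact_Icc).mono_set Ioc_subset_Icc_self
  have hnn : ∀ α ∈ Ioc A B, 0 ≤ var N g L α := fun α hα => by
    refine h.var_nonneg (hA.trans hα.1) (hN.le.trans ?_)
    exact mul_le_mul_of_nonneg_right hα.1.le (Nat.cast_nonneg _)
  have h1 : ∫ α in Ioc A B, var N g L α ≤ B * (Q * K) := by
    calc ∫ α in Ioc A B, var N g L α ≤ ∫ α in Ioc A B, B * (var N g L α / α) := by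
          refine setIntegral_mono_on hi (hi'.const_mul B) measurableSet_Ioc fun α hα => ?_
          have hα0 : 0 < α := hA.trans hα.1
          rw [mul_div_assoc', le_div_iff₀ hα0, mul_comm]
          exact mul_le_mul_of_nonneg_right hα.2 (hnn α hα)
      _ = B * ∫ α in A..B, var N g L α / α := by
          rw [MeasureTheory.integral_const_mul, intervalIntegral.integral_of_le hAB]
      _ ≤ B * (cor g L 0 * (Real.log (B / A) + 2 + 2 * Real.log (L / A))) :=
          mul_le_mul_of_nonneg_left (h.avg hA hAB hAL hN) hB.le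
      _ ≤ B * (Q * K) := by
          refine mul_le_mul_of_nonneg_left ?_ hB.le
          exact mul_le_mul hQ hK (by linarith) hQ0.le
  have h2 := mul_meas_ge_le_integral_of_nonneg (μ := volume.restrict (Ioc A B))
    (f := fun α => var N g L α) (by
      rw [EventuallyLE, ae_restrict_iff' measurableSet_Ioc]
      exact Eventually.of_forall hnn) hi (r * K * Q)
  have h3 : (volume.restrict (Ioc A B)).real {α | r * K * Q ≤ var N g L α} ≤ B / r := by
    have h4 : 0 < r * K * Q := by positivity
    rw [le_div_iff₀ hr]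
    have h5 := h2.trans h1
    have h6 : (volume.restrict (Ioc A B)).real {α | r * K * Q ≤ var N g L α} * r * (K * Q) ≤
        B * (K * Q) := by
      calc _ = r * K * Q * (volume.restrict (Ioc A B)).real {α | r * K * Q ≤ var N g L α} := by ring
        _ ≤ B * (Q * K) := h5
        _ = B * (K * Q) := by ring
    exact le_of_mul_le_mul_right h6 (by positivity)
  have hfin : (volume.restrict (Ioc A B)) {α | r * K * Q ≤ var N g L α} ≠ ⊤ := by
    refine ne_top_of_le_ne_top ?_ (measure_mono (subset_univ _))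
    rw [Measure.restrict_apply_univ, Real.volume_Ioc]
    exact ENNReal.ofReal_ne_top
  rw [← ENNReal.ofReal_toReal hfin]
  exact ENNReal.ofReal_le_ofReal h3

end

/-- almost everywhere bound of the variances of a sequence -/
theorem ae_var {A B : ℝ} (hA : 0 < A) (hAB : A ≤ B) (g : ℕ → ℝ → ℝ) (L Q : ℕ → ℝ) (N : ℕ → ℕ)
    (hg : ∀ m, Spt (g m) (L m)) (hL : ∀ m, A ≤ L m) (hN : ∀ m, L m < A * N m)
    (hQ : ∀ m, cor (g m) (L m) 0 ≤ Q m) (hQ0 : ∀ m, 0 < Q m) :
    ∀ᵐ α ∂volume.restrict (Ioc A B), ∀ᶠ m : ℕ in atTop, var (N m) (g m) (L m) α <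
      ((m : ℝ) + 1) ^ 2 * (Real.log (B / A) + 2 + 2 * Real.log (L m / A)) * Q m := by
  have h1 : ∑' m : ℕ, (volume.restrict (Ioc A B)) {α | ((m : ℝ) + 1) ^ 2 *
      (Real.log (B / A) + 2 + 2 * Real.log (L m / A)) * Q m ≤ var (N m) (g m) (L m) α} ≠ ⊤ := by
    have h2 : Summable fun m : ℕ => B / ((m : ℝ) + 1) ^ 2 := by
      have h3 : Summable fun m : ℕ => 1 / ((m : ℝ) + 1) ^ 2 := by
        have h4 := (summable_nat_add_iff (f := fun m : ℕ => 1 / ((m : ℝ)) ^ 2) 1).2
          (Real.summable_one_div_nat_pow.2 one_lt_two)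
        refine h4.congr fun m => ?_
        push_cast
        ring
      refine (h3.mul_left B).congr fun m => ?_
      ring
    refine ne_top_of_le_ne_top h2.tsum_ofReal_ne_top (ENNReal.tsum_le_tsum fun m => ?_)
    exact (hg m).markov hA hAB (hL m) (hN m) (hQ m) (hQ0 m) le_rfl (by positivity)
  filter_upwards [ae_eventually_notMem h1] with α hα
  filter_upwards [hα] with m hm
  exact not_le.1 hm

end Pool.Agent.U615.Smp
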