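import Pool.Agent.U615.SC

/-!
# Sampling along almost every arithmetic progression, IV: cut-off functions
-/

set_option autoImplicit false

open MeasureTheory Set Filter intervalIntegral Topology

namespace Pool.Agent.U615.Smp

lemma st_deriv_of_nonpos {t : ℝ} (ht : t ≤ 0) : deriv Real.smoothTransition t = 0 := by
  apply IsLocalMin.deriv_eq_zero
  refine Eventually.of_forall fun x => ?_
  rw [Real.smoothTransition.zero_of_nonpos ht]
  exact Real.smoothTransition.nonneg x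

lemma st_deriv_of_one_le {t : ℝ} (ht : 1 ≤ t) : deriv Real.smoothTransition t = 0 := by
  apply IsLocalMax.deriv_eq_zero
  refine Eventually.of_forall fun x => ?_
  rw [Real.smoothTransition.one_of_one_le ht]
  exact Real.smoothTransition.le_one x

lemma st_deriv_cont : Continuous (deriv Real.smoothTransition) :=
  (Real.smoothTransition.contDiff (n := 1)).continuous_deriv (by norm_num)

lemma st_hasDeriv (t : ℝ) : HasDerivAt Real.smoothTransition (deriv Real.smoothTransition t) t :=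
  ((Real.smoothTransition.contDiff (n := 1)).differentiable (by norm_num) t).hasDerivAt

lemma st_deriv_bound : ∃ S : ℝ, 0 ≤ S ∧ ∀ t : ℝ, |deriv Real.smoothTransition t| ≤ S := by
  obtain ⟨S, hS⟩ := (isCompact_Icc (a := (0:ℝ)) (b := 1)).exists_bound_of_continuousOn
    st_deriv_cont.continuousOn
  refine ⟨|S|, abs_nonneg _, fun t => ?_⟩
  rcases le_or_gt t 0 with h | h
  · rw [st_deriv_of_nonpos h, abs_zero]; exact abs_nonneg _
  rcases le_or_gt 1 t with h1 | h1
  · rw [st_deriv_of_one_le h1, abs_zero]; exact abs_nonneg _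
  · exact (hS t ⟨h.le, h1.le⟩).trans (le_abs_self _)

/-- the parameters -/
structure Par (κ ρ σ ε : ℝ) : Prop where
  κ0 : 0 ≤ κ
  κ1 : κ < 1
  ρ0 : 0 < ρ
  ρ1 : 40 * ρ ≤ 1 - κ
  σ0 : 0 < σ
  σ1 : σ ≤ ρ
  ε0 : 0 < ε
  ε1 : 8 * ε ≤ σ

/-- what is used about the function `h` -/
structure Dat (h : ℝ → ℝ) (κ ρ σ ε T₀ : ℝ) : Prop where
  cont : Continuous h
  nn : ∀ t, 0 ≤ h t
  two : 2 ≤ T₀
  sup : ∀ T, T₀ ≤ T → ∀ t ∈ Icc 0 T, h t ≤ T ^ (κ + ε)
  low : ∀ T, T₀ ≤ T → T ^ (1 - ε) ≤ ∫ t in (0:ℝ)..T, h t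
  app : ∀ T, T₀ ≤ T → ∃ f f' : ℝ → ℝ, (∀ t, HasDerivAt f (f' t) t) ∧ Continuous f' ∧
    (∀ t, h t ≤ f t) ∧ (∀ t ∈ Icc 0 T, f t ≤ h t + T ^ (-σ) * (1 + h t)) ∧
    (∀ t ∈ Icc 0 T, |f' t| ≤ T ^ (κ + ρ)) ∧
    ∫ t in (0:ℝ)..T, |f' t| ≤ T ^ ρ * ∫ t in (0:ℝ)..T, h t

/-- the cut off functions -/
structure Cut (h : ℝ → ℝ) (κ ρ σ C T : ℝ) (g g' : ℝ → ℝ) : Prop where
  sg : Spt g T
  sg' : Spt g' T
  hd : ∀ t, HasDerivAt g (g' t) t
  nn : ∀ t, 0 ≤ g t
  le : ∀ t ∈ Icc 0 T, g t ≤ h t + T ^ (-σ) * (1 + h t)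
  ge : ∀ t ∈ Icc 1 (T - 1), h t ≤ g t
  c0 : cor g T 0 ≤ C * (T ^ (κ + 2 * ρ) * ∫ t in (0:ℝ)..T, h t)
  c1 : cor g' T 0 ≤ C * (T ^ (κ + 2 * ρ) * ∫ t in (0:ℝ)..T, h t)

lemma cor_le_of {F B : ℝ → ℝ} {T : ℝ} (hT : 0 ≤ T) (hF : Continuous F) (hB : Continuous B)
    (h : ∀ t ∈ Icc 0 T, F t ^ 2 ≤ B t) : cor F T 0 ≤ ∫ t in (0:ℝ)..T, B t := by
  unfold cor
  refine intervalIntegral.integral_mono_on hT ?_ (hB.intervalIntegrable _ _) fun t ht => ?_
  · have : Continuous fun t => F t * F (t + 0) := by fun_prop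
    exact this.intervalIntegrable _ _
  · rw [add_zero, ← sq]
    exact h t ht

theorem cut : ∃ C : ℝ, 1 ≤ C ∧ ∀ (h : ℝ → ℝ) (κ ρ σ ε T₀ : ℝ), Par κ ρ σ ε → Dat h κ ρ σ ε T₀ →
    ∀ T, T₀ ≤ T → ∃ g g' : ℝ → ℝ, Cut h κ ρ σ C T g g' := by
  obtain ⟨S, hS0, hS⟩ := st_deriv_bound
  refine ⟨11 + 72 * S ^ 2, by nlinarith [sq_nonneg S], ?_⟩
  intro h κ ρ σ ε T₀ P H T hT
  obtain ⟨f, f', hd, hf'c, hge, hle, hsup, hint⟩ := H.app T hT
  have hT2 : 2 ≤ T := H.two.trans hT
  have hT0 : 0 < T := by linarith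
  have hT1 : 1 ≤ T := by linarith
  have hfc : Continuous f := continuous_iff_continuousAt.2 fun t => (hd t).continuousAt
  have hh := H.cont
  set I := ∫ t in (0:ℝ)..T, h t with hI
  have hI0 : 0 ≤ I := intervalIntegral.integral_nonneg hT0.le fun t _ => H.nn t
  set s := Real.smoothTransition with hs
  have hsc : Continuous s := Real.smoothTransition.continuous
  have hs'c : Continuous (deriv s) := st_deriv_cont
  have hs0 : ∀ t, 0 ≤ s t := Real.smoothTransition.nonneg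
  have hs1 : ∀ t, s t ≤ 1 := Real.smoothTransition.le_one
  set χ : ℝ → ℝ := fun t => s t * s (T - t) with hχ
  set χ' : ℝ → ℝ := fun t => deriv s t * s (T - t) + s t * -deriv s (T - t) with hχ'
  have hχc : Continuous χ := by fun_prop
  have hχ'c : Continuous χ' := by fun_prop
  have hχd : ∀ t, HasDerivAt χ (χ' t) t := by
    intro t
    refine (st_hasDeriv t).mul ?_
    have h1 := (st_hasDeriv (T - t)).comp_const_sub T t
    exact h1
  have hχ0 : ∀ t, 0 ≤ χ t := fun t => mul_nonneg (hs0 _) (hs0 _)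
  have hχ1 : ∀ t, χ t ≤ 1 := fun t => mul_le_one₀ (hs1 _) (hs0 _) (hs1 _)
  have hχ'1 : ∀ t, |χ' t| ≤ 2 * S := by
    intro t
    rw [hχ']
    refine (abs_add_le _ _).trans ?_
    rw [abs_mul, abs_mul, abs_neg, abs_of_nonneg (hs0 _), abs_of_nonneg (hs0 _)]
    have h1 := hS t
    have h2 := hS (T - t)
    have h3 : |deriv s t| * s (T - t) ≤ S * 1 := mul_le_mul h1 (hs1 _) (hs0 _) hS0
    have h4 : s t * |deriv s (T - t)| ≤ 1 * S := mul_le_mul (hs1 _) h2 (abs_nonneg _) zero_le_one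
    linarith
  -- the bounds of `f`
  have hTσ : T ^ (-σ) ≤ 1 := Real.rpow_le_one_of_one_le_of_nonpos hT1 (by linarith [P.σ0])
  have hTσ0 : 0 < T ^ (-σ) := Real.rpow_pos_of_pos hT0 _
  have hTκ : 1 ≤ T ^ (κ + ε) := Real.one_le_rpow hT1 (by linarith [P.κ0, P.ε0])
  have hfnn : ∀ t, 0 ≤ f t := fun t => (H.nn t).trans (hge t)
  have hf1 : ∀ t ∈ Icc 0 T, f t ≤ 2 * h t + 1 := by
    intro t ht
    have h1 := hle t ht
    have h2 := H.nn t
    nlinarith
  have hf2 : ∀ t ∈ Icc 0 T, f t ≤ 3 * T ^ (κ + ε) := by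
    intro t ht
    have h1 := hf1 t ht
    have h2 := H.sup T hT t ht
    linarith
  have hTI : T ≤ T ^ ε * I := by
    have h1 := H.low T hT
    rw [← hI] at h1
    calc T = T ^ ε * T ^ (1 - ε) := by
          rw [← Real.rpow_add hT0]; simp
      _ ≤ T ^ ε * I := mul_le_mul_of_nonneg_left h1 (by positivity)
  have hTε : 1 ≤ T ^ ε := Real.one_le_rpow hT1 P.ε0.le
  have hpw : T ^ (κ + ε) * T ^ ε ≤ T ^ (κ + 2 * ρ) := by
    rw [← Real.rpow_add hT0]
    refine Real.rpow_le_rpow_of_exponent_le hT1 ?_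
    linarith [P.ε1, P.σ1, P.ε0, P.ρ0]
  have hfint : ∫ t in (0:ℝ)..T, f t ≤ 3 * (T ^ ε * I) := by
    calc ∫ t in (0:ℝ)..T, f t ≤ ∫ t in (0:ℝ)..T, (2 * h t + 1) := by
          refine intervalIntegral.integral_mono_on hT0.le (hfc.intervalIntegrable _ _) ?_ hf1
          have : Continuous fun t => 2 * h t + 1 := by fun_prop
          exact this.intervalIntegrable _ _
      _ = 2 * I + T := by
          rw [intervalIntegral.integral_add, intervalIntegral.integral_const_mul,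
            intervalIntegral.integral_const, sub_zero, smul_eq_mul, mul_one]
          · exact (continuous_const.mul hh).intervalIntegrable _ _
          · exact _root_.intervalIntegrable_const
      _ ≤ 3 * (T ^ ε * I) := by nlinarith
  have hf2int : ∫ t in (0:ℝ)..T, f t ^ 2 ≤ 9 * (T ^ (κ + 2 * ρ) * I) := by
    calc ∫ t in (0:ℝ)..T, f t ^ 2 ≤ ∫ t in (0:ℝ)..T, 3 * T ^ (κ + ε) * f t := by
          refine intervalIntegral.integral_mono_on hT0.le ((hfc.pow 2).intervalIntegrable _ _) ?_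
            fun t ht => ?_
          · exact (continuous_const.mul hfc).intervalIntegrable _ _
          · rw [sq]
            exact mul_le_mul_of_nonneg_right (hf2 t ht) (hfnn t)
      _ = 3 * T ^ (κ + ε) * ∫ t in (0:ℝ)..T, f t := by
          rw [intervalIntegral.integral_const_mul]
      _ ≤ 3 * T ^ (κ + ε) * (3 * (T ^ ε * I)) := mul_le_mul_of_nonneg_left hfint (by positivity)
      _ = 9 * (T ^ (κ + ε) * T ^ ε * I) := by ring
      _ ≤ 9 * (T ^ (κ + 2 * ρ) * I) := by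
          have := mul_le_mul_of_nonneg_right hpw hI0
          linarith
  have hf'2int : ∫ t in (0:ℝ)..T, f' t ^ 2 ≤ T ^ (κ + 2 * ρ) * I := by
    calc ∫ t in (0:ℝ)..T, f' t ^ 2 ≤ ∫ t in (0:ℝ)..T, T ^ (κ + ρ) * |f' t| := by
          refine intervalIntegral.integral_mono_on hT0.le ((hf'c.pow 2).intervalIntegrable _ _) ?_
            fun t ht => ?_
          · exact (continuous_const.mul hf'c.abs).intervalIntegrable _ _
          · rw [← sq_abs, sq]
            exact mul_le_mul_of_nonneg_right (hsup t ht) (abs_nonneg _)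
      _ = T ^ (κ + ρ) * ∫ t in (0:ℝ)..T, |f' t| := by
          rw [intervalIntegral.integral_const_mul]
      _ ≤ T ^ (κ + ρ) * (T ^ ρ * I) := mul_le_mul_of_nonneg_left hint (by positivity)
      _ = T ^ (κ + 2 * ρ) * I := by
          rw [← mul_assoc, ← Real.rpow_add hT0]
          congr 2
          ring
  have hX : 0 ≤ T ^ (κ + 2 * ρ) * I := by positivity
  refine ⟨fun t => f t * χ t, fun t => f' t * χ t + f t * χ' t, ?_, ?_, ?_, ?_, ?_, ?_, ?_, ?_⟩
  · refine ⟨by fun_prop, fun t ht => ?_, fun t ht => ?_⟩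
    · simp only [hχ, hs, Real.smoothTransition.zero_of_nonpos ht, zero_mul, mul_zero]
    · have h1 : T - t ≤ 0 := by linarith
      simp only [hχ, hs, Real.smoothTransition.zero_of_nonpos h1, mul_zero]
  · refine ⟨by fun_prop, fun t ht => ?_, fun t ht => ?_⟩
    · simp only [hχ, hχ', hs, Real.smoothTransition.zero_of_nonpos ht, st_deriv_of_nonpos ht,
        zero_mul, mul_zero, add_zero]
    · have h1 : T - t ≤ 0 := by linarith
      simp only [hχ, hχ', hs, Real.smoothTransition.zero_of_nonpos h1, st_deriv_of_nonpos h1,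
        mul_zero, add_zero, neg_zero]
  · intro t
    exact (hd t).mul (hχd t)
  · intro t
    exact mul_nonneg (hfnn t) (hχ0 t)
  · intro t ht
    have h1 : f t * χ t ≤ f t * 1 := mul_le_mul_of_nonneg_left (hχ1 t) (hfnn t)
    have h2 := hle t ht
    linarith
  · intro t ht
    have h1 : χ t = 1 := by
      simp only [hχ, hs]
      rw [Real.smoothTransition.one_of_one_le ht.1,
        Real.smoothTransition.one_of_one_le (by linarith [ht.2]), one_mul]
    simp only [h1, mul_one]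
    exact hge t
  · refine (cor_le_of (B := fun t => f t ^ 2) hT0.le (by fun_prop) (by fun_prop)
      fun t _ => ?_).trans (hf2int.trans ?_)
    · rw [mul_pow]
      have h1 : χ t ^ 2 ≤ 1 := pow_le_one₀ (hχ0 t) (hχ1 t)
      have h2 := sq_nonneg (f t)
      nlinarith
    · nlinarith [sq_nonneg S]
  · refine (cor_le_of (B := fun t => 2 * f' t ^ 2 + 8 * S ^ 2 * f t ^ 2) hT0.le (by fun_prop)
      (by fun_prop) fun t _ => ?_).trans ?_
    · have h1 : χ t ^ 2 ≤ 1 := pow_le_one₀ (hχ0 t) (hχ1 t)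
      have h2 : χ' t ^ 2 ≤ (2 * S) ^ 2 := by
        rw [← sq_abs]
        exact pow_le_pow_left₀ (abs_nonneg _) (hχ'1 t) 2
      have h3 : (f' t * χ t + f t * χ' t) ^ 2 ≤ 2 * (f' t * χ t) ^ 2 + 2 * (f t * χ' t) ^ 2 := by
        nlinarith [sq_nonneg (f' t * χ t - f t * χ' t)]
      have h4 : (f' t * χ t) ^ 2 ≤ f' t ^ 2 * 1 := by
        rw [mul_pow]
        exact mul_le_mul_of_nonneg_left h1 (sq_nonneg _)
      have h5 : (f t * χ' t) ^ 2 ≤ f t ^ 2 * (2 * S) ^ 2 := by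
        rw [mul_pow]
        exact mul_le_mul_of_nonneg_left h2 (sq_nonneg _)
      linarith
    · have c1 : Continuous fun t => 2 * f' t ^ 2 := by fun_prop
      have c2 : Continuous fun t => 8 * S ^ 2 * f t ^ 2 := by fun_prop
      rw [intervalIntegral.integral_add (c1.intervalIntegrable _ _) (c2.intervalIntegrable _ _),
        intervalIntegral.integral_const_mul, intervalIntegral.integral_const_mul]
      have h1 : 8 * S ^ 2 * ∫ t in (0:ℝ)..T, f t ^ 2 ≤ 8 * S ^ 2 * (9 * (T ^ (κ + 2 * ρ) * I)) :=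
        mul_le_mul_of_nonneg_left hf2int (by positivity)
      nlinarith

end Pool.Agent.U615.Smp
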