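import Pool.Agent.U615.SD

/-!
# Sampling along almost every arithmetic progression, V: comparison with the cut-off functions
-/

set_option autoImplicit false

open MeasureTheory Set Filter intervalIntegral Topology

namespace Pool.Agent.U615.Smp

lemma per_eq {g : ℝ → ℝ} {L : ℝ} (h : Spt g L) {α γ : ℝ} (hα : 0 < α) (hγ : 0 ≤ γ) {N N' : ℕ}
    (hN : L ≤ α * N) (hN' : L ≤ α * N') : per N g α γ = per N' g α γ := by
  have key : ∀ a b : ℕ, a ≤ b → L ≤ α * a → per a g α γ = per b g α γ := by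
    intro a b hab ha
    unfold per
    refine Finset.sum_subset (Finset.range_mono hab) fun n _ hn => ?_
    rw [Finset.mem_range, not_lt] at hn
    refine h.right _ (ha.trans ?_)
    have : α * (a : ℝ) ≤ α * n := mul_le_mul_of_nonneg_left (by exact_mod_cast hn) hα.le
    linarith
  rcases le_total N N' with h1 | h1
  · exact key N N' h1 hN
  · exact (key N' N h1 hN').symm

lemma card_window {α γ a : ℝ} (hα : 0 < α) (s : Finset ℕ)
    (hs : ∀ n ∈ s, a ≤ α * n + γ ∧ α * n + γ ≤ a + 1) : (s.card : ℝ) ≤ 1 / α + 1 := by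
  rcases s.eq_empty_or_nonempty with h | h
  · rw [h, Finset.card_empty, Nat.cast_zero]
    positivity
  have h1 : s ⊆ Finset.Icc (s.min' h) (s.max' h) := fun n hn =>
    Finset.mem_Icc.2 ⟨s.min'_le n hn, s.le_max' n hn⟩
  have h2 := Finset.card_le_card h1
  rw [Nat.card_Icc] at h2
  have h3 : s.min' h ≤ s.max' h := s.min'_le _ (s.max'_mem h)
  have h4 : (s.card : ℝ) ≤ (s.max' h : ℝ) + 1 - (s.min' h : ℝ) := by
    have : (s.card : ℝ) ≤ ((s.max' h + 1 - s.min' h : ℕ) : ℝ) := by exact_mod_cast h2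
    rwa [Nat.cast_sub (by omega), Nat.cast_add, Nat.cast_one] at this
  have h5 := (hs _ (s.min'_mem h)).1
  have h6 := (hs _ (s.max'_mem h)).2
  have h7 : ((s.max' h : ℝ) - (s.min' h : ℝ)) ≤ 1 / α := by
    rw [le_div_iff₀ hα]
    nlinarith
  linarith

section

variable {h : ℝ → ℝ} {κ ρ σ ε T₀ C T : ℝ} {g g' : ℝ → ℝ}

/-- the sample sum -/
noncomputable def SS (h : ℝ → ℝ) (N : ℕ) (α γ : ℝ) : ℝ := ∑ n ∈ Finset.range N, h (α * n + γ)

lemma pt_mem {α γ : ℝ} (hα : 0 < α) (hγ : γ ∈ Icc 0 α) {n N : ℕ} (hn : n < N) :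
    0 ≤ α * n + γ ∧ α * n + γ ≤ α * N := by
  have h1 : (0:ℝ) ≤ n := Nat.cast_nonneg n
  have h2 : (n : ℝ) + 1 ≤ N := by exact_mod_cast hn
  have h3 : 0 ≤ α * (n : ℝ) := by positivity
  have h4 : α * ((n : ℝ) + 1) ≤ α * N := mul_le_mul_of_nonneg_left h2 hα.le
  constructor
  · linarith [hγ.1]
  · linarith [hγ.2]

/-- comparison from above -/
lemma Cut.up (G : Cut h κ ρ σ C T g g') (H : Dat h κ ρ σ ε T₀) (hT : T₀ ≤ T)
    {α γ : ℝ} (hα : 0 < α) (hγ : γ ∈ Icc 0 α) {N N' : ℕ} (hN : α * N ≤ T) (hN' : T ≤ α * N') :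
    SS h N α γ ≤ per N' g α γ + 2 * (1 / α + 1) * T ^ (κ + ε) := by
  have hT0 : 0 < T := by linarith [H.two]
  have hNN : N ≤ N' := by
    have h1 : α * (N : ℝ) ≤ α * N' := hN.trans hN'
    have h2 : (N : ℝ) ≤ N' := le_of_mul_le_mul_left h1 hα
    exact_mod_cast h2
  set X := T ^ (κ + ε) with hX
  have hX0 : 0 ≤ X := by positivity
  set s1 := (Finset.range N).filter (fun n : ℕ => α * (n : ℝ) + γ ≤ 1) with hs1
  set s2 := (Finset.range N).filter (fun n : ℕ => T - 1 ≤ α * (n : ℝ) + γ) with hs2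
  have c1 : (s1.card : ℝ) ≤ 1 / α + 1 := by
    refine card_window (a := 0) (γ := γ) hα s1 fun n hn => ?_
    rw [hs1, Finset.mem_filter, Finset.mem_range] at hn
    exact ⟨(pt_mem hα hγ hn.1).1, by linarith [hn.2]⟩
  have c2 : (s2.card : ℝ) ≤ 1 / α + 1 := by
    refine card_window (a := T - 1) (γ := γ) hα s2 fun n hn => ?_
    rw [hs2, Finset.mem_filter, Finset.mem_range] at hn
    exact ⟨hn.2, by linarith [(pt_mem hα hγ hn.1).2]⟩
  have h1 : SS h N α γ ≤ ∑ n ∈ Finset.range N, (g (α * n + γ) +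
      ((if α * (n : ℝ) + γ ≤ 1 then X else 0) + (if T - 1 ≤ α * (n : ℝ) + γ then X else 0))) := by
    unfold SS
    refine Finset.sum_le_sum fun n hn => ?_
    rw [Finset.mem_range] at hn
    have hp := pt_mem hα hγ hn
    have hmem : α * (n : ℝ) + γ ∈ Icc 0 T := ⟨hp.1, hp.2.trans hN⟩
    have hsup := H.sup T hT _ hmem
    have hg0 := G.nn (α * n + γ)
    rw [← hX] at hsup
    by_cases h2 : α * (n : ℝ) + γ ≤ 1
    · rw [if_pos h2]
      have : 0 ≤ (if T - 1 ≤ α * (n : ℝ) + γ then X else 0) := by split_ifs <;> linarith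
      linarith
    · rw [if_neg h2]
      by_cases h3 : T - 1 ≤ α * (n : ℝ) + γ
      · rw [if_pos h3]
        linarith
      · rw [if_neg h3]
        have := G.ge _ (⟨(not_le.1 h2).le, (not_le.1 h3).le⟩ : α * (n : ℝ) + γ ∈ Icc 1 (T - 1))
        linarith
  have h2 : ∑ n ∈ Finset.range N, g (α * n + γ) ≤ per N' g α γ := by
    unfold per
    exact Finset.sum_le_sum_of_subset_of_nonneg (Finset.range_mono hNN) fun n _ _ => G.nn _
  rw [Finset.sum_add_distrib, Finset.sum_add_distrib, ← Finset.sum_filter, ← Finset.sum_filter,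
    Finset.sum_const, Finset.sum_const, nsmul_eq_mul, nsmul_eq_mul] at h1
  have h3 : (s1.card : ℝ) * X ≤ (1 / α + 1) * X := mul_le_mul_of_nonneg_right c1 hX0
  have h4 : (s2.card : ℝ) * X ≤ (1 / α + 1) * X := mul_le_mul_of_nonneg_right c2 hX0
  linarith

/-- comparison from below -/
lemma Cut.low (G : Cut h κ ρ σ C T g g') (H : Dat h κ ρ σ ε T₀) (hT : T₀ ≤ T)
    {α γ : ℝ} (hα : 0 < α) (hγ : γ ∈ Icc 0 α) {N N' : ℕ} (hN : T ≤ α * N) (hN' : T ≤ α * N') :
    per N' g α γ ≤ SS h N α γ + T ^ (-σ) * (N + SS h N α γ) := by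
  have hT0 : 0 < T := by linarith [H.two]
  set e := T ^ (-σ) with he
  have he0 : 0 ≤ e := by positivity
  rw [per_eq G.sg hα hγ.1 hN' hN]
  unfold per SS
  have e1 : ∑ n ∈ Finset.range N, h (α * n + γ) + e * (N + ∑ n ∈ Finset.range N, h (α * n + γ)) =
      ∑ n ∈ Finset.range N, (h (α * n + γ) + e * (1 + h (α * n + γ))) := by
    rw [Finset.sum_add_distrib, ← Finset.mul_sum, Finset.sum_add_distrib]
    simp
  rw [e1]
  refine Finset.sum_le_sum fun n hn => ?_
  rw [Finset.mem_range] at hn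
  have hp := pt_mem hα hγ hn
  have hh := H.nn (α * n + γ)
  rcases le_or_gt (α * (n : ℝ) + γ) T with h1 | h1
  · exact G.le _ ⟨hp.1, h1⟩
  · rw [G.sg.right _ h1.le]
    positivity

/-- the mean value from above -/
lemma Cut.mean_up (G : Cut h κ ρ σ C T g g') (H : Dat h κ ρ σ ε T₀) (hT : T₀ ≤ T) :
    ∫ t in (0:ℝ)..T, g t ≤ (∫ t in (0:ℝ)..T, h t) + T ^ (-σ) * (T + ∫ t in (0:ℝ)..T, h t) := by
  have hT0 : 0 < T := by linarith [H.two]
  have hh := H.cont
  have hg := G.sg.cont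
  calc ∫ t in (0:ℝ)..T, g t ≤ ∫ t in (0:ℝ)..T, (h t + T ^ (-σ) * (1 + h t)) := by
        refine intervalIntegral.integral_mono_on hT0.le (hg.intervalIntegrable _ _) ?_ G.le
        have : Continuous fun t => h t + T ^ (-σ) * (1 + h t) := by fun_prop
        exact this.intervalIntegrable _ _
    _ = _ := by
        have c1 : Continuous fun t => T ^ (-σ) * (1 + h t) := by fun_prop
        rw [intervalIntegral.integral_add (hh.intervalIntegrable _ _) (c1.intervalIntegrable _ _),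
          intervalIntegral.integral_const_mul, intervalIntegral.integral_add
          (_root_.intervalIntegrable_const) (hh.intervalIntegrable _ _), intervalIntegral.integral_const]
        simp

/-- the mean value from below -/
lemma Cut.mean_low (G : Cut h κ ρ σ C T g g') (H : Dat h κ ρ σ ε T₀) (hT : T₀ ≤ T) :
    (∫ t in (0:ℝ)..T, h t) - 2 * T ^ (κ + ε) ≤ ∫ t in (0:ℝ)..T, g t := by
  have hT2 : 2 ≤ T := H.two.trans hT
  have hh := H.cont
  have hg := G.sg.cont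
  have hi : ∀ a b : ℝ, IntervalIntegrable h volume a b := fun a b => hh.intervalIntegrable _ _
  have h1 : ∫ t in (1:ℝ)..(T - 1), h t ≤ ∫ t in (1:ℝ)..(T - 1), g t :=
    intervalIntegral.integral_mono_on (by linarith) (hi _ _) (hg.intervalIntegrable _ _) G.ge
  have h2 : ∫ t in (1:ℝ)..(T - 1), g t ≤ ∫ t in (0:ℝ)..T, g t :=
    intervalIntegral.integral_mono_interval (by norm_num) (by linarith) (by linarith)
      (Eventually.of_forall G.nn) (hg.intervalIntegrable _ _)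
  have h3 : ∀ a : ℝ, 0 ≤ a → a + 1 ≤ T → ∫ t in a..(a + 1), h t ≤ T ^ (κ + ε) := by
    intro a ha hb
    calc ∫ t in a..(a + 1), h t ≤ ∫ t in a..(a + 1), T ^ (κ + ε) := by
          refine intervalIntegral.integral_mono_on (by linarith) (hi _ _)
            (_root_.intervalIntegrable_const) fun t ht => ?_
          exact H.sup T hT t ⟨ha.trans ht.1, ht.2.trans hb⟩
      _ = T ^ (κ + ε) := by
          rw [intervalIntegral.integral_const]
          simp
  have h4 := h3 0 le_rfl (by linarith)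
  have h5 := h3 (T - 1) (by linarith) (by linarith)
  rw [zero_add] at h4
  rw [sub_add_cancel] at h5
  have h6 : ∫ t in (0:ℝ)..T, h t = (∫ t in (0:ℝ)..1, h t) + (∫ t in (1:ℝ)..(T - 1), h t) +
      ∫ t in (T - 1)..T, h t := by
    rw [integral_add_adjacent_intervals (hi _ _) (hi _ _),
      integral_add_adjacent_intervals (hi _ _) (hi _ _)]
  linarith

end

section

variable {κ ρ σ ε T Y : ℝ}

lemma pw_a (P : Par κ ρ σ ε) (hT : 1 ≤ T) (h1 : T ^ (1 - ε) ≤ Y) : T ≤ Y ^ (1 + 2 * ε) := by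
  have hε1 : ε ≤ 1 / 8 := by linarith [P.ε1, P.σ1, P.ρ1, P.κ0, P.ρ0]
  have hT0 : 0 < T := by linarith
  have hY : 0 < Y := lt_of_lt_of_le (Real.rpow_pos_of_pos hT0 _) h1
  have hT1 : 1 ≤ T ^ (1 - ε) := Real.one_le_rpow hT (by linarith)
  have hY1 : 1 ≤ Y := hT1.trans h1
  calc T = (T ^ (1 - ε)) ^ (1 / (1 - ε)) := by
        rw [← Real.rpow_mul hT0.le, mul_one_div_cancel (by linarith), Real.rpow_one]
    _ ≤ Y ^ (1 / (1 - ε)) := Real.rpow_le_rpow (by positivity) h1 (by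
        have : 0 < 1 - ε := by linarith
        positivity)
    _ ≤ Y ^ (1 + 2 * ε) := by
        refine Real.rpow_le_rpow_of_exponent_le hY1 ?_
        rw [div_le_iff₀ (by linarith)]
        nlinarith [P.ε0]

lemma pw_pow (P : Par κ ρ σ ε) (hT : 1 ≤ T) (h1 : T ^ (1 - ε) ≤ Y) {a : ℝ} (ha : 0 ≤ a)
    (ha1 : a ≤ 1) : T ^ a ≤ Y ^ (a + 2 * ε) := by
  have hT0 : 0 < T := by linarith
  have hε1 : ε ≤ 1 / 8 := by linarith [P.ε1, P.σ1, P.ρ1, P.κ0, P.ρ0]
  have hT1 : 1 ≤ T ^ (1 - ε) := Real.one_le_rpow hT (by linarith)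
  have hY1 : 1 ≤ Y := hT1.trans h1
  calc T ^ a ≤ (Y ^ (1 + 2 * ε)) ^ a := Real.rpow_le_rpow hT0.le (pw_a P hT h1) ha
    _ = Y ^ ((1 + 2 * ε) * a) := by rw [← Real.rpow_mul (by linarith)]
    _ ≤ Y ^ (a + 2 * ε) := by
        refine Real.rpow_le_rpow_of_exponent_le hY1 ?_
        nlinarith [P.ε0]

lemma pw_b (P : Par κ ρ σ ε) (hT : 1 ≤ T) (hY : 0 < Y) (h2 : Y ≤ T ^ 2) :
    T ^ (-σ) ≤ Y ^ (-(σ / 2)) := by
  have hT0 : 0 < T := by linarith
  rw [Real.rpow_neg hT0.le, Real.rpow_neg hY.le]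
  refine inv_anti₀ (by positivity) ?_
  calc Y ^ (σ / 2) ≤ (T ^ 2) ^ (σ / 2) := Real.rpow_le_rpow hY.le h2 (by linarith [P.σ0])
    _ = T ^ σ := by
        rw [← Real.rpow_natCast, ← Real.rpow_mul hT0.le]
        congr 1
        push_cast
        ring

end

end Pool.Agent.U615.Smp
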