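import Pool.Agent.U615.SE

/-!
# Sampling along almost every arithmetic progression, VI: a sequence of heights
-/

set_option autoImplicit false

open MeasureTheory Set Filter intervalIntegral Topology

namespace Pool.Agent.U615.Smp

lemma num {κ ρ σ ε A B C : ℝ} (P : Par κ ρ σ ε) (hC : 0 ≤ C) {p : ℕ} (hp : 2 ≤ ρ * p) :
    ∃ C₃ : ℝ, 0 ≤ C₃ ∧ ∀ (m : ℕ) (T : ℝ), 1 ≤ m → 1 ≤ T → T ^ (1 - ε) ≤ (m : ℝ) ^ p →
      ∀ k : ℕ, k ≤ m → 2 * (((k : ℝ) + 1) ^ 2 * |Real.log (B / A) + 2 + 2 * Real.log (T / A)| *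
        (C * (T ^ (κ + 2 * ρ) * (m : ℝ) ^ p))) ≤ C₃ * (((m : ℝ) ^ p) ^ (1 - ρ)) ^ 2 := by
  have hρ := P.ρ0
  set C2 := |Real.log (B / A)| + 2 + 2 * |Real.log A| + 4 / ρ with hC2
  have hC20 : 0 ≤ C2 := by positivity
  refine ⟨8 * C2 * C, by positivity, ?_⟩
  intro m T hm hT h1 k hk
  set Y : ℝ := (m : ℝ) ^ p with hY
  have hm1 : (1:ℝ) ≤ m := by exact_mod_cast hm
  have hY1 : 1 ≤ Y := one_le_pow₀ hm1
  have hY0 : 0 < Y := by linarith
  have hT0 : 0 < T := by linarith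
  have hYρ : 1 ≤ Y ^ ρ := Real.one_le_rpow hY1 hρ.le
  have b1 : ((k : ℝ) + 1) ^ 2 ≤ 4 * Y ^ ρ := by
    have h2 : (k : ℝ) ≤ m := by exact_mod_cast hk
    have h3 : ((k : ℝ) + 1) ^ 2 ≤ (2 * m) ^ 2 := by
      apply pow_le_pow_left₀ (by positivity)
      linarith
    have h4 : (m : ℝ) ^ 2 ≤ Y ^ ρ := by
      rw [hY, ← Real.rpow_natCast (m : ℝ) p, ← Real.rpow_mul (by positivity), ← Real.rpow_natCast]
      refine Real.rpow_le_rpow_of_exponent_le hm1 ?_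
      push_cast
      linarith
    nlinarith
  have b2 : |Real.log (B / A) + 2 + 2 * Real.log (T / A)| ≤ C2 * Y ^ ρ := by
    have hlT : |Real.log T| ≤ 2 / ρ * Y ^ ρ := by
      rw [abs_of_nonneg (Real.log_nonneg hT)]
      have h2 := Real.log_le_rpow_div hT0.le (ε := ρ / 2) (by positivity)
      have h3 : T ^ (ρ / 2) ≤ Y ^ ρ := by
        refine (pw_pow P hT h1 (a := ρ / 2) (by positivity) (by linarith [P.ρ1, P.κ0])).trans ?_
        refine Real.rpow_le_rpow_of_exponent_le hY1 ?_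
        linarith [P.ε1, P.σ1]
      calc Real.log T ≤ T ^ (ρ / 2) / (ρ / 2) := h2
        _ = 2 / ρ * T ^ (ρ / 2) := by field_simp
        _ ≤ 2 / ρ * Y ^ ρ := mul_le_mul_of_nonneg_left h3 (by positivity)
    have hlTA : |Real.log (T / A)| ≤ |Real.log T| + |Real.log A| := by
      rcases eq_or_ne A 0 with h2 | h2
      · rw [h2, div_zero, Real.log_zero, abs_zero]
        positivity
      · rw [Real.log_div hT0.ne' h2]
        exact abs_sub _ _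
    calc |Real.log (B / A) + 2 + 2 * Real.log (T / A)| ≤
          |Real.log (B / A)| + 2 + 2 * |Real.log (T / A)| := by
            refine (abs_add_le _ _).trans (add_le_add ((abs_add_le _ _).trans ?_) ?_)
            · rw [abs_two]
            · rw [abs_mul, abs_two]
      _ ≤ |Real.log (B / A)| + 2 + 2 * (2 / ρ * Y ^ ρ + |Real.log A|) := by linarith
      _ = (|Real.log (B / A)| + 2 + 2 * |Real.log A|) * 1 + 4 / ρ * Y ^ ρ := by ring
      _ ≤ (|Real.log (B / A)| + 2 + 2 * |Real.log A|) * Y ^ ρ + 4 / ρ * Y ^ ρ := by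
          have := mul_le_mul_of_nonneg_left hYρ
            (show 0 ≤ |Real.log (B / A)| + 2 + 2 * |Real.log A| by positivity)
          linarith
      _ = C2 * Y ^ ρ := by rw [hC2]; ring
  have b3 : T ^ (κ + 2 * ρ) ≤ Y ^ (κ + 3 * ρ) := by
    refine (pw_pow P hT h1 (a := κ + 2 * ρ) (by linarith [P.κ0]) (by linarith [P.ρ1, P.κ0])).trans ?_
    refine Real.rpow_le_rpow_of_exponent_le hY1 ?_
    linarith [P.ε1, P.σ1]
  calc 2 * (((k : ℝ) + 1) ^ 2 * |Real.log (B / A) + 2 + 2 * Real.log (T / A)| *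
        (C * (T ^ (κ + 2 * ρ) * Y))) ≤
        2 * ((4 * Y ^ ρ) * (C2 * Y ^ ρ) * (C * (Y ^ (κ + 3 * ρ) * Y))) := by
        refine mul_le_mul_of_nonneg_left ?_ zero_le_two
        refine mul_le_mul (mul_le_mul b1 b2 (abs_nonneg _) (by positivity)) ?_ (by positivity)
          (by positivity)
        exact mul_le_mul_of_nonneg_left (mul_le_mul_of_nonneg_right b3 hY0.le) hC
    _ = 8 * C2 * C * (Y ^ ρ * Y ^ ρ * (Y ^ (κ + 3 * ρ) * Y ^ (1:ℝ))) := by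
        rw [Real.rpow_one]; ring
    _ = 8 * C2 * C * Y ^ (ρ + ρ + (κ + 3 * ρ + 1)) := by
        rw [← Real.rpow_add hY0, ← Real.rpow_add hY0, ← Real.rpow_add hY0]
    _ ≤ 8 * C2 * C * (Y ^ (1 - ρ)) ^ 2 := by
        refine mul_le_mul_of_nonneg_left ?_ (by positivity)
        rw [← Real.rpow_natCast (Y ^ (1 - ρ)) 2, ← Real.rpow_mul hY0.le]
        refine Real.rpow_le_rpow_of_exponent_le hY1 ?_
        push_cast
        linarith [P.ρ1]

section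

variable {h : ℝ → ℝ} {κ ρ σ ε T₀ : ℝ}

lemma Dat.prim_cont (H : Dat h κ ρ σ ε T₀) : Continuous fun T : ℝ => ∫ t in (0:ℝ)..T, h t :=
  intervalIntegral.continuous_primitive (fun _ _ => H.cont.intervalIntegrable _ _) 0

lemma Dat.prim_mono (H : Dat h κ ρ σ ε T₀) {a b : ℝ} (ha : 0 ≤ a) (hab : a ≤ b) :
    ∫ t in (0:ℝ)..a, h t ≤ ∫ t in (0:ℝ)..b, h t :=
  intervalIntegral.integral_mono_interval le_rfl ha hab (Eventually.of_forall H.nn)
    (H.cont.intervalIntegrable _ _)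

lemma Dat.exists_height (H : Dat h κ ρ σ ε T₀) (P : Par κ ρ σ ε) {y : ℝ} (hy : 0 ≤ y) :
    ∃ T : ℝ, 0 ≤ T ∧ ∫ t in (0:ℝ)..T, h t = y := by
  have hε1 : ε ≤ 1 / 8 := by linarith [P.ε1, P.σ1, P.ρ1, P.κ0, P.ρ0]
  have h1 : Tendsto (fun T : ℝ => T ^ (1 - ε)) atTop atTop := tendsto_rpow_atTop (by linarith)
  obtain ⟨R, hR1, hR2⟩ := ((h1.eventually_ge_atTop y).and (eventually_ge_atTop T₀)).exists
  have hR0 : 0 ≤ R := by linarith [H.two]
  have h2 := intermediate_value_Icc hR0 H.prim_cont.continuousOn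
  simp only [intervalIntegral.integral_same] at h2
  obtain ⟨T, hT, hT2⟩ := h2 ⟨hy, hR1.trans (H.low R hR2)⟩
  exact ⟨T, hT.1, hT2⟩

theorem seq {C : ℝ} (hC : 1 ≤ C) (P : Par κ ρ σ ε) (H : Dat h κ ρ σ ε T₀)
    (hcut : ∀ T, T₀ ≤ T → ∃ g g' : ℝ → ℝ, Cut h κ ρ σ C T g g') {p : ℕ} (hp : 2 ≤ ρ * p)
    (T : ℕ → ℝ) (hTm : ∀ m : ℕ, ∫ t in (0:ℝ)..(T m), h t = (m : ℝ) ^ p)
    (hlim : Tendsto T atTop atTop) {A B : ℝ} (hA : 0 < A) (hAB : A ≤ B) :
    ∀ᵐ α ∂volume.restrict (Ioc A B), ∃ C₄ : ℝ, 0 ≤ C₄ ∧ ∀ᶠ m : ℕ in atTop,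
      ∃ g g' : ℝ → ℝ, Cut h κ ρ σ C (T m) g g' ∧ ∀ N : ℕ, T m ≤ α * N → ∀ γ ∈ Icc 0 α,
        |per N g α γ - (∫ t in (0:ℝ)..(T m), g t) / α| ≤ C₄ * ((m : ℝ) ^ p) ^ (1 - ρ) := by
  obtain ⟨m₀, hm₀⟩ := eventually_atTop.1
    ((hlim.eventually_ge_atTop (max T₀ A)).and (eventually_ge_atTop 1))
  have hTT : ∀ k, T₀ ≤ T (k + m₀) := fun k => (le_max_left _ _).trans (hm₀ _ (by omega)).1
  have hTA : ∀ k, A ≤ T (k + m₀) := fun k => (le_max_right _ _).trans (hm₀ _ (by omega)).1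
  have hm1 : ∀ k, 1 ≤ k + m₀ := fun k => (hm₀ (k + m₀) (by omega)).2
  choose g g' G using fun k => hcut (T (k + m₀)) (hTT k)
  set N₁ : ℕ → ℕ := fun k => ⌊T (k + m₀) / A⌋₊ + 1 with hN₁
  have hN₁' : ∀ k, T (k + m₀) < A * N₁ k := by
    intro k
    have h1 := Nat.lt_floor_add_one (T (k + m₀) / A)
    rw [div_lt_iff₀ hA] at h1
    rw [hN₁]
    push_cast
    linarith
  set Q : ℕ → ℝ := fun k => C * (T (k + m₀) ^ (κ + 2 * ρ) * ∫ t in (0:ℝ)..(T (k + m₀)), h t) with hQ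
  have hI0 : ∀ k, 0 < ∫ t in (0:ℝ)..(T (k + m₀)), h t := by
    intro k
    have h1 := H.low _ (hTT k)
    have h2 : 0 < T (k + m₀) := by linarith [hTT k, H.two]
    exact lt_of_lt_of_le (Real.rpow_pos_of_pos h2 _) h1
  have hQ0 : ∀ k, 0 < Q k := by
    intro k
    have h2 : 0 < T (k + m₀) := by linarith [hTT k, H.two]
    have := hI0 k
    rw [hQ]
    positivity
  have a1 := ae_var hA hAB g (fun k => T (k + m₀)) Q N₁ (fun k => (G k).sg) hTA hN₁'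
    (fun k => (G k).c0) hQ0
  have a2 := ae_var hA hAB g' (fun k => T (k + m₀)) Q N₁ (fun k => (G k).sg') hTA hN₁'
    (fun k => (G k).c1) hQ0
  obtain ⟨C₃, hC₃, hnum⟩ := num (A := A) (B := B) (C := C) P (by linarith) hp
  filter_upwards [a1, a2, ae_restrict_mem measurableSet_Ioc] with α h1 h2 hα
  have hα0 : 0 < α := hA.trans hα.1
  refine ⟨C₃ + 1, by linarith, ?_⟩
  obtain ⟨k₁, hk₁⟩ := eventually_atTop.1 (h1.and h2)
  filter_upwards [eventually_ge_atTop (k₁ + m₀)] with m hm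
  obtain ⟨k, rfl⟩ : ∃ k, m = k + m₀ := ⟨m - m₀, by omega⟩
  obtain ⟨v1, v2⟩ := hk₁ k (by omega)
  refine ⟨g k, g' k, G k, fun N hN γ hγ => ?_⟩
  have hTk2 : 2 ≤ T (k + m₀) := H.two.trans (hTT k)
  have hNα : T (k + m₀) ≤ α * N₁ k := (hN₁' k).le.trans
    (mul_le_mul_of_nonneg_right hα.1.le (Nat.cast_nonneg _))
  rw [per_eq (G k).sg hα0 hγ.1 hN hNα]
  have h3 := (G k).sg.sup (G k).sg' (G k).hd (by linarith) hα0 hNα (lam := 1) one_pos hγ
  rw [inv_one, one_mul, one_mul] at h3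
  set Y : ℝ := ((k + m₀ : ℕ) : ℝ) ^ p with hY
  have hlow := H.low _ (hTT k)
  rw [hTm] at hlow
  have h4 := hnum (k + m₀) (T (k + m₀)) (hm1 k) (by linarith) hlow k (by omega)
  rw [← hY] at h4
  have h5 : Q k = C * (T (k + m₀) ^ (κ + 2 * ρ) * Y) := by
    rw [hQ]
    simp only
    rw [hTm]
  have hb : ((k : ℝ) + 1) ^ 2 * (Real.log (B / A) + 2 + 2 * Real.log (T (k + m₀) / A)) * Q k ≤
      ((k : ℝ) + 1) ^ 2 * |Real.log (B / A) + 2 + 2 * Real.log (T (k + m₀) / A)| *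
        (C * (T (k + m₀) ^ (κ + 2 * ρ) * Y)) := by
    rw [← h5]
    refine mul_le_mul_of_nonneg_right ?_ (hQ0 k).le
    exact mul_le_mul_of_nonneg_left (le_abs_self _) (by positivity)
  have h6 : (per (N₁ k) (g k) α γ - (∫ t in (0:ℝ)..(T (k + m₀)), g k t) / α) ^ 2 ≤
      C₃ * (Y ^ (1 - ρ)) ^ 2 := by
    linarith
  have hY0 : 0 ≤ Y := by positivity
  refine abs_le_of_sq_le_sq (h6.trans ?_) (by positivity)
  rw [mul_pow]
  refine mul_le_mul_of_nonneg_right ?_ (by positivity)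
  nlinarith

end

end Pool.Agent.U615.Smp
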