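import Pool.Agent.U615.SF

/-!
# Sampling along almost every arithmetic progression, VII: the general theorem
-/

set_option autoImplicit false

open MeasureTheory Set Filter intervalIntegral Topology

namespace Pool.Agent.U615.Smp

lemma pow_sub_le {a b : ℝ} (ha : 0 ≤ a) (hab : a ≤ b) (p : ℕ) :
    b ^ p - a ^ p ≤ p * (b - a) * b ^ (p - 1) := by
  rcases Nat.eq_zero_or_pos p with h | h
  · subst h; simp
  obtain ⟨q, rfl⟩ : ∃ q, p = q + 1 := ⟨p - 1, by omega⟩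
  rw [Nat.add_sub_cancel]
  clear h
  induction q with
  | zero => simp
  | succ q ih =>
    have hb : 0 ≤ b := ha.trans hab
    have h1 : a ^ (q + 1) ≤ b ^ (q + 1) := pow_le_pow_left₀ ha hab _
    have e1 : b ^ (q + 1 + 1) - a ^ (q + 1 + 1) = b * (b ^ (q + 1) - a ^ (q + 1)) +
        (b - a) * a ^ (q + 1) := by ring
    have h2 : b * (b ^ (q + 1) - a ^ (q + 1)) ≤ b * (((q + 1 : ℕ) : ℝ) * (b - a) * b ^ q) :=
      mul_le_mul_of_nonneg_left ih hb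
    have h3 : (b - a) * a ^ (q + 1) ≤ (b - a) * b ^ (q + 1) :=
      mul_le_mul_of_nonneg_left h1 (by linarith)
    rw [e1]
    calc b * (b ^ (q + 1) - a ^ (q + 1)) + (b - a) * a ^ (q + 1) ≤
        b * (((q + 1 : ℕ) : ℝ) * (b - a) * b ^ q) + (b - a) * b ^ (q + 1) := add_le_add h2 h3
      _ = ((q + 1 + 1 : ℕ) : ℝ) * (b - a) * b ^ (q + 1) := by
          push_cast; ring

section

variable {h : ℝ → ℝ} {κ ρ σ ε T₀ : ℝ}

lemma Dat.prim_le_sq (H : Dat h κ ρ σ ε T₀) (P : Par κ ρ σ ε) {T : ℝ} (hT : T₀ ≤ T) :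
    ∫ t in (0:ℝ)..T, h t ≤ T ^ 2 := by
  have hT2 : 2 ≤ T := H.two.trans hT
  calc ∫ t in (0:ℝ)..T, h t ≤ ∫ t in (0:ℝ)..T, T ^ (κ + ε) :=
        intervalIntegral.integral_mono_on (by linarith) (H.cont.intervalIntegrable _ _)
          (_root_.intervalIntegrable_const) (H.sup T hT)
    _ = T * T ^ (κ + ε) := by
        rw [intervalIntegral.integral_const, sub_zero, smul_eq_mul]
    _ ≤ T * T ^ (1:ℝ) := by
        refine mul_le_mul_of_nonneg_left ?_ (by linarith)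
        refine Real.rpow_le_rpow_of_exponent_le (by linarith) ?_
        linarith [P.ρ1, P.ε1, P.σ1, P.ρ0]
    _ = T ^ 2 := by rw [Real.rpow_one]; ring

/-- the bounds at one height -/
lemma Dat.bounds (H : Dat h κ ρ σ ε T₀) (P : Par κ ρ σ ε) {T y δ : ℝ} (hT : T₀ ≤ T)
    (hy : ∫ t in (0:ℝ)..T, h t = y) (hδ : δ ≤ σ / 4) :
    1 ≤ y ∧ T ≤ y ^ (1 + 2 * ε) ∧ T ^ (κ + ε) ≤ y ^ (1 - δ) ∧ T ^ (-σ) * T ≤ y ^ (1 - δ) ∧
      T ^ (-σ) * y ≤ y ^ (1 - δ) ∧ y ^ (1 - ρ) ≤ y ^ (1 - δ) ∧ T ^ (-σ) ≤ y ^ (-(σ / 2)) := by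
  have hT2 : 2 ≤ T := H.two.trans hT
  have hT1 : 1 ≤ T := by linarith
  have hT0 : 0 < T := by linarith
  have hlow := H.low T hT
  rw [hy] at hlow
  have hsq := H.prim_le_sq P hT
  rw [hy] at hsq
  have hε1 : ε ≤ 1 / 8 := by linarith [P.ε1, P.σ1, P.ρ1, P.κ0, P.ρ0]
  have hy1 : 1 ≤ y := (Real.one_le_rpow hT1 (by linarith : 0 ≤ 1 - ε)).trans hlow
  have hy0 : 0 < y := by linarith
  have hb := pw_b P hT1 hy0 hsq
  refine ⟨hy1, pw_a P hT1 hlow, ?_, ?_, ?_, ?_, hb⟩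
  · refine (pw_pow P hT1 hlow (a := κ + ε) (by linarith [P.κ0, P.ε0])
      (by linarith [P.ρ1, P.ε1, P.σ1, P.ρ0])).trans ?_
    refine Real.rpow_le_rpow_of_exponent_le hy1 ?_
    linarith [P.ρ1, P.ε1, P.σ1, P.ρ0]
  · have e1 : T ^ (-σ) * T = T ^ (1 - σ) := by
      nth_rewrite 2 [← Real.rpow_one T]
      rw [← Real.rpow_add hT0]
      congr 1; ring
    rw [e1]
    refine (pw_pow P hT1 hlow (a := 1 - σ) (by linarith [P.ρ1, P.σ1, P.κ0, P.ρ0])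
      (by linarith [P.σ0])).trans ?_
    refine Real.rpow_le_rpow_of_exponent_le hy1 ?_
    linarith [P.ε1, P.σ1, P.ρ0, P.σ0]
  · calc T ^ (-σ) * y ≤ y ^ (-(σ / 2)) * y ^ (1:ℝ) := by
          rw [Real.rpow_one]
          exact mul_le_mul_of_nonneg_right hb hy0.le
      _ = y ^ (-(σ / 2) + 1) := by rw [← Real.rpow_add hy0]
      _ ≤ y ^ (1 - δ) := by
          refine Real.rpow_le_rpow_of_exponent_le hy1 ?_
          linarith [P.σ0]
  · refine Real.rpow_le_rpow_of_exponent_le hy1 ?_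
    linarith [P.σ1, P.ρ0]

/-- the final estimate for one difference `α` -/
lemma Dat.final (H : Dat h κ ρ σ ε T₀) (P : Par κ ρ σ ε) {C : ℝ} {p : ℕ}
    (hp : 1 ≤ p) (Tm : ℕ → ℝ) (hTm0 : ∀ m, 0 ≤ Tm m)
    (hTm : ∀ m : ℕ, ∫ t in (0:ℝ)..(Tm m), h t = (m : ℝ) ^ p) (hlim : Tendsto Tm atTop atTop)
    {δ : ℝ} (hδ : δ ≤ σ / 4) (hδp : δ ≤ 1 / p) (hδ0 : 0 < δ) {α : ℝ} (hα : 0 < α) {C₄ : ℝ} (hC₄ : 0 ≤ C₄)
    (hseq : ∀ᶠ m : ℕ in atTop,
      ∃ g g' : ℝ → ℝ, Cut h κ ρ σ C (Tm m) g g' ∧ ∀ N : ℕ, Tm m ≤ α * N → ∀ γ ∈ Icc 0 α,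
        |per N g α γ - (∫ t in (0:ℝ)..(Tm m), g t) / α| ≤ C₄ * ((m : ℝ) ^ p) ^ (1 - ρ)) :
    ∃ C₅ : ℝ, 0 ≤ C₅ ∧ ∀ᶠ T : ℝ in atTop, ∀ N : ℕ, α * N = T → ∀ γ ∈ Icc 0 α,
      |α * SS h N α γ - ∫ t in (0:ℝ)..T, h t| ≤ C₅ * (∫ t in (0:ℝ)..T, h t) ^ (1 - δ) := by
  have hp0 : (0:ℝ) < p := by exact_mod_cast hp
  have hδ1 : δ ≤ 1 := by linarith [P.σ1, P.ρ1, P.κ0, P.ρ0]
  set K₁ : ℝ := (p + (4 + α * C₄ + 2 * α)) * 2 ^ p with hK₁
  have hK₁0 : 0 ≤ K₁ := by positivity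
  set K₂ : ℝ := 2 * p * 2 ^ p + (2 + α * C₄) + 3 ^ p * (2 + K₁) with hK₂
  have hK₂0 : 0 ≤ K₂ := by positivity
  refine ⟨K₁ + K₂, by positivity, ?_⟩
  obtain ⟨M, hM⟩ := eventually_atTop.1 (hseq.and (hlim.eventually_ge_atTop T₀))
  have hε1 : ε ≤ 1 / 8 := by linarith [P.ε1, P.σ1, P.ρ1, P.κ0, P.ρ0]
  have hgrow : Tendsto (fun T : ℝ => T ^ (1 - ε)) atTop atTop := tendsto_rpow_atTop (by linarith)
  filter_upwards [eventually_ge_atTop T₀, hgrow.eventually_ge_atTop (((M : ℝ) + 3) ^ p)]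
    with T hT hTM N hN γ hγ
  set Y := ∫ t in (0:ℝ)..T, h t with hY
  have hT2 : 2 ≤ T := H.two.trans hT
  have hYM : ((M : ℝ) + 3) ^ p ≤ Y := hTM.trans (H.low T hT)
  obtain ⟨hY1, hTY, -, -, -, -, -⟩ := H.bounds P hT hY.symm hδ
  have hY0 : 0 < Y := by linarith
  -- the index
  set m : ℕ := ⌊Y ^ (1 / (p : ℝ))⌋₊ with hm
  have hroot : (Y ^ (1 / (p : ℝ))) ^ p = Y := by
    rw [← Real.rpow_natCast, ← Real.rpow_mul hY0.le, one_div_mul_cancel hp0.ne', Real.rpow_one]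
  have hroot0 : 0 ≤ Y ^ (1 / (p : ℝ)) := by positivity
  have hm1 : (m : ℝ) ^ p ≤ Y := by
    rw [← hroot]
    exact pow_le_pow_left₀ (Nat.cast_nonneg _) (Nat.floor_le hroot0) _
  have hm2 : Y < ((m : ℝ) + 1) ^ p := by
    have := pow_lt_pow_left₀ (Nat.lt_floor_add_one (Y ^ (1 / (p : ℝ)))) hroot0 (by omega : p ≠ 0)
    rwa [hroot] at this
  have hmM : M + 3 ≤ m := by
    rw [hm]
    apply Nat.le_floor
    push_cast
    have h1 : (((M : ℝ) + 3) ^ p) ^ (1 / (p : ℝ)) ≤ Y ^ (1 / (p : ℝ)) :=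
      Real.rpow_le_rpow (by positivity) hYM (by positivity)
    rwa [← Real.rpow_natCast ((M : ℝ) + 3) p, ← Real.rpow_mul (by positivity),
      mul_one_div_cancel hp0.ne', Real.rpow_one] at h1
  have hmR : (3:ℝ) ≤ m := by
    have : 3 ≤ m := by omega
    exact_mod_cast this
  -- the heights
  clear_value m
  obtain ⟨n, rfl⟩ : ∃ n, m = n + 1 := ⟨m - 1, by omega⟩
  set V := Tm n with hV
  set U := Tm (n + 2) with hU
  have hVI : ∫ t in (0:ℝ)..V, h t = (n : ℝ) ^ p := hTm n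
  have hUI : ∫ t in (0:ℝ)..U, h t = ((n : ℝ) + 2) ^ p := by
    rw [hU, hTm]; push_cast; ring
  push_cast at hm1 hm2 hmR
  have hnR : (2:ℝ) ≤ n := by linarith
  have hVT : V ≤ T := by
    by_contra hc
    push Not at hc
    have h1 := H.prim_mono (by linarith : 0 ≤ T) hc.le
    rw [hVI, ← hY] at h1
    have h2 : (n : ℝ) ^ p < ((n : ℝ) + 1) ^ p :=
      pow_lt_pow_left₀ (by linarith) (by linarith) (by omega)
    linarith
  have hTU : T ≤ U := by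
    by_contra hc
    push Not at hc
    have h1 := H.prim_mono (hTm0 _) hc.le
    rw [hUI, ← hY] at h1
    have e1 : (n : ℝ) + 1 + 1 = n + 2 := by ring
    rw [e1] at hm2
    linarith
  obtain ⟨⟨gU, gU', GU, hGU⟩, hUT⟩ := hM (n + 2) (by omega)
  obtain ⟨⟨gV, gV', GV, hGV⟩, hVT₀⟩ := hM n (by omega)
  rw [← hU] at GU hGU hUT
  rw [← hV] at GV hGV hVT₀
  set y : ℝ := ((n : ℝ) + 2) ^ p with hy
  set y' : ℝ := (n : ℝ) ^ p with hy'
  have ecast : (((n + 2 : ℕ) : ℝ)) ^ p = y := by rw [hy]; push_cast; ring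
  rw [ecast] at hGU
  obtain ⟨by1, -, bu1, bu2, bu3, bu4, -⟩ := H.bounds P hUT hUI hδ
  obtain ⟨by'1, -, bv1, -, -, bv4, bv5⟩ := H.bounds P hVT₀ hVI hδ
  -- comparison of `y`, `y'` and `Y`
  have hyY : y ≤ 2 ^ p * Y := by
    calc y = ((n : ℝ) + 2) ^ p := rfl
      _ ≤ (2 * ((n : ℝ) + 1)) ^ p := pow_le_pow_left₀ (by linarith) (by linarith) _
      _ = 2 ^ p * ((n : ℝ) + 1) ^ p := mul_pow _ _ _
      _ ≤ 2 ^ p * Y := mul_le_mul_of_nonneg_left hm1 (by positivity)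
  have hYy' : Y ≤ 3 ^ p * y' := by
    calc Y ≤ ((n : ℝ) + 1 + 1) ^ p := hm2.le
      _ ≤ (3 * (n : ℝ)) ^ p := pow_le_pow_left₀ (by linarith) (by linarith) _
      _ = 3 ^ p * y' := mul_pow _ _ _
  have hyδ : y ^ (1 - δ) ≤ 2 ^ p * Y ^ (1 - δ) := by
    calc y ^ (1 - δ) ≤ (2 ^ p * Y) ^ (1 - δ) := Real.rpow_le_rpow (by linarith) hyY (by linarith)
      _ = (2 ^ p) ^ (1 - δ) * Y ^ (1 - δ) := Real.mul_rpow (by positivity) hY0.le
      _ ≤ 2 ^ p * Y ^ (1 - δ) := by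
          refine mul_le_mul_of_nonneg_right ?_ (by positivity)
          have h1 : (1:ℝ) ≤ 2 ^ p := one_le_pow₀ (by norm_num)
          calc ((2:ℝ) ^ p) ^ (1 - δ) ≤ ((2:ℝ) ^ p) ^ (1:ℝ) :=
                Real.rpow_le_rpow_of_exponent_le h1 (by linarith)
            _ = 2 ^ p := Real.rpow_one _
  have hy'Y : y' ≤ Y := by
    refine le_trans ?_ hm1
    exact pow_le_pow_left₀ (by linarith) (by linarith) _
  have hy'δ : y' ^ (1 - δ) ≤ Y ^ (1 - δ) := Real.rpow_le_rpow (by linarith) hy'Y (by linarith)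
  have hstep : ((n : ℝ) + 2) ^ (p - 1) ≤ y ^ (1 - δ) := by
    have e1 : ((n : ℝ) + 2) ^ (p - 1) = y ^ (1 - 1 / (p : ℝ)) := by
      rw [hy, ← Real.rpow_natCast ((n : ℝ) + 2) p, ← Real.rpow_mul (by linarith),
        ← Real.rpow_natCast]
      congr 1
      rw [Nat.cast_sub hp, Nat.cast_one]
      field_simp
    rw [e1]
    exact Real.rpow_le_rpow_of_exponent_le by1 (by linarith)
  have hs1 : y - Y ≤ p * y ^ (1 - δ) := by
    have h1 := pow_sub_le (show (0:ℝ) ≤ (n : ℝ) + 1 by linarith)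
      (show (n : ℝ) + 1 ≤ (n : ℝ) + 2 by linarith) p
    have e1 : (n : ℝ) + 2 - (n + 1) = 1 := by ring
    rw [e1, mul_one] at h1
    have h2 := mul_le_mul_of_nonneg_left hstep hp0.le
    linarith
  have hs2 : Y - y' ≤ 2 * p * y ^ (1 - δ) := by
    have h1 := pow_sub_le (show (0:ℝ) ≤ (n : ℝ) by linarith)
      (show (n : ℝ) ≤ (n : ℝ) + 2 by linarith) p
    have e1 : (n : ℝ) + 2 - n = 2 := by ring
    rw [e1] at h1
    have h2 := mul_le_mul_of_nonneg_left hstep (show (0:ℝ) ≤ p * 2 by positivity)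
    have e2 : (n : ℝ) + 1 + 1 = n + 2 := by ring
    rw [e2] at hm2
    linarith
  -- from above
  obtain ⟨N', hN'⟩ := exists_nat_gt (U / α)
  rw [div_lt_iff₀ hα, mul_comm] at hN'
  have hup := GU.up H hUT hα hγ (N := N) (N' := N') (by rw [hN]; exact hTU) hN'.le
  have hDU := (abs_le.1 (hGU N' hN'.le γ hγ)).2
  have hMU := GU.mean_up H hUT
  rw [hUI] at hMU
  have hS1 : α * SS h N α γ ≤ Y + K₁ * Y ^ (1 - δ) := by
    have h1 : α * per N' gU α γ ≤ (∫ t in (0:ℝ)..U, gU t) + α * (C₄ * y ^ (1 - ρ)) := by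
      have h2 := mul_le_mul_of_nonneg_left hDU hα.le
      rw [mul_sub, mul_div_cancel₀ _ hα.ne'] at h2
      linarith
    have h2 : α * SS h N α γ ≤ α * per N' gU α γ + 2 * (1 + α) * U ^ (κ + ε) := by
      have h3 := mul_le_mul_of_nonneg_left hup hα.le
      have e1 : α * (per N' gU α γ + 2 * (1 / α + 1) * U ^ (κ + ε)) =
          α * per N' gU α γ + 2 * (1 + α) * U ^ (κ + ε) := by
        field_simp
      rwa [e1] at h3
    have h3 : α * (C₄ * y ^ (1 - ρ)) ≤ α * (C₄ * y ^ (1 - δ)) :=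
      mul_le_mul_of_nonneg_left (mul_le_mul_of_nonneg_left bu4 hC₄) hα.le
    have h4 : 2 * (1 + α) * U ^ (κ + ε) ≤ 2 * (1 + α) * y ^ (1 - δ) :=
      mul_le_mul_of_nonneg_left bu1 (by positivity)
    have h5 : α * SS h N α γ ≤ Y + (p + (4 + α * C₄ + 2 * α)) * y ^ (1 - δ) := by
      have e1 : U ^ (-σ) * (U + y) = U ^ (-σ) * U + U ^ (-σ) * y := by ring
      rw [e1] at hMU
      linarith
    have h6 := mul_le_mul_of_nonneg_left hyδ (show 0 ≤ p + (4 + α * C₄ + 2 * α) by positivity)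
    rw [hK₁]
    linarith
  -- from below
  obtain ⟨N'', hN''⟩ := exists_nat_gt (V / α)
  rw [div_lt_iff₀ hα, mul_comm] at hN''
  have hlo := GV.low H hVT₀ hα hγ (N := N) (N' := N'') (by rw [hN]; exact hVT) hN''.le
  have hDV := (abs_le.1 (hGV N'' hN''.le γ hγ)).1
  have hMV := GV.mean_low H hVT₀
  rw [hVI] at hMV
  have hYδ : Y ^ (1 - δ) ≤ Y := by
    calc Y ^ (1 - δ) ≤ Y ^ (1:ℝ) := Real.rpow_le_rpow_of_exponent_le hY1 (by linarith)
      _ = Y := Real.rpow_one _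
  have he : V ^ (-σ) * (T + α * SS h N α γ) ≤ 3 ^ p * (2 + K₁) * Y ^ (1 - δ) := by
    have h1 : V ^ (-σ) ≤ 3 ^ p * Y ^ (-(σ / 2)) := by
      refine bv5.trans ?_
      have h2 : (0:ℝ) < 3 ^ p := by positivity
      have h3 : Y / 3 ^ p ≤ y' := by
        rw [div_le_iff₀ h2, mul_comm]
        exact hYy'
      calc y' ^ (-(σ / 2)) ≤ (Y / 3 ^ p) ^ (-(σ / 2)) :=
            Real.rpow_le_rpow_of_nonpos (by positivity) h3 (by linarith [P.σ0])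
        _ = Y ^ (-(σ / 2)) * (3 ^ p) ^ (σ / 2) := by
            rw [Real.div_rpow hY0.le h2.le, Real.rpow_neg h2.le (σ / 2), div_inv_eq_mul]
        _ ≤ Y ^ (-(σ / 2)) * 3 ^ p := by
            refine mul_le_mul_of_nonneg_left ?_ (by positivity)
            calc ((3:ℝ) ^ p) ^ (σ / 2) ≤ ((3:ℝ) ^ p) ^ (1:ℝ) :=
                  Real.rpow_le_rpow_of_exponent_le (one_le_pow₀ (by norm_num))
                    (by linarith [P.σ1, P.ρ1, P.κ0, P.ρ0])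
              _ = 3 ^ p := Real.rpow_one _
        _ = 3 ^ p * Y ^ (-(σ / 2)) := mul_comm _ _
    have h2 : T + α * SS h N α γ ≤ (2 + K₁) * Y ^ (1 + 2 * ε) := by
      have h3 : Y ≤ Y ^ (1 + 2 * ε) := by
        calc Y = Y ^ (1:ℝ) := (Real.rpow_one _).symm
          _ ≤ Y ^ (1 + 2 * ε) := Real.rpow_le_rpow_of_exponent_le hY1 (by linarith [P.ε0])
      have h4 : K₁ * Y ^ (1 - δ) ≤ K₁ * Y := mul_le_mul_of_nonneg_left hYδ hK₁0
      have h5 : K₁ * Y ≤ K₁ * Y ^ (1 + 2 * ε) := mul_le_mul_of_nonneg_left h3 hK₁0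
      linarith
    have hSS0 : 0 ≤ SS h N α γ := Finset.sum_nonneg fun n _ => H.nn _
    calc V ^ (-σ) * (T + α * SS h N α γ) ≤
          (3 ^ p * Y ^ (-(σ / 2))) * ((2 + K₁) * Y ^ (1 + 2 * ε)) := by
          refine mul_le_mul h1 h2 (by positivity) (by positivity)
      _ = 3 ^ p * (2 + K₁) * (Y ^ (-(σ / 2)) * Y ^ (1 + 2 * ε)) := by ring
      _ = 3 ^ p * (2 + K₁) * Y ^ (-(σ / 2) + (1 + 2 * ε)) := by rw [← Real.rpow_add hY0]
      _ ≤ 3 ^ p * (2 + K₁) * Y ^ (1 - δ) := by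
          refine mul_le_mul_of_nonneg_left ?_ (by positivity)
          refine Real.rpow_le_rpow_of_exponent_le hY1 ?_
          linarith [P.ε1]
  have hS2 : Y - K₂ * Y ^ (1 - δ) ≤ α * SS h N α γ := by
    have h1 : (∫ t in (0:ℝ)..V, gV t) - α * (C₄ * y' ^ (1 - ρ)) ≤ α * per N'' gV α γ := by
      have h2 := mul_le_mul_of_nonneg_left hDV hα.le
      rw [mul_sub, mul_div_cancel₀ _ hα.ne'] at h2
      linarith
    have h2 : α * per N'' gV α γ ≤ α * SS h N α γ + V ^ (-σ) * (T + α * SS h N α γ) := by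
      have h3 := mul_le_mul_of_nonneg_left hlo hα.le
      have e1 : α * (SS h N α γ + V ^ (-σ) * (N + SS h N α γ)) =
          α * SS h N α γ + V ^ (-σ) * (α * N + α * SS h N α γ) := by ring
      rw [e1, hN] at h3
      exact h3
    have h3 : α * (C₄ * y' ^ (1 - ρ)) ≤ α * (C₄ * Y ^ (1 - δ)) :=
      mul_le_mul_of_nonneg_left (mul_le_mul_of_nonneg_left (bv4.trans hy'δ) hC₄) hα.le
    have h4 : 2 * V ^ (κ + ε) ≤ 2 * Y ^ (1 - δ) := by linarith [bv1.trans hy'δ]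
    have h5 : 2 * p * y ^ (1 - δ) ≤ 2 * p * (2 ^ p * Y ^ (1 - δ)) :=
      mul_le_mul_of_nonneg_left hyδ (by positivity)
    rw [hK₂]
    linarith
  have hz : 0 ≤ Y ^ (1 - δ) := by positivity
  have hz1 := mul_nonneg hK₁0 hz
  have hz2 := mul_nonneg hK₂0 hz
  rw [abs_le]
  constructor
  · linarith
  · linarith

/-- **the general sampling theorem** -/
theorem sampling (P : Par κ ρ σ ε) (H : Dat h κ ρ σ ε T₀) : ∃ δ : ℝ, 0 < δ ∧ δ < 1 ∧
    ∀ᵐ α : ℝ, 0 < α → ∃ C : ℝ, 0 ≤ C ∧ ∀ᶠ N : ℕ in atTop, ∀ γ ∈ Icc 0 α,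
      |α * ∑ n ∈ Finset.range N, h (α * n + γ) - ∫ t in (0:ℝ)..(α * N), h t| ≤
        C * (∫ t in (0:ℝ)..(α * N), h t) ^ (1 - δ) := by
  obtain ⟨C, hC, hcut⟩ := cut
  obtain ⟨p, hp⟩ := exists_nat_ge (2 / ρ)
  rw [div_le_iff₀ P.ρ0, mul_comm] at hp
  have hp1 : 1 ≤ p := by
    rw [Nat.one_le_iff_ne_zero]
    rintro rfl
    simp at hp
    linarith
  have hp0 : (0:ℝ) < p := by exact_mod_cast hp1
  choose Tm hTm0 hTm using fun m : ℕ => H.exists_height P (y := (m : ℝ) ^ p) (by positivity)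
  have hlim : Tendsto Tm atTop atTop := by
    rw [tendsto_atTop]
    intro R
    have h1 : Tendsto (fun m : ℕ => (m : ℝ) ^ p) atTop atTop :=
      (tendsto_pow_atTop (by omega)).comp tendsto_natCast_atTop_atTop
    filter_upwards [h1.eventually_gt_atTop (∫ t in (0:ℝ)..(max R 0), h t)] with m hm
    by_contra hc
    push Not at hc
    have h2 := H.prim_mono (hTm0 m) (hc.le.trans (le_max_left R 0))
    rw [hTm] at h2
    linarith
  set δ := min (σ / 4) (1 / (p : ℝ)) with hδ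
  have hδ0 : 0 < δ := lt_min (by linarith [P.σ0]) (by positivity)
  have hδ1 : δ ≤ σ / 4 := min_le_left _ _
  have hδ2 : δ ≤ 1 / p := min_le_right _ _
  refine ⟨δ, hδ0, by linarith [P.σ1, P.ρ1, P.κ0, P.ρ0], ?_⟩
  have h1 : ∀ j : ℕ, ∀ᵐ α : ℝ, α ∈ Ioc (1 / ((j : ℝ) + 1)) ((j : ℝ) + 1) →
      ∃ C₄ : ℝ, 0 ≤ C₄ ∧ ∀ᶠ m : ℕ in atTop,
      ∃ g g' : ℝ → ℝ, Cut h κ ρ σ C (Tm m) g g' ∧ ∀ N : ℕ, Tm m ≤ α * N → ∀ γ ∈ Icc 0 α,
        |per N g α γ - (∫ t in (0:ℝ)..(Tm m), g t) / α| ≤ C₄ * ((m : ℝ) ^ p) ^ (1 - ρ) := by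
    intro j
    rw [← ae_restrict_iff' measurableSet_Ioc]
    refine seq hC P H (hcut h κ ρ σ ε T₀ P H) hp Tm hTm hlim (by positivity) ?_
    have h2 : (1:ℝ) ≤ (j : ℝ) + 1 := by
      have : (0:ℝ) ≤ j := Nat.cast_nonneg j
      linarith
    have h3 : 1 / ((j : ℝ) + 1) ≤ 1 := by
      rw [div_le_one (by linarith)]
      exact h2
    linarith
  rw [← ae_all_iff] at h1
  filter_upwards [h1] with α hα hα0
  obtain ⟨j, hj⟩ := exists_nat_gt (max α (1 / α))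
  have hj1 : α < j := lt_of_le_of_lt (le_max_left _ _) hj
  have hj2 : 1 / α < j := lt_of_le_of_lt (le_max_right _ _) hj
  obtain ⟨C₄, hC₄, hs⟩ := hα j ⟨by
    rw [div_lt_iff₀ (by positivity)]
    rw [div_lt_iff₀ hα0] at hj2
    nlinarith, by linarith⟩
  obtain ⟨C₅, hC₅, hf⟩ := H.final P hp1 Tm hTm0 hTm hlim hδ1 hδ2 hδ0 hα0 hC₄ hs
  refine ⟨C₅, hC₅, ?_⟩
  have h2 : Tendsto (fun N : ℕ => α * (N : ℝ)) atTop atTop :=
    tendsto_natCast_atTop_atTop.const_mul_atTop hα0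
  filter_upwards [h2.eventually hf] with N hN γ hγ
  exact hN N rfl γ hγ

end

end Pool.Agent.U615.Smp
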