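import Pool.Agent.W188.Mom.B3

/-!
# The derivative of zeta on the critical line and the local maximum of zeta
-/

set_option autoImplicit false

open MeasureTheory Set Filter Topology Real

namespace Pool.Agent.U615.Smp

open Pool.Agent.H983R4.LH (zeta_left posLog_zeta_le Ex MM MM_nonneg C0 C0_nonneg inner num1 num2)

/-- `|ζ(1/2 + it)|` -/
noncomputable def Z (t : ℝ) : ℝ := ‖riemannZeta (1 / 2 + t * Complex.I)‖

lemma le_exp_posLog {x : ℝ} (hx : 0 ≤ x) : x ≤ Real.exp (log⁺ x) := by
  rcases hx.eq_or_lt with h | h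
  · rw [← h]; exact (Real.exp_pos _).le
  · calc x = Real.exp (Real.log x) := (Real.exp_log h).symm
      _ ≤ Real.exp (log⁺ x) := Real.exp_le_exp.2 (le_max_right _ _)

/-- bound in a small disc -/
lemma zeta_disc : ∃ K : ℝ, 0 ≤ K ∧ ∀ r v M : ℝ, 0 < r → r ≤ 1 / 2 → 8 ≤ v → 1 ≤ M →
    (∀ x : ℝ, |x - v| ≤ 1 → Z x ≤ M) → ∀ a t : ℝ, |a| ≤ r → |t - v| ≤ r →
      ‖riemannZeta (1 / 2 + a + t * Complex.I)‖ ≤
        K * M * v ^ (2 * r + 3 * C0 / (2 * π * Real.log (1 + 1 / (2 * r)))) := by
  obtain ⟨K, hK, hfe⟩ := zeta_left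
  have hpi := Real.pi_pos
  have hC0 := C0_nonneg
  have hl3 : 0 < Real.log 3 := Real.log_pos (by norm_num)
  refine ⟨Real.exp (K + Real.log 3 + 2 * C0 / (2 * π)) * 2, by positivity, ?_⟩
  intro r v M hr0 hr hv hM hZ a t ha ht
  have hv0 : 0 < v := by linarith
  have hlv : 0 < Real.log v := Real.log_pos (by linarith)
  have hΛ : 0 < Real.log (1 + 1 / (2 * r)) := Real.log_pos (by
    have : 0 < 1 / (2 * r) := by positivity
    linarith)
  have ht' := abs_le.1 ht
  have ht1 : 1 ≤ t := by linarith [ht'.1]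
  set E : ℝ := 3 * C0 / (2 * π * Real.log (1 + 1 / (2 * r))) with hE
  have hE0 : 0 ≤ E := by positivity
  set κ : ℝ := Real.log (2 * M) / Real.log v with hκ
  have h2M : 0 < Real.log (2 * M) := Real.log_pos (by linarith)
  have hκ0 : 0 < κ := by positivity
  have hκv : κ * Real.log v = Real.log (2 * M) := by rw [hκ]; field_simp
  have hvκ : v ^ κ = 2 * M := by
    rw [Real.rpow_def_of_pos hv0, mul_comm, hκv, Real.exp_log (by linarith)]
  have hEx : Ex κ v 1 = ∅ := by
    rw [Set.eq_empty_iff_forall_notMem]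
    rintro x ⟨hx1, hx2⟩
    rw [hvκ] at hx2
    have := hZ x hx1
    unfold Z at this
    linarith
  -- the right half
  have hright : ∀ b : ℝ, 0 < b → b ≤ r → log⁺ ‖riemannZeta (1 / 2 + b + t * Complex.I)‖ ≤
      Real.log 3 + (Real.log (2 * M) + (E * Real.log v + 2 * C0 / (2 * π))) := by
    intro b hb0 hb
    have h1 := inner (κ := κ) (T := v) (h := 1) (r := r) (a := b) (t := t) (m := 0) hκ0 (by linarith)
      one_pos le_rfl hr hb0 hb ht le_rfl (by rw [hEx]; simp)
    have h2 : log⁺ ‖riemannZeta (1 / 2 + b + t * Complex.I)‖ ≤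
        Real.log 3 + log⁺ ‖Pool.Agent.H983R4.LH.G (1 / 2 + b + t * Complex.I)‖ := by
      refine posLog_zeta_le (by simp; positivity) ?_
      have h3 := Complex.abs_im_le_norm ((1 / 2 + (b : ℂ) + t * Complex.I) - 1)
      have h4 : ((1 / 2 + (b : ℂ) + t * Complex.I) - 1).im = t := by simp
      rw [h4, abs_of_pos (by linarith)] at h3
      linarith
    rw [hκv, mul_zero, zero_div, add_zero] at h1
    have h5 : (MM v / Real.log (1 + 1 / (2 * r)) + 2) * C0 / (2 * π) ≤
        E * Real.log v + 2 * C0 / (2 * π) := by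
      have h6 := num1 hv
      have h7 : MM v / Real.log (1 + 1 / (2 * r)) ≤ 3 * Real.log v / Real.log (1 + 1 / (2 * r)) :=
        div_le_div_of_nonneg_right h6 hΛ.le
      calc (MM v / Real.log (1 + 1 / (2 * r)) + 2) * C0 / (2 * π) ≤
          (3 * Real.log v / Real.log (1 + 1 / (2 * r)) + 2) * C0 / (2 * π) := by
            gcongr
        _ = E * Real.log v + 2 * C0 / (2 * π) := by
            rw [hE]; field_simp
    linarith
  have hrv : r * Real.log t ≤ 2 * r * Real.log v := by
    have h1 : Real.log t ≤ Real.log (v + 1) :=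
      Real.log_le_log (by linarith) (by linarith [ht'.2])
    have h2 := num2 hv
    nlinarith
  have hmain : log⁺ ‖riemannZeta (1 / 2 + a + t * Complex.I)‖ ≤
      K + Real.log 3 + 2 * C0 / (2 * π) + (Real.log (2 * M) + (2 * r + E) * Real.log v) := by
    have hrv0 : 0 ≤ 2 * r * Real.log v := by positivity
    rcases lt_trichotomy a 0 with h | h | h
    · have h1 := hfe (-a) t (by linarith) (by linarith [(abs_le.1 ha).1]) ht1
      have h2 := hright (-a) (by linarith) (by linarith [(abs_le.1 ha).1])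
      have e1 : (1 / 2 - ((-a : ℝ) : ℂ) + t * Complex.I) = 1 / 2 + a + t * Complex.I := by
        push_cast; ring
      rw [e1] at h1
      have h3 : -a * Real.log t ≤ r * Real.log t :=
        mul_le_mul_of_nonneg_right (by linarith [(abs_le.1 ha).1]) (Real.log_nonneg ht1)
      linarith
    · have h1 := hZ t (by linarith [ht])
      unfold Z at h1
      rw [h, Complex.ofReal_zero, add_zero]
      have h2 := posLog_le_posLog (norm_nonneg _) (h1.trans (by linarith : M ≤ 2 * M))
      rw [posLog_eq_log (x := 2 * M) (by rw [abs_of_pos (by linarith)]; linarith)] at h2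
      have h3 : 0 ≤ 2 * C0 / (2 * π) := by positivity
      have h4 : 0 ≤ E * Real.log v := by positivity
      linarith
    · have h2 := hright a h ((le_abs_self _).trans ha)
      linarith
  refine (le_exp_posLog (norm_nonneg _)).trans ((Real.exp_le_exp.2 hmain).trans (le_of_eq ?_))
  rw [Real.exp_add, Real.exp_add (Real.log (2 * M)), Real.exp_log (by linarith),
    Real.rpow_def_of_pos hv0, mul_comm (Real.log v)]
  ring

/-- **the derivative and the local maximum** -/
theorem der {e : ℝ} (he : 0 < e) : ∃ C V : ℝ, 1 ≤ C ∧ 8 ≤ V ∧ ∀ v M : ℝ, V ≤ v → 1 ≤ M →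
    (∀ x : ℝ, |x - v| ≤ 1 → Z x ≤ M) →
      ‖deriv riemannZeta (1 / 2 + v * Complex.I)‖ ≤ C * v ^ e * M := by
  obtain ⟨K, hK, hdisc⟩ := zeta_disc
  have hpi := Real.pi_pos
  have hC0 := C0_nonneg
  set X : ℝ := 3 * C0 / (π * e) with hX
  have hX0 : 0 ≤ X := by positivity
  set r : ℝ := min (1 / 2) (min (e / 4) (Real.exp (-X) / 2)) with hr
  have hr0 : 0 < r := lt_min (by norm_num) (lt_min (by positivity) (by positivity))
  have hr1 : r ≤ 1 / 2 := min_le_left _ _
  have hr2 : r ≤ e / 4 := (min_le_right _ _).trans (min_le_left _ _)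
  have hr3 : r ≤ Real.exp (-X) / 2 := (min_le_right _ _).trans (min_le_right _ _)
  have hΛ : X ≤ Real.log (1 + 1 / (2 * r)) := by
    rw [Real.le_log_iff_exp_le (by positivity)]
    have h1 : Real.exp X ≤ 1 / (2 * r) := by
      rw [le_div_iff₀ (by positivity)]
      have h2 : 2 * r ≤ Real.exp (-X) := by linarith
      calc Real.exp X * (2 * r) ≤ Real.exp X * Real.exp (-X) :=
            mul_le_mul_of_nonneg_left h2 (Real.exp_pos _).le
        _ = 1 := by rw [← Real.exp_add]; simp
    linarith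
  have hΛ0 : 0 < Real.log (1 + 1 / (2 * r)) := Real.log_pos (by
    have : 0 < 1 / (2 * r) := by positivity
    linarith)
  have hexp : 2 * r + 3 * C0 / (2 * π * Real.log (1 + 1 / (2 * r))) ≤ e := by
    have h1 : 3 * C0 / (2 * π * Real.log (1 + 1 / (2 * r))) ≤ e / 2 := by
      rw [div_le_iff₀ (by positivity)]
      have h2 : 3 * C0 = X * (π * e) := by rw [hX]; field_simp
      have h3 : X * (π * e) ≤ Real.log (1 + 1 / (2 * r)) * (π * e) :=
        mul_le_mul_of_nonneg_right hΛ (by positivity)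
      calc 3 * C0 = X * (π * e) := h2
        _ ≤ Real.log (1 + 1 / (2 * r)) * (π * e) := h3
        _ = e / 2 * (2 * π * Real.log (1 + 1 / (2 * r))) := by ring
    linarith
  refine ⟨K / r + 1, 8, by
    have : 0 ≤ K / r := by positivity
    linarith, le_rfl, fun v M hv hM hZ => ?_⟩
  have hv0 : 0 < v := by linarith
  have hbound : ∀ z ∈ Metric.sphere (1 / 2 + (v : ℂ) * Complex.I) r,
      ‖riemannZeta z‖ ≤ K * M * v ^ e := by
    intro z hz
    rw [mem_sphere_iff_norm] at hz
    have h1 := Complex.abs_re_le_norm (z - (1 / 2 + (v : ℂ) * Complex.I))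
    have h2 := Complex.abs_im_le_norm (z - (1 / 2 + (v : ℂ) * Complex.I))
    rw [hz] at h1 h2
    have e1 : (z - (1 / 2 + (v : ℂ) * Complex.I)).re = z.re - 1 / 2 := by simp
    have e2 : (z - (1 / 2 + (v : ℂ) * Complex.I)).im = z.im - v := by simp
    rw [e1] at h1
    rw [e2] at h2
    have h3 := hdisc r v M hr0 hr1 hv hM hZ (z.re - 1 / 2) z.im h1 h2
    have e3 : (1 / 2 + ((z.re - 1 / 2 : ℝ) : ℂ) + z.im * Complex.I) = z := by
      apply Complex.ext <;> simp
    rw [e3] at h3
    refine h3.trans ?_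
    refine mul_le_mul_of_nonneg_left ?_ (by positivity)
    exact Real.rpow_le_rpow_of_exponent_le (by linarith) hexp
  have hd : DiffContOnCl ℂ riemannZeta (Metric.ball (1 / 2 + (v : ℂ) * Complex.I) r) := by
    have h1 : DifferentiableOn ℂ riemannZeta
        (closure (Metric.ball (1 / 2 + (v : ℂ) * Complex.I) r)) := by
      intro z hz
      have hz' := Metric.closure_ball_subset_closedBall hz
      rw [mem_closedBall_iff_norm] at hz'
      have h2 := Complex.abs_im_le_norm (z - (1 / 2 + (v : ℂ) * Complex.I))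
      have e2 : (z - (1 / 2 + (v : ℂ) * Complex.I)).im = z.im - v := by simp
      rw [e2] at h2
      have h3 := (abs_le.1 (h2.trans hz')).1
      refine (differentiableAt_riemannZeta ?_).differentiableWithinAt
      rintro rfl
      simp at h3
      linarith
    exact h1.diffContOnCl
  have h1 := Complex.norm_deriv_le_of_forall_mem_sphere_norm_le hr0 hd hbound
  refine h1.trans ?_
  calc K * M * v ^ e / r = K / r * v ^ e * M := by ring
    _ ≤ (K / r + 1) * v ^ e * M := by
        have : 0 ≤ v ^ e * M := by positivity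
        nlinarith

end Pool.Agent.U615.Smp
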