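import Pool.Agent.U615.ZA
import Pool.Agent.W188.Mom.B4
import Pool.Agent.TH158.FM.Rng

/-!
# Moments of zeta: the inputs of the sampling theorem
-/

set_option autoImplicit false

open MeasureTheory Set Filter Topology Real

namespace Pool.Agent.U615.Smp

open Pool.Agent.H983R4.LH (Adm)

lemma Z_eq : Z = Pool.Agent.W188.Mom.Z := rfl

lemma Z_nonneg (t : ℝ) : 0 ≤ Z t := norm_nonneg _

lemma Z_cont : Continuous Z := Pool.Agent.W188.Mom.Z_cont

lemma Zp_cont {p : ℝ} (hp : 0 < p) : Continuous fun t => Z t ^ p :=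
  Z_cont.rpow_const fun _ => Or.inr hp.le

lemma Zp_int {p : ℝ} (hp : 0 < p) (a b : ℝ) :
    IntervalIntegrable (fun t => Z t ^ p) MeasureTheory.volume a b :=
  (Zp_cont hp).intervalIntegrable _ _

lemma Zp_nonneg (p t : ℝ) : 0 ≤ Z t ^ p := Real.rpow_nonneg (Z_nonneg t) p

/-- powers -/
lemma ev_pow {a b : ℝ} (C : ℝ) (hab : a < b) : ∀ᶠ T : ℝ in atTop, C * T ^ a ≤ T ^ b := by
  have h1 : Tendsto (fun T : ℝ => T ^ (b - a)) atTop atTop := tendsto_rpow_atTop (by linarith)
  filter_upwards [h1.eventually_ge_atTop C, eventually_gt_atTop 0] with T hT hT0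
  have e1 : T ^ b = T ^ (b - a) * T ^ a := by
    rw [← Real.rpow_add hT0]; congr 1; ring
  rw [e1]
  exact mul_le_mul_of_nonneg_right hT (by positivity)

lemma ev_log {b : ℝ} (C : ℝ) (n : ℕ) (hb : 0 < b) : ∀ᶠ T : ℝ in atTop, C * Real.log T ^ n ≤ T ^ b := by
  have h1 := (isLittleO_log_rpow_rpow_atTop (s := b) (n : ℝ) hb).bound
    (show (0:ℝ) < 1 / (|C| + 1) by positivity)
  filter_upwards [h1, eventually_ge_atTop 1] with T hT hT1
  have hl := Real.log_nonneg hT1
  rw [Real.norm_of_nonneg (Real.rpow_nonneg hl _), Real.norm_of_nonneg (by positivity),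
    Real.rpow_natCast] at hT
  have h2 : (|C| + 1) * Real.log T ^ n ≤ T ^ b := by
    have h3 := mul_le_mul_of_nonneg_left hT (show 0 ≤ |C| + 1 by positivity)
    have e1 : (|C| + 1) * (1 / (|C| + 1) * T ^ b) = T ^ b := by field_simp
    rwa [e1] at h3
  have h4 : 0 ≤ Real.log T ^ n := by positivity
  have h5 := le_abs_self C
  nlinarith

/-- `1 +` the local moment -/
noncomputable def W (b v : ℝ) : ℝ := 1 + ∫ u in (-2:ℝ)..2, Z (v + u) ^ b

lemma W_ge {b : ℝ} (v : ℝ) : 1 ≤ W b v := by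
  unfold W
  have : 0 ≤ ∫ u in (-2:ℝ)..2, Z (v + u) ^ b :=
    intervalIntegral.integral_nonneg (by norm_num) fun u _ => Zp_nonneg b _
  linarith

lemma W_cont {b : ℝ} (hb : 0 < b) : Continuous (W b) := by
  unfold W
  have h1 := Zp_cont hb
  have : Continuous fun v : ℝ => ∫ u in (-2:ℝ)..2, Z (v + u) ^ b :=
    intervalIntegral.continuous_parametric_intervalIntegral_of_continuous'
      (f := fun v u => Z (v + u) ^ b) (by
        unfold Function.uncurry
        exact h1.comp (by fun_prop : Continuous fun p : ℝ × ℝ => p.1 + p.2)) _ _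
  exact continuous_const.add this

lemma W_eq (b v : ℝ) : W b v = 1 + ∫ t in (v - 2)..(v + 2), Z t ^ b := by
  unfold W
  rw [intervalIntegral.integral_comp_add_left (fun t => Z t ^ b)]
  congr 2

/-- the derivative in terms of the local moment -/
theorem der_local {b e : ℝ} (hb : 1 ≤ b) (he : 0 < e) : ∃ A V : ℝ, 1 ≤ A ∧ 101 ≤ V ∧
    ∀ v : ℝ, V ≤ v → (1 + Z v) ^ (b - 1) * ‖deriv riemannZeta (1 / 2 + v * Complex.I)‖ ≤
      A * v ^ e * W b v := by
  have hb0 : 0 < b := by linarith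
  obtain ⟨A, hA, hsup⟩ := Pool.Agent.W188.Mom.sup_mean' (p := b) (ε := e / 2) hb0 (by linarith)
  obtain ⟨C, V, hC, hV, hder⟩ := der (e := e / 2) (by linarith)
  refine ⟨C * 2 ^ (b - 1) * (A * 2 ^ (e / 2)), max V 101, ?_, le_max_right _ _, fun v hv => ?_⟩
  · have h1 : (1:ℝ) ≤ 2 ^ (b - 1) := Real.one_le_rpow (by norm_num) (by linarith)
    have h2 : (1:ℝ) ≤ 2 ^ (e / 2) := Real.one_le_rpow (by norm_num) (by linarith)
    have h3 : 1 ≤ C * 2 ^ (b - 1) := by nlinarith
    have h4 : 1 ≤ A * 2 ^ (e / 2) := by nlinarith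
    nlinarith
  · have hvV : V ≤ v := (le_max_left _ _).trans hv
    have hv1 : 101 ≤ v := (le_max_right _ _).trans hv
    have hv0 : 0 < v := by linarith
    set X : ℝ := A * (2 * v) ^ (e / 2) * W b v with hX
    have hW := W_ge (b := b) v
    have h2v : 1 ≤ (2 * v) ^ (e / 2) := Real.one_le_rpow (by linarith) (by linarith)
    have hX1 : 1 ≤ X := by
      have : 1 ≤ A * (2 * v) ^ (e / 2) := by nlinarith
      nlinarith
    have hX0 : 0 < X := by linarith
    set M : ℝ := X ^ (1 / b) with hM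
    have hM1 : 1 ≤ M := Real.one_le_rpow hX1 (by positivity)
    have hMb : M ^ b = X := by
      rw [hM, ← Real.rpow_mul hX0.le, one_div_mul_cancel hb0.ne', Real.rpow_one]
    have hZM : ∀ x : ℝ, |x - v| ≤ 1 → Z x ≤ M := by
      intro x hx
      have hx' := abs_le.1 hx
      have hx100 : 100 ≤ x := by linarith [hx'.1]
      have h1 := hsup x hx100
      rw [← Z_eq] at h1
      have h2 : ∫ t in (x - 1)..(x + 1), Z t ^ b ≤ ∫ t in (v - 2)..(v + 2), Z t ^ b :=
        intervalIntegral.integral_mono_interval (by linarith [hx'.1]) (by linarith)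
          (by linarith [hx'.2]) (Eventually.of_forall fun t => Zp_nonneg b t) (Zp_int hb0 _ _)
      have h3 : x ^ (e / 2) ≤ (2 * v) ^ (e / 2) :=
        Real.rpow_le_rpow (by linarith) (by linarith [hx'.2]) (by linarith)
      have h4 : Z x ^ b ≤ X := by
        rw [hX, W_eq]
        refine h1.trans ?_
        have h5 : 0 ≤ ∫ t in (x - 1)..(x + 1), Z t ^ b :=
          intervalIntegral.integral_nonneg (by linarith) fun t _ => Zp_nonneg b t
        refine mul_le_mul (mul_le_mul_of_nonneg_left h3 (by linarith)) (by linarith) (by linarith)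
          (by positivity)
      rw [← hMb] at h4
      exact (Real.rpow_le_rpow_iff (Z_nonneg x) (by linarith) hb0).1 h4
    have h1 := hder v M hvV hM1 hZM
    have h2 : (1 + Z v) ^ (b - 1) ≤ (2 * M) ^ (b - 1) := by
      have h3 := hZM v (by simp)
      exact Real.rpow_le_rpow (by linarith [Z_nonneg v]) (by linarith) (by linarith)
    calc (1 + Z v) ^ (b - 1) * ‖deriv riemannZeta (1 / 2 + v * Complex.I)‖ ≤
          (2 * M) ^ (b - 1) * (C * v ^ (e / 2) * M) :=
          mul_le_mul h2 h1 (norm_nonneg _) (by positivity)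
      _ = C * 2 ^ (b - 1) * v ^ (e / 2) * (M ^ (b - 1) * M ^ (1:ℝ)) := by
          rw [Real.mul_rpow (by norm_num) (by linarith), Real.rpow_one]; ring
      _ = C * 2 ^ (b - 1) * v ^ (e / 2) * X := by
          rw [← Real.rpow_add (by linarith), show b - 1 + 1 = b by ring, hMb]
      _ = C * 2 ^ (b - 1) * (A * 2 ^ (e / 2)) * (v ^ (e / 2) * v ^ (e / 2)) * W b v := by
          rw [hX, Real.mul_rpow (by norm_num) hv0.le]; ring
      _ = C * 2 ^ (b - 1) * (A * 2 ^ (e / 2)) * v ^ e * W b v := by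
          rw [← Real.rpow_add hv0, show e / 2 + e / 2 = e by ring]

lemma deriv_cont : Continuous fun v : ℝ => deriv riemannZeta (1 / 2 + v * Complex.I) := by
  have h1 : DifferentiableOn ℂ riemannZeta {1}ᶜ := fun s hs =>
    (differentiableAt_riemannZeta hs).differentiableWithinAt
  have h2 : ContinuousOn (deriv riemannZeta) {1}ᶜ :=
    (h1.analyticOnNhd isOpen_compl_singleton).deriv.continuousOn
  rw [← continuousOn_univ]
  refine h2.comp (f := fun v : ℝ => (1 / 2 + (v : ℂ) * Complex.I)) (by fun_prop) ?_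
  intro v _ h
  have := congrArg Complex.re (show (1 / 2 + (v : ℂ) * Complex.I) = 1 from h)
  simp at this

/-- the same for all `v ≥ 0` -/
theorem der_local' {b e : ℝ} (hb : 1 ≤ b) (he : 0 < e) : ∃ A : ℝ, 1 ≤ A ∧
    ∀ v : ℝ, 0 ≤ v → (1 + Z v) ^ (b - 1) * ‖deriv riemannZeta (1 / 2 + v * Complex.I)‖ ≤
      A * (1 + v) ^ e * W b v := by
  obtain ⟨A, V, hA, hV, h⟩ := der_local hb he
  have hc : Continuous fun v : ℝ => (1 + Z v) ^ (b - 1) *
      ‖deriv riemannZeta (1 / 2 + v * Complex.I)‖ := by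
    refine Continuous.mul ?_ deriv_cont.norm
    exact (continuous_const.add Z_cont).rpow_const fun _ => Or.inr (by linarith)
  obtain ⟨B, hB⟩ := (isCompact_Icc (a := (0:ℝ)) (b := V)).exists_bound_of_continuousOn
    hc.continuousOn
  refine ⟨A + |B|, by linarith [abs_nonneg B], fun v hv => ?_⟩
  have hW := W_ge (b := b) v
  have h1v : 1 ≤ (1 + v) ^ e := Real.one_le_rpow (by linarith) he.le
  have hpos : 0 ≤ (1 + v) ^ e * W b v := by positivity
  rcases le_or_gt V v with h1 | h1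
  · refine (h v h1).trans ?_
    have h2 : v ^ e ≤ (1 + v) ^ e := Real.rpow_le_rpow hv (by linarith) he.le
    calc A * v ^ e * W b v ≤ A * (1 + v) ^ e * W b v := by gcongr
      _ ≤ (A + |B|) * (1 + v) ^ e * W b v := by
          gcongr
          linarith [abs_nonneg B]
  · have h2 := (le_abs_self _).trans (hB v ⟨hv, h1.le⟩)
    calc _ ≤ B := h2
      _ ≤ |B| * 1 := by rw [mul_one]; exact le_abs_self B
      _ ≤ |B| * ((1 + v) ^ e * W b v) := by
          refine mul_le_mul_of_nonneg_left ?_ (abs_nonneg _)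
          nlinarith
      _ ≤ (A + |B|) * (1 + v) ^ e * W b v := by
          nlinarith

/-- the fourth moment -/
lemma fourth (T : ℝ) (hT : 1000 ≤ T) :
    ∫ t in (0:ℝ)..T, Z t ^ (4:ℕ) ≤ 4 / 5 * (T * Real.log T ^ 4) := by
  have h := Pool.Agent.TH158.FM.fourth_all T hT
  have e : ∫ t in (0:ℝ)..T, Z t ^ (4:ℕ) =
      ∫ t in (0:ℝ)..T, ‖riemannZeta (Pool.Agent.TH158.FM.pt (1 / 2) t)‖ ^ 4 := by
    congr 1
    funext t
    rw [Pool.Agent.TH158.FM.pt_half]
    rfl
  rw [e]
  exact h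

/-- the second moment from below -/
lemma second : ∀ᶠ T : ℝ in atTop, 3 * T ≤ ∫ t in (0:ℝ)..T, Z t ^ (2:ℕ) := by
  obtain ⟨c, hc, h⟩ := Pool.Agent.W188.Mom.lower (p := 2) le_rfl
  have h4 : Tendsto (fun T : ℝ => T / 2) atTop atTop := tendsto_id.atTop_div_const (by norm_num)
  have h5 : Tendsto (fun T : ℝ => Real.log (T / 2)) atTop atTop := Real.tendsto_log_atTop.comp h4
  filter_upwards [h4.eventually h, h5.eventually_ge_atTop (6 / c), eventually_gt_atTop 0] with T hT h6 hT0
  rw [show T / 2 + T / 2 = T by ring] at hT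
  have e1 : ∀ t : ℝ, Pool.Agent.W188.Mom.Z t ^ (2:ℝ) = Z t ^ (2:ℕ) := fun t => by
    rw [← Z_eq]; exact_mod_cast Real.rpow_natCast (Z t) 2
  simp only [e1] at hT
  have h7 : ∫ t in (T / 2)..T, Z t ^ (2:ℕ) ≤ ∫ t in (0:ℝ)..T, Z t ^ (2:ℕ) :=
    intervalIntegral.integral_mono_interval (by linarith) (by linarith) le_rfl
      (Eventually.of_forall fun t => by positivity) ((Z_cont.pow 2).intervalIntegrable _ _)
  refine le_trans ?_ (hT.trans h7)
  have e2 : Real.log (T / 2) ^ ((2:ℝ) ^ 2 / 4) = Real.log (T / 2) := by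
    rw [show (2:ℝ) ^ 2 / 4 = 1 by norm_num, Real.rpow_one]
  rw [e2]
  rw [div_le_iff₀ hc] at h6
  nlinarith

/-- the moments of all orders from below -/
theorem low {β ε : ℝ} (hβ : 0 < β) (hε : 0 < ε) :
    ∀ᶠ T : ℝ in atTop, T ^ (1 - ε) ≤ ∫ t in (0:ℝ)..T, Z t ^ β := by
  have hc2 : Continuous fun t => Z t ^ (2:ℕ) := Z_cont.pow 2
  have hc4 : Continuous fun t => Z t ^ (4:ℕ) := Z_cont.pow 4
  have hcβ := Zp_cont hβ
  rcases le_or_gt 2 β with h2 | h2
  · filter_upwards [second, eventually_ge_atTop 1] with T hT hT1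
    have h3 : ∫ t in (0:ℝ)..T, Z t ^ (2:ℕ) ≤ ∫ t in (0:ℝ)..T, (1 + Z t ^ β) := by
      refine intervalIntegral.integral_mono_on (by linarith) (hc2.intervalIntegrable _ _)
        ((continuous_const.add hcβ).intervalIntegrable _ _) fun t _ => ?_
      rcases le_or_gt (Z t) 1 with h4 | h4
      · have h5 : Z t ^ (2:ℕ) ≤ 1 := pow_le_one₀ (Z_nonneg t) h4
        linarith [Zp_nonneg β t]
      · have h5 : Z t ^ (2:ℝ) ≤ Z t ^ β := Real.rpow_le_rpow_of_exponent_le h4.le h2
        rw [Real.rpow_two] at h5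
        linarith
    rw [intervalIntegral.integral_add (_root_.intervalIntegrable_const) (hcβ.intervalIntegrable _ _),
      intervalIntegral.integral_const] at h3
    simp only [sub_zero, smul_eq_mul, mul_one] at h3
    calc T ^ (1 - ε) ≤ T ^ (1:ℝ) := Real.rpow_le_rpow_of_exponent_le hT1 (by linarith)
      _ = T := Real.rpow_one T
      _ ≤ _ := by linarith
  · filter_upwards [second, eventually_ge_atTop 1000, ev_log 1 4 hε] with T hT hT1 hlog
    have hT0 : 0 < T := by linarith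
    have hl1 : 1 ≤ Real.log T := by
      rw [Real.le_log_iff_exp_le hT0]
      have := Real.exp_one_lt_d9
      linarith
    set R := Real.log T ^ 2 with hR
    have hR1 : 1 ≤ R := one_le_pow₀ hl1
    have hR0 : 0 < R := by linarith
    have h3 : ∫ t in (0:ℝ)..T, Z t ^ (2:ℕ) ≤
        ∫ t in (0:ℝ)..T, (R ^ 2 * Z t ^ β + 1 / R ^ 2 * Z t ^ (4:ℕ)) := by
      refine intervalIntegral.integral_mono_on hT0.le (hc2.intervalIntegrable _ _)
        (((continuous_const.mul hcβ).add (continuous_const.mul hc4)).intervalIntegrable _ _)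
        fun t _ => ?_
      have hZ0 := Z_nonneg t
      rcases le_or_gt (Z t) R with h4 | h4
      · have h5 : Z t ^ (2:ℕ) ≤ R ^ 2 * Z t ^ β := by
          have e1 : Z t ^ (2:ℕ) = Z t ^ (2 - β) * Z t ^ β := by
            rw [← Real.rpow_two, ← Real.rpow_add_of_nonneg hZ0 (by linarith) hβ.le]
            congr 1; ring
          rw [e1]
          refine mul_le_mul_of_nonneg_right ?_ (Zp_nonneg β t)
          calc Z t ^ (2 - β) ≤ R ^ (2 - β) := Real.rpow_le_rpow hZ0 h4 (by linarith)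
            _ ≤ R ^ (2:ℝ) := Real.rpow_le_rpow_of_exponent_le hR1 (by linarith)
            _ = R ^ 2 := Real.rpow_two R
        have h6 : 0 ≤ 1 / R ^ 2 * Z t ^ (4:ℕ) := by positivity
        linarith
      · have h5 : Z t ^ (2:ℕ) ≤ 1 / R ^ 2 * Z t ^ (4:ℕ) := by
          rw [one_div, ← div_eq_inv_mul, le_div_iff₀ (by positivity)]
          have h6 : R ^ 2 ≤ Z t ^ 2 := pow_le_pow_left₀ hR0.le h4.le 2
          nlinarith [sq_nonneg (Z t)]
        have h6 : 0 ≤ R ^ 2 * Z t ^ β := mul_nonneg (by positivity) (Zp_nonneg β t)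
        linarith
    have hcc1 : Continuous fun t => R ^ 2 * Z t ^ β := continuous_const.mul hcβ
    have hcc2 : Continuous fun t => 1 / R ^ 2 * Z t ^ (4:ℕ) := continuous_const.mul hc4
    rw [intervalIntegral.integral_add (hcc1.intervalIntegrable _ _) (hcc2.intervalIntegrable _ _),
      intervalIntegral.integral_const_mul, intervalIntegral.integral_const_mul] at h3
    have h4 := fourth T hT1
    have h5 : 1 / R ^ 2 * ∫ t in (0:ℝ)..T, Z t ^ (4:ℕ) ≤ 4 / 5 * T := by
      rw [one_div, ← div_eq_inv_mul, div_le_iff₀ (by positivity)]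
      have e1 : R ^ 2 = Real.log T ^ 4 := by rw [hR]; ring
      rw [e1]
      linarith
    set I := ∫ t in (0:ℝ)..T, Z t ^ β with hI
    have h6 : T ≤ R ^ 2 * I := by linarith
    have h7 : R ^ 2 ≤ T ^ ε := by
      have e1 : R ^ 2 = 1 * Real.log T ^ 4 := by rw [hR]; ring
      rw [e1]
      exact hlog
    have hI0 : 0 ≤ I := intervalIntegral.integral_nonneg hT0.le fun t _ => Zp_nonneg β t
    have h8 : T ≤ T ^ ε * I := h6.trans (mul_le_mul_of_nonneg_right h7 hI0)
    have e2 : T = T ^ ε * T ^ (1 - ε) := by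
      rw [← Real.rpow_add hT0]; simp
    rw [e2] at h8
    have h9 : 0 < T ^ ε := by positivity
    rw [← e2] at h8
    have h10 : T ^ ε * T ^ (1 - ε) ≤ T ^ ε * I := by rw [← e2]; exact h8
    exact le_of_mul_le_mul_left h10 h9

end Pool.Agent.U615.Smp
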