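import Pool.Agent.U615.ZB
import Pool.Agent.U615.SG
import Pool.Agent.H983R4.GL.Z3

/-!
# Moments of zeta: verification of the hypotheses of the sampling theorem
-/

set_option autoImplicit false

open MeasureTheory Set Filter Topology Real

namespace Pool.Agent.U615.Smp

open Pool.Agent.H983R4.LH (Adm)

/-- bound of the moment of order `b` on `[-2, T + 2]` from a pointwise bound -/
lemma J_bound {θ β : ℝ} (hθ : Adm θ) (hθ0 : 0 ≤ θ) (hβ : 0 < β) (hθ1 : θ < 1) (hβθ : β * θ < 1)
    {e : ℝ} (he : 0 < e) : ∀ᶠ T : ℝ in atTop,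
      ∫ t in (-2:ℝ)..(T + 2), Z t ^ (max β 1) ≤ T ^ e * ∫ t in (0:ℝ)..T, Z t ^ β := by
  rcases le_or_gt 1 β with h1 | h1
  · rw [max_eq_left h1]
    -- `β ≥ 1`
    set d : ℝ := (1 - β * θ) / (2 * β + 2) with hd
    have hd0 : 0 < d := by
      have : 0 < 1 - β * θ := by linarith
      positivity
    obtain ⟨C, hC⟩ := hθ d hd0
    have hC0 : 0 ≤ C := by
      have := (norm_nonneg _).trans (hC 0)
      simpa using this
    have hexp : β * (θ + d) < 1 - d := by
      have h2 : d * (2 * β + 2) = 1 - β * θ := by rw [hd]; field_simp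
      nlinarith
    set B : ℝ := ∫ t in (-2:ℝ)..0, Z t ^ β with hB
    filter_upwards [low hβ (show 0 < d by exact hd0), ev_pow (2 * (C * 3 ^ (θ + d)) ^ β + |B|) hexp,
      ev_pow 2 (show (0:ℝ) < e by exact he), eventually_ge_atTop 3] with T hlow hp h2e hT3
    have hT0 : 0 < T := by linarith
    set I := ∫ t in (0:ℝ)..T, Z t ^ β with hI
    have hI1 : ∫ t in (-2:ℝ)..(T + 2), Z t ^ β = B + I + ∫ t in T..(T + 2), Z t ^ β := by
      rw [hB, hI, intervalIntegral.integral_add_adjacent_intervals (Zp_int hβ _ _) (Zp_int hβ _ _),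
        intervalIntegral.integral_add_adjacent_intervals (Zp_int hβ _ _) (Zp_int hβ _ _)]
    have h3 : ∫ t in T..(T + 2), Z t ^ β ≤ 2 * ((C * 3 ^ (θ + d)) ^ β * T ^ (β * (θ + d))) := by
      calc ∫ t in T..(T + 2), Z t ^ β ≤ ∫ t in T..(T + 2),
            ((C * 3 ^ (θ + d)) ^ β * T ^ (β * (θ + d))) := by
            refine intervalIntegral.integral_mono_on (by linarith) (Zp_int hβ _ _)
              (_root_.intervalIntegrable_const) fun t ht => ?_
            have h4 : Z t ≤ C * 3 ^ (θ + d) * T ^ (θ + d) := by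
              refine (hC t).trans ?_
              rw [mul_assoc, ← Real.mul_rpow (by norm_num) hT0.le]
              refine mul_le_mul_of_nonneg_left ?_ hC0
              refine Real.rpow_le_rpow (by positivity) ?_ (by linarith)
              rw [abs_of_nonneg (by linarith [ht.1])]
              linarith [ht.2]
            calc Z t ^ β ≤ (C * 3 ^ (θ + d) * T ^ (θ + d)) ^ β :=
                  Real.rpow_le_rpow (Z_nonneg t) h4 hβ.le
              _ = (C * 3 ^ (θ + d)) ^ β * T ^ (β * (θ + d)) := by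
                  rw [Real.mul_rpow (by positivity) (by positivity), ← Real.rpow_mul hT0.le]
                  congr 2; ring
        _ = _ := by
            rw [intervalIntegral.integral_const, smul_eq_mul]
            ring
    have h4 : |B| ≤ |B| * T ^ (β * (θ + d)) := by
      have : 1 ≤ T ^ (β * (θ + d)) := Real.one_le_rpow (by linarith) (by positivity)
      nlinarith [abs_nonneg B]
    have h5 : B + ∫ t in T..(T + 2), Z t ^ β ≤ I := by
      have := le_abs_self B
      calc _ ≤ (2 * (C * 3 ^ (θ + d)) ^ β + |B|) * T ^ (β * (θ + d)) := by linarith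
        _ ≤ T ^ (1 - d) := hp
        _ ≤ I := hlow
    have hI0 : 0 ≤ I := intervalIntegral.integral_nonneg hT0.le fun t _ => Zp_nonneg β t
    rw [Real.rpow_zero, mul_one] at h2e
    rw [hI1]
    nlinarith
  · rw [max_eq_right h1.le]
    set B : ℝ := ∫ t in (-2:ℝ)..0, Z t ^ (1:ℝ) with hB
    have hsh : Tendsto (fun T : ℝ => T + 2) atTop atTop := tendsto_atTop_add_const_right _ _ tendsto_id
    filter_upwards [low hβ (show 0 < e / 4 by positivity), ev_log 1 4 (show 0 < e / 4 by positivity),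
      hsh.eventually (ev_log 1 4 (show 0 < e / 4 by positivity)),
      ev_pow (4 + 4 * 2 ^ (e / 4) + |B|) (show (1:ℝ) + e / 4 < 1 + e / 2 by linarith),
      eventually_ge_atTop 1000] with T hlow _ hlog hp hT3
    have hT0 : 0 < T := by linarith
    set I := ∫ t in (0:ℝ)..T, Z t ^ β with hI
    have hI0 : 0 ≤ I := intervalIntegral.integral_nonneg hT0.le fun t _ => Zp_nonneg β t
    have hI1 : ∫ t in (-2:ℝ)..(T + 2), Z t ^ (1:ℝ) = B + ∫ t in (0:ℝ)..(T + 2), Z t ^ (1:ℝ) := by
      rw [hB, intervalIntegral.integral_add_adjacent_intervals (Zp_int one_pos _ _)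
        (Zp_int one_pos _ _)]
    have h3 : ∫ t in (0:ℝ)..(T + 2), Z t ^ (1:ℝ) ≤ ∫ t in (0:ℝ)..(T + 2), (1 + Z t ^ (4:ℕ)) := by
      refine intervalIntegral.integral_mono_on (by linarith) (Zp_int one_pos _ _)
        ((continuous_const.add (Z_cont.pow 4)).intervalIntegrable _ _) fun t _ => ?_
      rw [Real.rpow_one]
      have hZ := Z_nonneg t
      rcases le_or_gt (Z t) 1 with h4 | h4
      · have : 0 ≤ Z t ^ 4 := by positivity
        linarith
      · have : Z t ≤ Z t ^ 4 := le_self_pow₀ h4.le (by norm_num)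
        linarith
    have hc4 : Continuous fun t => Z t ^ (4:ℕ) := Z_cont.pow 4
    rw [intervalIntegral.integral_add (_root_.intervalIntegrable_const)
      (hc4.intervalIntegrable _ _), intervalIntegral.integral_const] at h3
    simp only [sub_zero, smul_eq_mul, mul_one] at h3
    have h4 := fourth (T + 2) (by linarith)
    rw [one_mul] at hlog
    have h5 : (T + 2) * Real.log (T + 2) ^ 4 ≤ (2 * T) * ((2 * T) ^ (e / 4)) := by
      have h6 : (T + 2) ^ (e / 4) ≤ (2 * T) ^ (e / 4) :=
        Real.rpow_le_rpow (by linarith) (by linarith) (by positivity)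
      exact mul_le_mul (by linarith) (hlog.trans h6) (by positivity) (by positivity)
    have e1 : (2 * T) * ((2 * T) ^ (e / 4)) = 2 * 2 ^ (e / 4) * T ^ (1 + e / 4) := by
      rw [Real.mul_rpow (by norm_num) hT0.le, Real.rpow_add hT0, Real.rpow_one]; ring
    have h1T : T ≤ T ^ (1 + e / 4) := by
      calc T = T ^ (1:ℝ) := (Real.rpow_one T).symm
        _ ≤ T ^ (1 + e / 4) := Real.rpow_le_rpow_of_exponent_le (by linarith) (by linarith)
    have h1T' : 1 ≤ T ^ (1 + e / 4) := by linarith
    have h7 : ∫ t in (-2:ℝ)..(T + 2), Z t ^ (1:ℝ) ≤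
        (4 + 4 * 2 ^ (e / 4) + |B|) * T ^ (1 + e / 4) := by
      rw [hI1]
      rw [e1] at h5
      have h8 := le_abs_self B
      have h9 : |B| ≤ |B| * T ^ (1 + e / 4) := by nlinarith [abs_nonneg B]
      have h10 : (0:ℝ) ≤ 2 ^ (e / 4) * T ^ (1 + e / 4) := by positivity
      linarith
    calc ∫ t in (-2:ℝ)..(T + 2), Z t ^ (1:ℝ) ≤ T ^ (1 + e / 2) := h7.trans hp
      _ ≤ T ^ e * T ^ (1 - e / 4) := by
          rw [← Real.rpow_add hT0]
          exact Real.rpow_le_rpow_of_exponent_le (by linarith) (by linarith)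
      _ ≤ T ^ e * I := mul_le_mul_of_nonneg_left hlow (by positivity)

/-- the integral of the local moments -/
lemma W_int {b : ℝ} (hb : 0 < b) {T : ℝ} (hT : 0 ≤ T) :
    ∫ v in (0:ℝ)..T, W b v ≤ T + 4 * ∫ t in (-2:ℝ)..(T + 2), Z t ^ b := by
  have hc := Zp_cont hb
  have hc2 : Continuous fun p : ℝ × ℝ => Z (p.1 + p.2) ^ b :=
    hc.comp (by fun_prop : Continuous fun p : ℝ × ℝ => p.1 + p.2)
  have hcW : Continuous fun v : ℝ => ∫ u in (-2:ℝ)..2, Z (v + u) ^ b :=
    intervalIntegral.continuous_parametric_intervalIntegral_of_continuous'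
      (f := fun v u => Z (v + u) ^ b) (by unfold Function.uncurry; exact hc2) _ _
  unfold W
  rw [intervalIntegral.integral_add (_root_.intervalIntegrable_const) (hcW.intervalIntegrable _ _),
    intervalIntegral.integral_const, sub_zero, smul_eq_mul, mul_one]
  have h1 : ∫ v in (0:ℝ)..T, ∫ u in (-2:ℝ)..2, Z (v + u) ^ b =
      ∫ u in (-2:ℝ)..2, ∫ v in (0:ℝ)..T, Z (v + u) ^ b := by
    rw [intervalIntegral_intervalIntegral_swap (F := fun v u => Z (v + u) ^ b)]
    refine IntegrableOn.mono_set (t := Icc 0 T ×ˢ Icc (-2) 2) ?_ ?_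
    · exact (hc2.continuousOn).integrableOn_compact (isCompact_Icc.prod isCompact_Icc)
    · rw [uIoc_of_le hT, uIoc_of_le (by norm_num)]
      exact prod_mono Ioc_subset_Icc_self Ioc_subset_Icc_self
  have h2 : ∫ u in (-2:ℝ)..2, ∫ v in (0:ℝ)..T, Z (v + u) ^ b ≤
      ∫ u in (-2:ℝ)..2, ∫ t in (-2:ℝ)..(T + 2), Z t ^ b := by
    have hcc : Continuous fun u : ℝ => ∫ v in (0:ℝ)..T, Z (v + u) ^ b :=
      intervalIntegral.continuous_parametric_intervalIntegral_of_continuous'
        (f := fun u v => Z (v + u) ^ b) (by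
          unfold Function.uncurry
          exact hc.comp (by fun_prop : Continuous fun p : ℝ × ℝ => p.2 + p.1)) _ _
    refine intervalIntegral.integral_mono_on (by norm_num) (hcc.intervalIntegrable _ _)
      (_root_.intervalIntegrable_const) fun u hu => ?_
    rw [intervalIntegral.integral_comp_add_right (fun t => Z t ^ b)]
    exact intervalIntegral.integral_mono_interval (by linarith [hu.1]) (by linarith)
      (by linarith [hu.2]) (Eventually.of_forall fun t => Zp_nonneg b t) (Zp_int hb _ _)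
  rw [intervalIntegral.integral_const, smul_eq_mul] at h2
  rw [h1]
  linarith

/-- regularization -/
lemma reg {β : ℝ} (hβ : 0 < β) : ∃ C : ℝ, 0 ≤ C ∧ ∀ z η : ℝ, 0 ≤ z → 0 < η → η ≤ 1 →
    (z ^ 2 + η ^ 2) ^ (β / 2) ≤ z ^ β + C * η ^ (min β 1) * (1 + z ^ β) := by
  refine ⟨1 + β * 2 ^ β, by positivity, fun z η hz hη0 hη1 => ?_⟩
  have hzβ : 0 ≤ z ^ β := Real.rpow_nonneg hz β
  have h1 : (z ^ 2 + η ^ 2) ^ (β / 2) ≤ (z + η) ^ β := by
    have h2 : (z ^ 2 + η ^ 2) ^ (β / 2) ≤ ((z + η) ^ 2) ^ (β / 2) :=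
      Real.rpow_le_rpow (by positivity) (by nlinarith) (by positivity)
    rwa [← Real.rpow_natCast (z + η) 2, ← Real.rpow_mul (by positivity),
      show ((2:ℕ):ℝ) * (β / 2) = β by push_cast; ring] at h2
  refine h1.trans ?_
  rcases le_or_gt β 1 with hβ1 | hβ1
  · rw [min_eq_left hβ1]
    have h2 := Real.rpow_add_le_add_rpow hz hη0.le hβ.le hβ1
    have h3 : 0 ≤ η ^ β := by positivity
    have h4 : η ^ β ≤ (1 + β * 2 ^ β) * η ^ β * (1 + z ^ β) := by
      have h5 : 1 ≤ (1 + β * 2 ^ β) * (1 + z ^ β) := by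
        have : (0:ℝ) ≤ β * 2 ^ β := by positivity
        nlinarith
      calc η ^ β = η ^ β * 1 := (mul_one _).symm
        _ ≤ η ^ β * ((1 + β * 2 ^ β) * (1 + z ^ β)) := mul_le_mul_of_nonneg_left h5 h3
        _ = _ := by ring
    linarith
  · rw [min_eq_right hβ1.le, Real.rpow_one]
    have hs : 0 < z + η := by linarith
    have h2 : (z + η) ^ β - β * η * (z + η) ^ (β - 1) ≤ z ^ β := by
      have h3 := one_add_mul_self_le_rpow_one_add (s := -(η / (z + η))) (by
        rw [neg_le_neg_iff, div_le_one hs]; linarith) hβ1.le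
      have e1 : 1 + -(η / (z + η)) = z / (z + η) := by field_simp; ring
      rw [e1, Real.div_rpow hz hs.le, le_div_iff₀ (by positivity)] at h3
      have e2 : (z + η) ^ β = (z + η) ^ (β - 1) * (z + η) := by
        rw [← Real.rpow_add_one hs.ne', sub_add_cancel]
      calc (z + η) ^ β - β * η * (z + η) ^ (β - 1) =
          (1 + β * -(η / (z + η))) * (z + η) ^ β := by
            rw [e2]; field_simp; ring
        _ ≤ z ^ β := h3
    have h4 : (z + η) ^ (β - 1) ≤ 2 ^ β * (1 + z ^ β) := by
      calc (z + η) ^ (β - 1) ≤ (1 + z) ^ (β - 1) :=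
            Real.rpow_le_rpow hs.le (by linarith) (by linarith)
        _ ≤ (1 + z) ^ β := Real.rpow_le_rpow_of_exponent_le (by linarith) (by linarith)
        _ ≤ (2 * max 1 z) ^ β := by
            refine Real.rpow_le_rpow (by linarith) ?_ hβ.le
            linarith [le_max_left 1 z, le_max_right 1 z]
        _ = 2 ^ β * (max 1 z) ^ β := Real.mul_rpow (by norm_num) (by positivity)
        _ ≤ 2 ^ β * (1 + z ^ β) := by
            refine mul_le_mul_of_nonneg_left ?_ (by positivity)
            rcases le_total 1 z with h5 | h5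
            · rw [max_eq_right h5]; linarith
            · rw [max_eq_left h5, Real.one_rpow]; linarith
    have h5 : β * η * (z + η) ^ (β - 1) ≤ β * η * (2 ^ β * (1 + z ^ β)) :=
      mul_le_mul_of_nonneg_left h4 (by positivity)
    have h6 : 0 ≤ η * (1 + z ^ β) := by positivity
    nlinarith

end Pool.Agent.U615.Smp
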