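import Pool.Agent.U615.ZC

/-!
# Moments of zeta along almost every arithmetic progression
-/

set_option autoImplicit false

open MeasureTheory Set Filter Topology Real

namespace Pool.Agent.U615.Smp

open Pool.Agent.H983R4.LH (Adm)

/-- `ζ(1/2 + it)` -/
noncomputable def F (t : ℝ) : ℂ := riemannZeta (1 / 2 + t * Complex.I)

/-- its derivative -/
noncomputable def F' (t : ℝ) : ℂ := deriv riemannZeta (1 / 2 + t * Complex.I) * Complex.I

lemma F_deriv (t : ℝ) : HasDerivAt F (F' t) t := by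
  have h1 : HasDerivAt (fun z : ℂ => riemannZeta (1 / 2 + z * Complex.I)) (F' t) (t : ℂ) := by
    have h2 : (1 / 2 + (t : ℂ) * Complex.I) ≠ 1 := by
      intro h
      have := congrArg Complex.re h
      simp at this
    have h3 := (differentiableAt_riemannZeta h2).hasDerivAt
    have h4 : HasDerivAt (fun z : ℂ => 1 / 2 + z * Complex.I) Complex.I (t : ℂ) := by
      simpa using ((hasDerivAt_id (t : ℂ)).mul_const Complex.I).const_add (1 / 2)
    exact HasDerivAt.comp (t : ℂ) h3 h4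
  exact h1.comp_ofReal

lemma F'_cont : Continuous F' := deriv_cont.mul continuous_const

lemma F_cont : Continuous F := continuous_iff_continuousAt.2 fun t => (F_deriv t).continuousAt

lemma norm_F (t : ℝ) : ‖F t‖ = Z t := rfl

lemma norm_F' (t : ℝ) : ‖F' t‖ = ‖deriv riemannZeta (1 / 2 + t * Complex.I)‖ := by
  unfold F'
  rw [norm_mul, Complex.norm_I, mul_one]

/-- the regularized power -/
noncomputable def fr (β η t : ℝ) : ℝ := (Z t ^ 2 + η ^ 2) ^ (β / 2)

/-- its derivative -/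
noncomputable def fr' (β η t : ℝ) : ℝ :=
  (2 * inner ℝ (F t) (F' t)) * (β / 2) * (Z t ^ 2 + η ^ 2) ^ (β / 2 - 1)

lemma fr_deriv (β : ℝ) {η : ℝ} (hη : 0 < η) (t : ℝ) : HasDerivAt (fr β η) (fr' β η t) t := by
  have h1 : HasDerivAt (fun t => ‖F t‖ ^ 2 + η ^ 2) (2 * inner ℝ (F t) (F' t)) t :=
    ((F_deriv t).norm_sq).add_const _
  exact h1.rpow_const (p := β / 2) (Or.inl (by positivity))

lemma fr'_cont (β : ℝ) {η : ℝ} (hη : 0 < η) : Continuous (fr' β η) := by
  unfold fr'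
  have h1 : Continuous fun t => inner ℝ (F t) (F' t) := F_cont.inner F'_cont
  have h2 : Continuous fun t => (Z t ^ 2 + η ^ 2) ^ (β / 2 - 1) := by
    have h3 : Continuous fun t => Z t ^ 2 + η ^ 2 := (Z_cont.pow 2).add continuous_const
    exact h3.rpow_const fun t => Or.inl (by positivity)
  exact ((continuous_const.mul h1).mul continuous_const).mul h2

lemma le_fr {β : ℝ} (hβ : 0 < β) (η t : ℝ) : Z t ^ β ≤ fr β η t := by
  unfold fr
  have h1 : Z t ^ β = (Z t ^ 2) ^ (β / 2) := by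
    rw [← Real.rpow_natCast (Z t) 2, ← Real.rpow_mul (Z_nonneg t)]
    congr 1
    push_cast
    ring
  rw [h1]
  exact Real.rpow_le_rpow (by positivity) (by nlinarith [sq_nonneg η]) (by positivity)

lemma grad {β z η : ℝ} (hβ : 0 < β) (hz : 0 ≤ z) (hη : 0 < η) (hη1 : η ≤ 1) :
    z * (z ^ 2 + η ^ 2) ^ (β / 2 - 1) ≤ η⁻¹ * (1 + z) ^ (max β 1 - 1) := by
  set S := z ^ 2 + η ^ 2 with hS
  have hS0 : 0 < S := by positivity
  have hη' : 1 ≤ η⁻¹ := (one_le_inv₀ hη).2 hη1
  have h1 : z ≤ S ^ (1 / 2 : ℝ) := by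
    rw [← Real.sqrt_eq_rpow]
    apply Real.le_sqrt_of_sq_le
    nlinarith [sq_nonneg η]
  have h2 : z * S ^ (β / 2 - 1) ≤ S ^ ((β - 1) / 2) := by
    calc z * S ^ (β / 2 - 1) ≤ S ^ (1 / 2 : ℝ) * S ^ (β / 2 - 1) :=
          mul_le_mul_of_nonneg_right h1 (by positivity)
      _ = S ^ ((β - 1) / 2) := by
          rw [← Real.rpow_add hS0]; congr 1; ring
  refine h2.trans ?_
  rcases le_or_gt 1 β with h3 | h3
  · rw [max_eq_left h3]
    have h4 : S ≤ (1 + z) ^ 2 := by nlinarith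
    have h5 : S ^ ((β - 1) / 2) ≤ (1 + z) ^ (β - 1) := by
      calc S ^ ((β - 1) / 2) ≤ ((1 + z) ^ 2) ^ ((β - 1) / 2) :=
            Real.rpow_le_rpow hS0.le h4 (by linarith)
        _ = (1 + z) ^ (β - 1) := by
            rw [← Real.rpow_natCast (1 + z) 2, ← Real.rpow_mul (by linarith)]
            congr 1
            push_cast
            ring
    have h6 : 0 ≤ (1 + z) ^ (β - 1) := by positivity
    nlinarith
  · rw [max_eq_right h3.le, sub_self, Real.rpow_zero, mul_one]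
    have h4 : η ^ 2 ≤ S := by nlinarith [sq_nonneg z]
    calc S ^ ((β - 1) / 2) ≤ (η ^ 2) ^ ((β - 1) / 2) :=
          Real.rpow_le_rpow_of_nonpos (by positivity) h4 (by linarith)
      _ = η ^ (β - 1) := by
          rw [← Real.rpow_natCast η 2, ← Real.rpow_mul hη.le]
          congr 1
          push_cast
          ring
      _ ≤ η ^ (-1 : ℝ) := Real.rpow_le_rpow_of_exponent_ge hη hη1 (by linarith)
      _ = η⁻¹ := Real.rpow_neg_one η

lemma fr'_abs {β η : ℝ} (hβ : 0 < β) (hη : 0 < η) (hη1 : η ≤ 1) (t : ℝ) :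
    |fr' β η t| ≤ β * η⁻¹ *
      ((1 + Z t) ^ (max β 1 - 1) * ‖deriv riemannZeta (1 / 2 + t * Complex.I)‖) := by
  unfold fr'
  have h1 := abs_real_inner_le_norm (F t) (F' t)
  rw [norm_F, norm_F'] at h1
  have h2 := grad hβ (Z_nonneg t) hη hη1
  have hS : 0 ≤ (Z t ^ 2 + η ^ 2) ^ (β / 2 - 1) := by positivity
  rw [abs_mul, abs_mul, abs_mul, abs_two, abs_of_pos (by positivity : 0 < β / 2), abs_of_nonneg hS]
  set D := ‖deriv riemannZeta (1 / 2 + t * Complex.I)‖ with hD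
  have hD0 : 0 ≤ D := norm_nonneg _
  calc 2 * |inner ℝ (F t) (F' t)| * (β / 2) * (Z t ^ 2 + η ^ 2) ^ (β / 2 - 1) =
        β * (|inner ℝ (F t) (F' t)| * (Z t ^ 2 + η ^ 2) ^ (β / 2 - 1)) := by ring
    _ ≤ β * ((Z t * D) * (Z t ^ 2 + η ^ 2) ^ (β / 2 - 1)) := by gcongr
    _ = β * ((Z t * (Z t ^ 2 + η ^ 2) ^ (β / 2 - 1)) * D) := by ring
    _ ≤ β * ((η⁻¹ * (1 + Z t) ^ (max β 1 - 1)) * D) := by gcongr
    _ = _ := by ring

/-- the hypotheses of the sampling theorem hold for the powers of `|ζ(1/2 + it)|` -/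
theorem dat {θ β : ℝ} (hθ : Adm θ) (hθ0 : 0 ≤ θ) (hθ6 : θ ≤ 1 / 6) (hβ : 0 < β)
    (hβθ : β * θ < 1) : ∃ κ ρ σ ε T₀ : ℝ, Par κ ρ σ ε ∧ Dat (fun t => Z t ^ β) κ ρ σ ε T₀ := by
  set b := max β 1 with hb
  have hb1 : 1 ≤ b := le_max_right _ _
  have hbβ : β ≤ b := le_max_left _ _
  have hb0 : 0 < b := by linarith
  set κ := b * θ with hκ
  have hκ0 : 0 ≤ κ := by positivity
  have hκ1 : κ < 1 := by
    rw [hκ, hb]
    rcases le_total β 1 with h | h
    · rw [max_eq_right h]; linarith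
    · rw [max_eq_left h]; exact hβθ
  set ρ := (1 - κ) / 40 with hρ
  have hρ0 : 0 < ρ := by rw [hρ]; linarith
  set mn := min β 1 with hmn
  have hmn0 : 0 < mn := lt_min hβ one_pos
  have hmn1 : mn ≤ 1 := min_le_right _ _
  set σ := ρ * mn / 8 with hσ
  have hσ0 : 0 < σ := by positivity
  have hσρ : σ ≤ ρ := by
    rw [hσ]
    nlinarith
  set ε := σ / 8 with hε
  have hε0 : 0 < ε := by positivity
  have P : Par κ ρ σ ε := ⟨hκ0, hκ1, hρ0, by rw [hρ]; linarith, hσ0, hσρ, hε0, by rw [hε]; linarith⟩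
  -- constants
  obtain ⟨Creg, hCreg0, hCreg⟩ := reg hβ
  obtain ⟨A, hA1, hA⟩ := der_local' (b := b) (e := ρ / 8) hb1 (by positivity)
  obtain ⟨C1, hC1⟩ := hθ (ε / (β + 1)) (by positivity)
  have hC10 : 0 ≤ C1 := by
    have := (norm_nonneg _).trans (hC1 0)
    simpa using this
  obtain ⟨C2, hC2⟩ := hθ (ρ / (8 * b)) (by positivity)
  have hC20 : 0 ≤ C2 := by
    have := (norm_nonneg _).trans (hC2 0)
    simpa using this
  set a1 := β * (θ + ε / (β + 1)) with ha1
  have ha1κ : a1 < κ + ε := by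
    have h1 : β * (ε / (β + 1)) < ε := by
      rw [mul_div_assoc', div_lt_iff₀ (by linarith)]
      nlinarith
    have h2 : β * θ ≤ κ := mul_le_mul_of_nonneg_right hbβ hθ0
    rw [ha1, mul_add]
    linarith
  set C3 := 1 + 4 * (C2 * 2 ^ (θ + ρ / (8 * b))) ^ b with hC3
  have hC30 : 0 ≤ C3 := by positivity
  have hbe : b * (θ + ρ / (8 * b)) = κ + ρ / 8 := by
    rw [hκ]; field_simp
  have ev : ∀ᶠ T : ℝ in atTop, 3 ≤ T ∧ T ^ (1 - ε) ≤ (∫ t in (0:ℝ)..T, Z t ^ β) ∧
      (C1 * 2 ^ (θ + ε / (β + 1))) ^ β * T ^ a1 ≤ T ^ (κ + ε) ∧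
      Creg * T ^ (-(ρ / 4) * mn) ≤ T ^ (-σ) ∧
      (β * A * 2 ^ (ρ / 8) * C3) * T ^ (κ + ρ / 2) ≤ T ^ (κ + ρ) ∧
      (β * A * 2 ^ (ρ / 8) * 5) * T ^ (ρ / 2) ≤ T ^ ρ ∧
      (∫ t in (-2:ℝ)..(T + 2), Z t ^ b) ≤ T ^ (ρ / 8) * ∫ t in (0:ℝ)..T, Z t ^ β := by
    filter_upwards [eventually_ge_atTop 3, low hβ hε0, ev_pow ((C1 * 2 ^ (θ + ε / (β + 1))) ^ β) ha1κ,
      ev_pow Creg (show -(ρ / 4) * mn < -σ by
        rw [hσ]
        have := mul_pos hρ0 hmn0
        linarith),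
      ev_pow (β * A * 2 ^ (ρ / 8) * C3) (show κ + ρ / 2 < κ + ρ by linarith),
      ev_pow (β * A * 2 ^ (ρ / 8) * 5) (show ρ / 2 < ρ by linarith),
      J_bound hθ hθ0 hβ (by linarith) hβθ (show 0 < ρ / 8 by positivity)] with T h1 h2 h3 h4 h5 h6 h7
    exact ⟨h1, h2, h3, h4, h5, h6, h7⟩
  obtain ⟨T₀, hT₀⟩ := eventually_atTop.1 ev
  refine ⟨κ, ρ, σ, ε, max T₀ 3, P, ⟨Zp_cont hβ, fun t => Zp_nonneg β t,
    by linarith [le_max_right T₀ 3], ?_, ?_, ?_⟩⟩
  · intro T hT t ht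
    obtain ⟨h1, -, h3, -⟩ := hT₀ T ((le_max_left _ _).trans hT)
    have hT0 : 0 < T := by linarith
    have h4 : Z t ≤ C1 * 2 ^ (θ + ε / (β + 1)) * T ^ (θ + ε / (β + 1)) := by
      refine (hC1 t).trans ?_
      rw [mul_assoc, ← Real.mul_rpow (by norm_num) hT0.le]
      refine mul_le_mul_of_nonneg_left ?_ hC10
      refine Real.rpow_le_rpow (by positivity) ?_ (by positivity)
      rw [abs_of_nonneg ht.1]
      linarith [ht.2]
    calc Z t ^ β ≤ (C1 * 2 ^ (θ + ε / (β + 1)) * T ^ (θ + ε / (β + 1))) ^ β :=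
          Real.rpow_le_rpow (Z_nonneg t) h4 hβ.le
      _ = (C1 * 2 ^ (θ + ε / (β + 1))) ^ β * T ^ a1 := by
          rw [Real.mul_rpow (by positivity) (by positivity), ← Real.rpow_mul hT0.le, ha1]
          congr 2; ring
      _ ≤ T ^ (κ + ε) := h3
  · intro T hT
    exact (hT₀ T ((le_max_left _ _).trans hT)).2.1
  · intro T hT
    obtain ⟨h1, hlow, -, h4, h5, h6, h7⟩ := hT₀ T ((le_max_left _ _).trans hT)
    have hT0 : 0 < T := by linarith
    have hT1 : 1 ≤ T := by linarith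
    set I := ∫ t in (0:ℝ)..T, Z t ^ β with hI
    set η : ℝ := T ^ (-(ρ / 4)) with hη
    have hη0 : 0 < η := by positivity
    have hη1 : η ≤ 1 := Real.rpow_le_one_of_one_le_of_nonpos hT1 (by linarith)
    have hηi : η⁻¹ = T ^ (ρ / 4) := by
      rw [hη, ← Real.rpow_neg hT0.le, neg_neg]
    have hηm : η ^ mn = T ^ (-(ρ / 4) * mn) := by
      rw [hη, ← Real.rpow_mul hT0.le]
    have hpt : ∀ t ∈ Icc 0 T, |fr' β η t| ≤ β * A * 2 ^ (ρ / 8) * T ^ (3 * ρ / 8) * W b t := by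
      intro t ht
      have h8 := fr'_abs hβ hη0 hη1 t
      have h9 := hA t ht.1
      rw [← hb] at h8
      have h10 : (1 + t) ^ (ρ / 8) ≤ 2 ^ (ρ / 8) * T ^ (ρ / 8) := by
        rw [← Real.mul_rpow (by norm_num) hT0.le]
        exact Real.rpow_le_rpow (by linarith [ht.1]) (by linarith [ht.2]) (by positivity)
      have hW := W_ge (b := b) t
      calc |fr' β η t| ≤ β * η⁻¹ * (A * (1 + t) ^ (ρ / 8) * W b t) :=
            h8.trans (mul_le_mul_of_nonneg_left h9 (by positivity))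
        _ ≤ β * T ^ (ρ / 4) * (A * (2 ^ (ρ / 8) * T ^ (ρ / 8)) * W b t) := by
            rw [hηi]; gcongr
        _ = β * A * 2 ^ (ρ / 8) * (T ^ (ρ / 4) * T ^ (ρ / 8)) * W b t := by ring
        _ = β * A * 2 ^ (ρ / 8) * T ^ (3 * ρ / 8) * W b t := by
            rw [← Real.rpow_add hT0]
            congr 3; ring
    refine ⟨fr β η, fr' β η, fun t => fr_deriv β hη0 t, fr'_cont β hη0, fun t => le_fr hβ η t,
      ?_, ?_, ?_⟩
    · intro t _
      have h8 := hCreg (Z t) η (Z_nonneg t) hη0 hη1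
      rw [← hmn, hηm] at h8
      unfold fr
      refine h8.trans ?_
      have h9 : 0 ≤ 1 + Z t ^ β := by linarith [Zp_nonneg β t]
      have := mul_le_mul_of_nonneg_right h4 h9
      linarith
    · intro t ht
      have hW : W b t ≤ C3 * T ^ (κ + ρ / 8) := by
        have h8 : ∀ u ∈ Icc (-2:ℝ) 2, Z (t + u) ^ b ≤
            (C2 * 2 ^ (θ + ρ / (8 * b))) ^ b * T ^ (κ + ρ / 8) := by
          intro u hu
          have h9 : Z (t + u) ≤ C2 * 2 ^ (θ + ρ / (8 * b)) * T ^ (θ + ρ / (8 * b)) := by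
            refine (hC2 (t + u)).trans ?_
            rw [mul_assoc, ← Real.mul_rpow (by norm_num) hT0.le]
            refine mul_le_mul_of_nonneg_left ?_ hC20
            refine Real.rpow_le_rpow (by positivity) ?_ (by positivity)
            have h10 : |t + u| ≤ T + 2 := by
              rw [abs_le]
              constructor <;> linarith [ht.1, ht.2, hu.1, hu.2]
            linarith
          calc Z (t + u) ^ b ≤ (C2 * 2 ^ (θ + ρ / (8 * b)) * T ^ (θ + ρ / (8 * b))) ^ b :=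
                Real.rpow_le_rpow (Z_nonneg _) h9 hb0.le
            _ = _ := by
                rw [Real.mul_rpow (by positivity) (by positivity), ← Real.rpow_mul hT0.le]
                congr 2
                rw [← hbe]; ring
        have h9 : ∫ u in (-2:ℝ)..2, Z (t + u) ^ b ≤
            4 * ((C2 * 2 ^ (θ + ρ / (8 * b))) ^ b * T ^ (κ + ρ / 8)) := by
          calc ∫ u in (-2:ℝ)..2, Z (t + u) ^ b ≤
                ∫ u in (-2:ℝ)..2, ((C2 * 2 ^ (θ + ρ / (8 * b))) ^ b * T ^ (κ + ρ / 8)) := by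
                refine intervalIntegral.integral_mono_on (by norm_num) ?_
                  (_root_.intervalIntegrable_const) h8
                have : Continuous fun u => Z (t + u) ^ b :=
                  (Zp_cont hb0).comp (continuous_const.add continuous_id)
                exact this.intervalIntegrable _ _
            _ = _ := by
                rw [intervalIntegral.integral_const, smul_eq_mul]; ring
        have h10 : 1 ≤ T ^ (κ + ρ / 8) := Real.one_le_rpow hT1 (by positivity)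
        unfold W
        rw [hC3]
        linarith
      refine (hpt t ht).trans ?_
      calc β * A * 2 ^ (ρ / 8) * T ^ (3 * ρ / 8) * W b t ≤
            β * A * 2 ^ (ρ / 8) * T ^ (3 * ρ / 8) * (C3 * T ^ (κ + ρ / 8)) := by gcongr
        _ = (β * A * 2 ^ (ρ / 8) * C3) * (T ^ (3 * ρ / 8) * T ^ (κ + ρ / 8)) := by ring
        _ = (β * A * 2 ^ (ρ / 8) * C3) * T ^ (κ + ρ / 2) := by
            rw [← Real.rpow_add hT0]
            congr 2; ring
        _ ≤ T ^ (κ + ρ) := h5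
    · have hI0 : 0 ≤ I := intervalIntegral.integral_nonneg hT0.le fun t _ => Zp_nonneg β t
      have h8 : ∫ t in (0:ℝ)..T, |fr' β η t| ≤
          ∫ t in (0:ℝ)..T, β * A * 2 ^ (ρ / 8) * T ^ (3 * ρ / 8) * W b t :=
        intervalIntegral.integral_mono_on hT0.le ((fr'_cont β hη0).abs.intervalIntegrable _ _)
          ((continuous_const.mul (W_cont hb0)).intervalIntegrable _ _) hpt
      rw [intervalIntegral.integral_const_mul] at h8
      have h9 := W_int hb0 hT0.le
      have h10 : T ≤ T ^ (ρ / 8) * I := by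
        calc T = T ^ ε * T ^ (1 - ε) := by rw [← Real.rpow_add hT0]; simp
          _ ≤ T ^ (ρ / 8) * I := by
              refine mul_le_mul ?_ hlow (by positivity) (by positivity)
              refine Real.rpow_le_rpow_of_exponent_le hT1 ?_
              rw [hε]
              linarith
      have h11 : ∫ v in (0:ℝ)..T, W b v ≤ 5 * (T ^ (ρ / 8) * I) := by linarith
      calc ∫ t in (0:ℝ)..T, |fr' β η t| ≤
            β * A * 2 ^ (ρ / 8) * T ^ (3 * ρ / 8) * (5 * (T ^ (ρ / 8) * I)) :=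
            h8.trans (mul_le_mul_of_nonneg_left h11 (by positivity))
        _ = (β * A * 2 ^ (ρ / 8) * 5) * (T ^ (3 * ρ / 8) * T ^ (ρ / 8)) * I := by ring
        _ = (β * A * 2 ^ (ρ / 8) * 5) * T ^ (ρ / 2) * I := by
            rw [← Real.rpow_add hT0]
            congr 3; ring
        _ ≤ T ^ ρ * I := mul_le_mul_of_nonneg_right h6 hI0

end Pool.Agent.U615.Smp
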