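import Pool.Agent.U615.ZD
import Pool.Agent.W22.EH.EX
import Pool.Agent.W903.EH.BK
import Pool.Agent.W347.EH.KT

/-!
# Moments of zeta along almost every arithmetic progression: the theorem
-/

set_option autoImplicit false

open MeasureTheory Set Filter Topology Real

namespace Pool.Agent.U615.Smp

open Pool.Agent.H983R4.LH (Adm lh_of)

/-- Weyl's bound -/
theorem adm_sixth : Adm (1 / 6) := by
  intro ε hε
  obtain ⟨T0, hT0⟩ := Pool.Agent.W22.EH.ex (Pool.Agent.W903.EH.bk Pool.Agent.W347.EH.kt)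
    Pool.Agent.W903.EH.b1 ε hε
  refine lh_of (T₁ := max T0 0) (by linarith) fun T hT => ?_
  have h0 : 0 ≤ T := (le_max_right _ _).trans hT
  refine ((hT0 T ((le_max_left _ _).trans hT)).1).trans ?_
  exact Real.rpow_le_rpow h0 (by linarith) (by linarith)

/-- one order -/
theorem main_one {θ β : ℝ} (hθ : Adm θ) (hθ0 : 0 ≤ θ) (hβ : 0 < β) (hβθ : β * θ < 1 ∨ β < 6) :
    ∃ δ : ℝ, 0 < δ ∧ ∀ᵐ α : ℝ, 0 < α → ∀ᶠ N : ℕ in atTop, ∀ γ ∈ Icc 0 α,
      |α * ∑ n ∈ Finset.range N, Z (α * n + γ) ^ β - ∫ t in (0:ℝ)..(α * N), Z t ^ β| ≤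
        (N : ℝ) ^ (-δ) * ∫ t in (0:ℝ)..(α * N), Z t ^ β := by
  obtain ⟨θ', hθ', hθ'0, hθ'6, hβθ'⟩ : ∃ θ' : ℝ, Adm θ' ∧ 0 ≤ θ' ∧ θ' ≤ 1 / 6 ∧ β * θ' < 1 := by
    rcases hβθ with h | h
    · rcases le_or_gt θ (1 / 6) with h2 | h2
      · exact ⟨θ, hθ, hθ0, h2, h⟩
      · exact ⟨1 / 6, adm_sixth, by norm_num, le_rfl, by nlinarith⟩
    · exact ⟨1 / 6, adm_sixth, by norm_num, le_rfl, by linarith⟩
  obtain ⟨κ, ρ, σ, ε, T₀, P, H⟩ := dat hθ' hθ'0 hθ'6 hβ hβθ'
  obtain ⟨δ, hδ0, _, hs⟩ := sampling P H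
  refine ⟨δ / 4, by positivity, ?_⟩
  filter_upwards [hs] with α hα hα0
  obtain ⟨C, hC, hN⟩ := hα hα0
  have h2 : Tendsto (fun N : ℕ => α * (N : ℝ)) atTop atTop :=
    tendsto_natCast_atTop_atTop.const_mul_atTop hα0
  have h3 : ∀ᶠ N : ℕ in atTop, C * (α ^ (1 / 2 : ℝ)) ^ (-δ) * (N : ℝ) ^ (-(δ / 2)) ≤
      (N : ℝ) ^ (-(δ / 4)) :=
    tendsto_natCast_atTop_atTop.eventually (ev_pow _ (by linarith))
  filter_upwards [hN, h2.eventually (low hβ (show (0:ℝ) < 1 / 2 by norm_num)), h3,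
    eventually_ge_atTop 1] with N h4 h5 h6 hN1 γ hγ
  have hN0 : (0:ℝ) < N := by exact_mod_cast hN1
  set I := ∫ t in (0:ℝ)..(α * N), Z t ^ β with hI
  have hαN : 0 < α * N := by positivity
  have h7 : 0 < (α * N) ^ (1 - 1 / 2 : ℝ) := Real.rpow_pos_of_pos hαN _
  have hI0 : 0 < I := lt_of_lt_of_le h7 h5
  refine (h4 γ hγ).trans ?_
  have e1 : I ^ (1 - δ) = I ^ (-δ) * I := by
    nth_rewrite 3 [← Real.rpow_one I]
    rw [← Real.rpow_add hI0]
    congr 1; ring
  have h8 : I ^ (-δ) ≤ (α ^ (1 / 2 : ℝ)) ^ (-δ) * (N : ℝ) ^ (-(δ / 2)) := by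
    calc I ^ (-δ) ≤ ((α * N) ^ (1 - 1 / 2 : ℝ)) ^ (-δ) :=
          Real.rpow_le_rpow_of_nonpos h7 h5 (by linarith)
      _ = (α ^ (1 / 2 : ℝ)) ^ (-δ) * (N : ℝ) ^ (-(δ / 2)) := by
          rw [show (1 - 1 / 2 : ℝ) = 1 / 2 by norm_num, Real.mul_rpow hα0.le hN0.le,
            Real.mul_rpow (by positivity) (by positivity), ← Real.rpow_mul hN0.le]
          congr 2; ring
  rw [e1, ← mul_assoc]
  refine mul_le_mul_of_nonneg_right ?_ hI0.le
  calc C * I ^ (-δ) ≤ C * ((α ^ (1 / 2 : ℝ)) ^ (-δ) * (N : ℝ) ^ (-(δ / 2))) :=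
        mul_le_mul_of_nonneg_left h8 hC
    _ = C * (α ^ (1 / 2 : ℝ)) ^ (-δ) * (N : ℝ) ^ (-(δ / 2)) := by ring
    _ ≤ (N : ℝ) ^ (-(δ / 4)) := h6

/-- the quotient of the sample mean and the mean tends to `1` -/
lemma ratio_tendsto {β δ α γ : ℝ} (hβ : 0 < β) (hδ : 0 < δ) (hα : 0 < α)
    (h : ∀ᶠ N : ℕ in atTop,
      |α * ∑ n ∈ Finset.range N, Z (α * n + γ) ^ β - ∫ t in (0:ℝ)..(α * N), Z t ^ β| ≤
        (N : ℝ) ^ (-δ) * ∫ t in (0:ℝ)..(α * N), Z t ^ β) :
    Tendsto (fun N : ℕ => (α * ∑ n ∈ Finset.range N, Z (α * n + γ) ^ β) /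
      ∫ t in (0:ℝ)..(α * N), Z t ^ β) atTop (𝓝 1) := by
  have h2 : Tendsto (fun N : ℕ => α * (N : ℝ)) atTop atTop :=
    tendsto_natCast_atTop_atTop.const_mul_atTop hα
  have h1 : Tendsto (fun N : ℕ => (N : ℝ) ^ (-δ)) atTop (𝓝 0) :=
    (tendsto_rpow_neg_atTop hδ).comp tendsto_natCast_atTop_atTop
  rw [tendsto_iff_norm_sub_tendsto_zero]
  refine squeeze_zero' (Eventually.of_forall fun _ => norm_nonneg _) ?_ h1
  filter_upwards [h, h2.eventually (low hβ (show (0:ℝ) < 1 / 2 by norm_num)),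
    eventually_ge_atTop 1] with N h4 h5 hN1
  have hN0 : (0:ℝ) < N := by exact_mod_cast hN1
  set I := ∫ t in (0:ℝ)..(α * N), Z t ^ β with hI
  have hαN : 0 < α * N := by positivity
  have h7 : 0 < (α * N) ^ (1 - 1 / 2 : ℝ) := Real.rpow_pos_of_pos hαN _
  have hI0 : 0 < I := lt_of_lt_of_le h7 h5
  rw [Real.norm_eq_abs, div_sub_one hI0.ne', abs_div, abs_of_pos hI0, div_le_iff₀ hI0]
  exact h4

/-- `log ⌊T/α⌋ / log T → 1`, in the form needed -/
lemma log_floor {α : ℝ} (hα : 0 < α) (s : ℕ) : Tendsto (fun T : ℝ =>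
    (((⌊T / α⌋₊ + s : ℕ) : ℝ)) / T) atTop (𝓝 (1 / α)) ∧ Tendsto (fun T : ℝ =>
    Real.log ((⌊T / α⌋₊ + s : ℕ) : ℝ) / Real.log T) atTop (𝓝 1) := by
  have h0 : Tendsto (fun T : ℝ => T / α) atTop atTop := tendsto_id.atTop_div_const hα
  have h1 : Tendsto (fun T : ℝ => ((⌊T / α⌋₊ : ℕ) : ℝ) / (T / α)) atTop (𝓝 1) :=
    (tendsto_nat_floor_div_atTop).comp h0
  have h2 : Tendsto (fun T : ℝ => (((⌊T / α⌋₊ + s : ℕ) : ℝ)) / T) atTop (𝓝 (1 / α)) := by
    have h3 : Tendsto (fun T : ℝ => ((⌊T / α⌋₊ : ℕ) : ℝ) / (T / α) * (1 / α) + s / T) atTop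
        (𝓝 (1 * (1 / α) + 0)) :=
      (h1.mul_const (1 / α)).add (tendsto_const_nhds.div_atTop tendsto_id)
    rw [one_mul, add_zero] at h3
    refine h3.congr' ?_
    filter_upwards [eventually_gt_atTop 0] with T hT
    push_cast
    field_simp
  refine ⟨h2, ?_⟩
  have h3 : Tendsto (fun T : ℝ => Real.log ((((⌊T / α⌋₊ + s : ℕ) : ℝ)) / T)) atTop
      (𝓝 (Real.log (1 / α))) :=
    h2.log (by positivity)
  have h4 : Tendsto (fun T : ℝ => Real.log ((((⌊T / α⌋₊ + s : ℕ) : ℝ)) / T) / Real.log T + 1) atTop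
      (𝓝 (0 + 1)) := (h3.div_atTop Real.tendsto_log_atTop).add_const 1
  rw [zero_add] at h4
  refine h4.congr' ?_
  filter_upwards [eventually_gt_atTop 1, h0.eventually_ge_atTop 1] with T hT hT2
  have hl : 0 < Real.log T := Real.log_pos hT
  have hf : 1 ≤ ⌊T / α⌋₊ := Nat.le_floor (by exact_mod_cast hT2)
  have hf0 : (0:ℝ) < ((⌊T / α⌋₊ + s : ℕ) : ℝ) := by
    have : 0 < ⌊T / α⌋₊ + s := by omega
    exact_mod_cast this
  rw [Real.log_div hf0.ne' (by linarith)]
  field_simp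
  ring

/-- from the multiples of `α` to all heights, for nondecreasing functions -/
lemma all_heights {I : ℝ → ℝ} (hI : ∀ a b, 0 ≤ a → a ≤ b → I a ≤ I b) {q c α : ℝ} (hα : 0 < α) :
    Tendsto (fun T : ℝ => I T / (T * Real.log T ^ q)) atTop (𝓝 c) ↔
      Tendsto (fun N : ℕ => I (α * N) / (N * Real.log N ^ q)) atTop (𝓝 (α * c)) := by
  constructor
  · intro h
    have h2 : Tendsto (fun N : ℕ => α * (N : ℝ)) atTop atTop :=
      tendsto_natCast_atTop_atTop.const_mul_atTop hα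
    have h3 := h.comp h2
    have h5 : Tendsto (fun N : ℕ => Real.log (α * N) / Real.log N) atTop (𝓝 1) := by
      have h6 : Tendsto (fun N : ℕ => Real.log α / Real.log N + 1) atTop (𝓝 (0 + 1)) :=
        ((tendsto_const_nhds.div_atTop (Real.tendsto_log_atTop.comp
          tendsto_natCast_atTop_atTop))).add_const 1
      rw [zero_add] at h6
      refine h6.congr' ?_
      filter_upwards [eventually_ge_atTop 2] with N hN
      have hN1 : (1:ℝ) < N := by exact_mod_cast hN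
      have hl : 0 < Real.log N := Real.log_pos hN1
      rw [Real.log_mul hα.ne' (by linarith)]
      field_simp
    have h6 : Tendsto (fun N : ℕ => (Real.log (α * N) / Real.log N) ^ q) atTop (𝓝 1) := by
      have := h5.rpow_const (p := q) (Or.inl one_ne_zero)
      rwa [Real.one_rpow] at this
    have h7 := (h3.mul_const α).mul h6
    rw [mul_one, mul_comm c α] at h7
    refine h7.congr' ?_
    filter_upwards [eventually_ge_atTop 2, h2.eventually_gt_atTop 1] with N hN hN2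
    have hN1 : (1:ℝ) < N := by exact_mod_cast hN
    have hl : 0 < Real.log N := Real.log_pos hN1
    have hl2 : 0 < Real.log (α * N) := Real.log_pos hN2
    have hp1 : 0 < Real.log N ^ q := by positivity
    have hp2 : 0 < Real.log (α * N) ^ q := by positivity
    simp only [Function.comp]
    rw [Real.div_rpow hl2.le hl.le]
    field_simp
  · intro h
    have key : ∀ s : ℕ, Tendsto (fun T : ℝ => I (α * ((⌊T / α⌋₊ + s : ℕ) : ℝ)) / (T * Real.log T ^ q))
        atTop (𝓝 c) := by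
      intro s
      obtain ⟨k1, k2⟩ := log_floor hα s
      have hfl : Tendsto (fun T : ℝ => ⌊T / α⌋₊ + s) atTop atTop :=
        tendsto_atTop_mono (fun T => Nat.le_add_right _ _)
          (tendsto_nat_floor_atTop.comp (tendsto_id.atTop_div_const hα))
      have k3 := h.comp hfl
      have k4 : Tendsto (fun T : ℝ => (Real.log ((⌊T / α⌋₊ + s : ℕ) : ℝ) / Real.log T) ^ q) atTop
          (𝓝 1) := by
        have := k2.rpow_const (p := q) (Or.inl one_ne_zero)
        rwa [Real.one_rpow] at this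
      have k5 := (k3.mul k1).mul k4
      have e1 : α * c * (1 / α) * 1 = c := by field_simp
      rw [e1] at k5
      refine k5.congr' ?_
      filter_upwards [hfl.eventually_ge_atTop 2, eventually_gt_atTop 1] with T hT hT1
      set n := ⌊T / α⌋₊ + s with hn
      have hn1 : (1:ℝ) < (n : ℝ) := by
        have : 1 < n := by omega
        exact_mod_cast this
      have hl : 0 < Real.log n := Real.log_pos hn1
      have hl2 : 0 < Real.log T := Real.log_pos hT1
      have hp1 : 0 < Real.log n ^ q := by positivity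
      have hp2 : 0 < Real.log T ^ q := by positivity
      simp only [Function.comp]
      rw [← hn, Real.div_rpow hl.le hl2.le]
      have hn0 : (0:ℝ) < n := by linarith
      field_simp
    refine tendsto_of_tendsto_of_tendsto_of_le_of_le' (key 0) (key 1) ?_ ?_
    · filter_upwards [eventually_gt_atTop 1] with T hT
      have hl2 : 0 < Real.log T := Real.log_pos hT
      have h1 : α * ((⌊T / α⌋₊ + 0 : ℕ) : ℝ) ≤ T := by
        rw [add_zero, mul_comm, ← le_div_iff₀ hα]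
        exact Nat.floor_le (by positivity)
      exact div_le_div_of_nonneg_right (hI _ _ (by positivity) h1) (by positivity)
    · filter_upwards [eventually_gt_atTop 1] with T hT
      have hl2 : 0 < Real.log T := Real.log_pos hT
      have h1 : T ≤ α * ((⌊T / α⌋₊ + 1 : ℕ) : ℝ) := by
        have := (Nat.lt_floor_add_one (T / α)).le
        rw [div_le_iff₀ hα] at this
        push_cast
        linarith
      exact div_le_div_of_nonneg_right (hI _ _ (by linarith) h1) (by positivity)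

/-- the asymptotic formula and its discrete form -/
lemma formula_iff {β δ α γ q c : ℝ} (hβ : 0 < β) (hδ : 0 < δ) (hα : 0 < α)
    (h : ∀ᶠ N : ℕ in atTop,
      |α * ∑ n ∈ Finset.range N, Z (α * n + γ) ^ β - ∫ t in (0:ℝ)..(α * N), Z t ^ β| ≤
        (N : ℝ) ^ (-δ) * ∫ t in (0:ℝ)..(α * N), Z t ^ β) :
    Tendsto (fun T : ℝ => (∫ t in (0:ℝ)..T, Z t ^ β) / (T * Real.log T ^ q)) atTop (𝓝 c) ↔
      Tendsto (fun N : ℕ => (∑ n ∈ Finset.range N, Z (α * n + γ) ^ β) / (N * Real.log N ^ q))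
        atTop (𝓝 c) := by
  rw [all_heights (I := fun T => ∫ t in (0:ℝ)..T, Z t ^ β) (fun a b ha hab =>
    intervalIntegral.integral_mono_interval le_rfl ha hab
      (Eventually.of_forall fun t => Zp_nonneg β t) (Zp_int hβ _ _)) hα]
  have hr := ratio_tendsto hβ hδ hα h
  have h2 : Tendsto (fun N : ℕ => α * (N : ℝ)) atTop atTop :=
    tendsto_natCast_atTop_atTop.const_mul_atTop hα
  have hpos : ∀ᶠ N : ℕ in atTop, 0 < ∫ t in (0:ℝ)..(α * N), Z t ^ β := by
    filter_upwards [h2.eventually (low hβ (show (0:ℝ) < 1 / 2 by norm_num)),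
      eventually_ge_atTop 1] with N h5 hN1
    have hN0 : (0:ℝ) < N := by exact_mod_cast hN1
    exact lt_of_lt_of_le (Real.rpow_pos_of_pos (by positivity) _) h5
  have hr2 : Tendsto (fun N : ℕ => (∫ t in (0:ℝ)..(α * N), Z t ^ β) /
      (α * ∑ n ∈ Finset.range N, Z (α * n + γ) ^ β)) atTop (𝓝 1) := by
    have := hr.inv₀ one_ne_zero
    rw [inv_one] at this
    refine this.congr fun N => ?_
    rw [inv_div]
  have hSpos : ∀ᶠ N : ℕ in atTop, α * ∑ n ∈ Finset.range N, Z (α * n + γ) ^ β ≠ 0 := by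
    filter_upwards [hr.eventually_ne one_ne_zero] with N hN h0
    rw [h0, zero_div] at hN
    exact hN rfl
  constructor
  · intro h3
    have h4 := (h3.mul hr).div_const α
    have e1 : α * c * 1 / α = c := by field_simp
    rw [e1] at h4
    refine h4.congr' ?_
    filter_upwards [hpos, eventually_ge_atTop 2] with N h5 hN
    have hN1 : (1:ℝ) < N := by exact_mod_cast hN
    have hl : 0 < Real.log N := Real.log_pos hN1
    have hp1 : 0 < Real.log N ^ q := by positivity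
    have h5' := h5.ne'
    field_simp
  · intro h3
    have h4 := (h3.mul hr2).const_mul α
    rw [mul_one] at h4
    refine h4.congr' ?_
    filter_upwards [hSpos, eventually_ge_atTop 2] with N h5 hN
    have hN1 : (1:ℝ) < N := by exact_mod_cast hN
    have hl : 0 < Real.log N := Real.log_pos hN1
    have hp1 : 0 < Real.log N ^ q := by positivity
    have h6 : ∑ n ∈ Finset.range N, Z (α * n + γ) ^ β ≠ 0 := right_ne_zero_of_mul h5
    field_simp

end Pool.Agent.U615.Smp
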